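import Pool.Agent.helper41.SE.EquiFree

/-! SE-15: labelled approximations for free-by-amenable groups. -/

set_option autoImplicit false

open scoped Pointwise

namespace SofE

/-- extension of a partial injection of a finite set to a permutation -/
theorem labfree_perm {Q : Type} (E₀ : Finset Q) (f : Q → Q) (hf : Function.Injective f) :
    ∃ σ : Equiv.Perm E₀, ∀ (i : E₀) (h : f i ∈ E₀), σ i = ⟨f i, h⟩ := by
  classical
  let e : {x : E₀ // f x ∈ E₀} ≃ {y : E₀ // ∃ x : E₀, f x = y} :=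
    Equiv.ofBijective (fun x => ⟨⟨f x.1, x.2⟩, x.1, rfl⟩)
      ⟨fun x y hxy => by
        have h1 := congrArg (fun z => (z.1 : Q)) hxy
        exact Subtype.ext (Subtype.ext (hf h1)),
       fun y => by
        obtain ⟨y, x, hx⟩ := y
        refine ⟨⟨x, ?_⟩, ?_⟩
        · rw [hx]; exact y.2
        · exact Subtype.ext (Subtype.ext hx)⟩
  refine ⟨e.extendSubtype, fun i h => ?_⟩
  rw [Equiv.extendSubtype_apply_of_mem e i h]
  rfl

open Classical in
/-- the homomorphism killing the letters outside of `A` -/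
noncomputable def labfreeRet {B : Type} (A : Finset B) : FreeGroup B →* FreeGroup A :=
  FreeGroup.lift (fun b => if h : b ∈ A then FreeGroup.of ⟨b, h⟩ else 1)

theorem labfree_ret {B : Type} (w : FreeGroup B) : ∃ A₀ : Finset B, ∀ A : Finset B, A₀ ⊆ A →
    FreeGroup.map (Subtype.val : A → B) (labfreeRet A w) = w := by
  classical
  induction w using FreeGroup.induction_on with
  | C1 => exact ⟨∅, fun A _ => by simp⟩
  | of x =>
    refine ⟨{x}, fun A hA => ?_⟩
    have hx : x ∈ A := hA (Finset.mem_singleton_self x)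
    change FreeGroup.map (Subtype.val : A → B) (labfreeRet A (FreeGroup.of x)) = FreeGroup.of x
    unfold labfreeRet
    rw [FreeGroup.lift_apply_of, dif_pos hx, FreeGroup.map.of]
  | inv_of x ih =>
    obtain ⟨A₀, h⟩ := ih
    exact ⟨A₀, fun A hA => by rw [map_inv, map_inv, h A hA]⟩
  | mul x y hx hy =>
    obtain ⟨A₁, h1⟩ := hx
    obtain ⟨A₂, h2⟩ := hy
    exact ⟨A₁ ∪ A₂, fun A hA => by
      rw [map_mul, map_mul, h1 A (Finset.union_subset_left hA),
        h2 A (Finset.union_subset_right hA)]⟩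

theorem labfree_ret_set {B : Type} {I : Type} (S : Finset I) (w : I → FreeGroup B) :
    ∃ A : Finset B, ∀ i ∈ S, FreeGroup.map (Subtype.val : A → B) (labfreeRet A (w i)) = w i := by
  classical
  choose f hf using fun i => labfree_ret (w i)
  exact ⟨S.biUnion f, fun i hi => hf i _ (Finset.subset_biUnion_of_mem f hi)⟩

theorem labfree_cnt {Q : Type} [DecidableEq Q] (E₀ : Finset Q) (f : Q → Q) (hf : Function.Injective f) :
    cnt (fun i : E₀ => f i ∉ E₀) ≤ (symmDiff (E₀.image f) E₀).card := by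
  rw [cnt_eq]
  refine Finset.card_le_card_of_injOn (fun i => f i) (fun i hi => ?_) (fun i _ j _ hij => ?_)
  · rw [Finset.mem_coe, Finset.mem_filter] at hi
    rw [Finset.mem_coe, Finset.mem_symmDiff]
    exact Or.inl ⟨Finset.mem_image.2 ⟨i, i.2, rfl⟩, hi.2⟩
  · exact Subtype.ext (hf hij)

/-- `p m = ∑` of the exponents of the letter `a` mod 2 (`FreeGroup.lift` to `Multiplicative (ZMod 2)` of `e.symm m`) for `m ∈ N`, else `0`. Given `F`, `ε`: let `E` be a
Følner set in `Γ ⧸ N` for `F ∪ F F ∪ ..` and `ε/3`, `σ s` a permutation of `E` with `σ s i = s • i` whenever `s • i ∈ E` (`Equiv.extendSubtype`),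
`r i = Quotient.out i`; for `i, s • i ∈ E` the element `w s i = (r (s • i))⁻¹ * s * r i` is in `N` (normal). `A` = the finite set of letters of the words
`e.symm (w s i)`, `s ∈ F ∪ F F ∪ {a, b}`, `i ∈ E`; `ret : FreeGroup B → FreeGroup A` kills the other letters; `L s i = ret (e.symm (w s i))`
(`1` if `s • i ∉ E`); `lam i x = p (r i * e (map x) * (r i)⁻¹)`. `mul`: `i` with `t • i ∈ E`, `s • t • i ∈ E` is good (cocycle identity, `ret` is a
homomorphism). `fix`: `s ∈ N` fixes every coset. `free`: if `s ∉ N` then `s • i ≠ i`; if `s ∈ N`, `s ≠ 1` then `map (L s i) = e.symm (w s i) ≠ 1`.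
`equi`: `equi_of_aut` for the automorphism `w ↦ e.symm ((r i)⁻¹ * e w * r i)` (`MulAut.conjNormal`). `lam`: `lam i (L s i) = p s`. -/
theorem hasLab_free {Γ : Type} [Group Γ] (N : Subgroup Γ) [N.Normal] {B : Type} (e : FreeGroup B ≃* N) {a b : B} (hab : a ≠ b) (hF : Folner (Γ ⧸ N)) :
    ∃ p : Γ → ZMod 2, (∀ m ∈ N, ∀ n ∈ N, p (m * n) = p m + p n) ∧ p (e (FreeGroup.of a) : Γ) = 1 ∧
      HasLab N p (e (FreeGroup.of a) : Γ) (e (FreeGroup.of b) : Γ) := by
  classical
  let pa : FreeGroup B →* Multiplicative (ZMod 2) :=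
    FreeGroup.lift (fun c => if c = a then Multiplicative.ofAdd 1 else 1)
  let pN : N →* Multiplicative (ZMod 2) := pa.comp e.symm.toMonoidHom
  let p : Γ → ZMod 2 := fun m => if h : m ∈ N then Multiplicative.toAdd (pN ⟨m, h⟩) else 0
  have hp : ∀ m : N, p m = Multiplicative.toAdd (pN m) := fun m => by
    show (if h : (m : Γ) ∈ N then Multiplicative.toAdd (pN ⟨m, h⟩) else 0) = _
    rw [dif_pos m.2]
  refine ⟨p, ?_, ?_, ?_⟩
  · intro m hm n hn
    have h1 := hp ⟨m, hm⟩
    have h2 := hp ⟨n, hn⟩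
    have h3 := hp (⟨m, hm⟩ * ⟨n, hn⟩)
    rw [map_mul, toAdd_mul, ← h1, ← h2] at h3
    exact h3
  · rw [hp]
    show Multiplicative.toAdd (pa (e.symm (e (FreeGroup.of a)))) = 1
    rw [MulEquiv.symm_apply_apply]
    show Multiplicative.toAdd (FreeGroup.lift _ (FreeGroup.of a)) = 1
    rw [FreeGroup.lift_apply_of, if_pos rfl]
    rfl
  intro F ε hε
  set a' : Γ := (e (FreeGroup.of a) : Γ) with ha'
  set b' : Γ := (e (FreeGroup.of b) : Γ) with hb'
  -- the Følner set
  obtain ⟨E₀, hE₀, hFol⟩ := hF ((F ∪ F * F).image (fun s : Γ => (s : Γ ⧸ N))) (ε / 2) (half_pos hε)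
  have hcnt : ∀ s ∈ F ∪ F * F, (cnt (fun i : E₀ => (s : Γ ⧸ N) * i ∉ E₀) : ℝ) ≤
      ε / 2 * Fintype.card E₀ := by
    intro s hs
    have h1 := hFol _ (Finset.mem_image_of_mem _ hs)
    rw [Fintype.card_coe]
    refine le_trans ?_ h1.le
    exact Nat.cast_le.2 (@labfree_cnt _ (fun a b => Classical.propDecidable (a = b)) E₀
      (fun i => (s : Γ ⧸ N) * i) (mul_right_injective _))
  -- the cocycle
  let r : Γ ⧸ N → Γ := Quotient.out
  have hr : ∀ i : Γ ⧸ N, ((r i : Γ) : Γ ⧸ N) = i := fun i => QuotientGroup.out_eq' i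
  have hw : ∀ (s : Γ) (i : Γ ⧸ N), (r ((s : Γ ⧸ N) * i))⁻¹ * s * r i ∈ N := by
    intro s i
    rw [← QuotientGroup.eq_one_iff, QuotientGroup.mk_mul, QuotientGroup.mk_mul,
      QuotientGroup.mk_inv, hr, hr]
    group
  let w : Γ → Γ ⧸ N → N := fun s i => ⟨(r ((s : Γ ⧸ N) * i))⁻¹ * s * r i, hw s i⟩
  have hcoc : ∀ s t i, w (s * t) i = w s ((t : Γ ⧸ N) * i) * w t i := by
    intro s t i
    apply Subtype.ext
    show (r (((s * t : Γ) : Γ ⧸ N) * i))⁻¹ * (s * t) * r i =
      (r ((s : Γ ⧸ N) * ((t : Γ ⧸ N) * i)))⁻¹ * s * r ((t : Γ ⧸ N) * i) *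
        ((r ((t : Γ ⧸ N) * i))⁻¹ * t * r i)
    rw [QuotientGroup.mk_mul, mul_assoc (s : Γ ⧸ N)]
    group
  have hwN : ∀ s ∈ N, ∀ i, (w s i : Γ) = (r i)⁻¹ * s * r i := by
    intro s hs i
    show (r ((s : Γ ⧸ N) * i))⁻¹ * s * r i = _
    rw [(QuotientGroup.eq_one_iff s).2 hs, one_mul]
  -- the letters
  obtain ⟨A, hA⟩ := labfree_ret_set ((F ∪ {a', b'}) ×ˢ E₀) (fun q => e.symm (w q.1 q.2))
  have hA' : ∀ s ∈ F ∪ {a', b'}, ∀ i ∈ E₀,
      FreeGroup.map (Subtype.val : A → B) (labfreeRet A (e.symm (w s i))) = e.symm (w s i) :=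
    fun s hs i hi => hA (s, i) (Finset.mem_product.2 ⟨hs, hi⟩)
  choose σ hσ using fun s : Γ => labfree_perm E₀ (fun i => (s : Γ ⧸ N) * i) (mul_right_injective _)
  have hcard : (0 : ℝ) ≤ ε * Fintype.card E₀ := by positivity
  have hz : ∀ P : E₀ → Prop, (∀ i, ¬ P i) → (cnt P : ℝ) ≤ ε * Fintype.card E₀ := by
    intro P hP
    rw [cnt_eq_zero.2 hP, Nat.cast_zero]
    exact hcard
  have haN : a' ∈ N := (e (FreeGroup.of a)).2
  have hbN : b' ∈ N := (e (FreeGroup.of b)).2
  have hσN : ∀ s ∈ N, ∀ i : E₀, σ s i = i := by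
    intro s hs i
    have h1 : (s : Γ ⧸ N) * i = i := by rw [(QuotientGroup.eq_one_iff s).2 hs, one_mul]
    have h2 : (s : Γ ⧸ N) * i ∈ E₀ := by rw [h1]; exact i.2
    rw [hσ s i h2]
    exact Subtype.ext h1
  refine ⟨E₀, A, inferInstance, inferInstance, inferInstance, σ,
    fun s i => labfreeRet A (e.symm (w s i)),
    fun i => pN.comp ((MulAut.conjNormal (r i)).toMonoidHom.comp
      (e.toMonoidHom.comp (FreeGroup.map Subtype.val))), ?_⟩
  refine ⟨?_, ?_, ?_, ?_, ?_, ?_⟩
  · exact ⟨⟨hE₀.choose, hE₀.choose_spec⟩⟩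
  · -- mul
    intro s hs t ht
    have hst : s * t ∈ F ∪ F * F := Finset.mem_union_right _ (Finset.mul_mem_mul hs ht)
    have h1 := hcnt (s * t) hst
    have h2 := hcnt t (Finset.mem_union_left _ ht)
    have h3 := cnt_le_add (α := E₀) (P := fun i => ¬ (σ (s * t) i = σ s (σ t i) ∧
      labfreeRet A (e.symm (w (s * t) i)) =
        labfreeRet A (e.symm (w s (σ t i))) * labfreeRet A (e.symm (w t i))))
      (Q := fun i => ((s * t : Γ) : Γ ⧸ N) * i ∉ E₀) (R := fun i => (t : Γ ⧸ N) * i ∉ E₀) (by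
        intro i hi
        by_contra hcon
        push Not at hcon
        obtain ⟨g1, g2⟩ := hcon
        apply hi
        have e1 : σ t i = ⟨(t : Γ ⧸ N) * i, g2⟩ := hσ t i g2
        rw [e1]
        refine ⟨?_, ?_⟩
        · have g3 : (s : Γ ⧸ N) * ((t : Γ ⧸ N) * i) ∈ E₀ := by
            rw [← mul_assoc, ← QuotientGroup.mk_mul]; exact g1
          rw [hσ (s * t) i g1, hσ s ⟨(t : Γ ⧸ N) * i, g2⟩ g3]
          apply Subtype.ext
          show ((s * t : Γ) : Γ ⧸ N) * i = (s : Γ ⧸ N) * ((t : Γ ⧸ N) * i)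
          rw [QuotientGroup.mk_mul, mul_assoc]
        · show labfreeRet A (e.symm (w (s * t) i)) =
            labfreeRet A (e.symm (w s ((t : Γ ⧸ N) * i))) * labfreeRet A (e.symm (w t i))
          rw [hcoc, map_mul, map_mul])
    have h4 : (cnt (fun i : E₀ => ¬ (σ (s * t) i = σ s (σ t i) ∧
      labfreeRet A (e.symm (w (s * t) i)) =
        labfreeRet A (e.symm (w s (σ t i))) * labfreeRet A (e.symm (w t i)))) : ℝ) ≤
        cnt (fun i : E₀ => ((s * t : Γ) : Γ ⧸ N) * i ∉ E₀) +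
          cnt (fun i : E₀ => (t : Γ ⧸ N) * i ∉ E₀) := by exact_mod_cast h3
    refine h4.trans ?_
    linarith
  · -- fix
    intro s _ hs
    exact hz _ fun i hi => hi (hσN s hs i)
  · -- free
    intro s hs hs1
    by_cases hsN : s ∈ N
    · apply hz
      rintro i ⟨-, h2⟩
      have h3 := hA' s (Finset.mem_union_left _ hs) i i.2
      rw [show labfreeRet A (e.symm (w s i)) = 1 from h2, map_one] at h3
      have h4 : w s i = 1 := by
        rw [← e.apply_symm_apply (w s i), ← h3, map_one]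
      have h5 := hwN s hsN i
      rw [h4] at h5
      apply hs1
      have h6 : (1 : Γ) = (r i)⁻¹ * s * r i := h5
      have h7 : s = r i * ((r i)⁻¹ * s * r i) * (r i)⁻¹ := by group
      rw [h7, ← h6]
      group
    · have h1 := hcnt s (Finset.mem_union_left _ hs)
      have h2 : cnt (fun i : E₀ => σ s i = i ∧ labfreeRet A (e.symm (w s i)) = 1) ≤
          cnt (fun i : E₀ => (s : Γ ⧸ N) * i ∉ E₀) := by
        apply cnt_mono
        rintro i ⟨g1, -⟩ g2
        rw [hσ s i g2] at g1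
        have g3 : (s : Γ ⧸ N) * i = i := congrArg Subtype.val g1
        apply hsN
        rw [← QuotientGroup.eq_one_iff]
        exact mul_eq_right.1 g3
      refine le_trans (Nat.cast_le.2 h2) (h1.trans ?_)
      linarith
  · -- equi
    apply hz
    intro i hi
    apply hi
    let α : FreeGroup B ≃* FreeGroup B :=
      e.trans ((MulAut.conjNormal (r i)⁻¹).trans e.symm)
    have hα : ∀ x : FreeGroup B, e.symm (w (e x : Γ) i) = α x := by
      intro x
      show e.symm (w (e x : Γ) i) = e.symm (MulAut.conjNormal (r i)⁻¹ (e x))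
      congr 1
      apply Subtype.ext
      rw [hwN _ (e x).2, MulAut.conjNormal_apply, inv_inv]
    refine equi_of_aut α hab (Subtype.val : A → B) Subtype.val_injective _ _ ?_ ?_
    · rw [← hα]
      exact hA' a' (Finset.mem_union_right _ (by simp)) i i.2
    · rw [← hα]
      exact hA' b' (Finset.mem_union_right _ (by simp)) i i.2
  · -- lam
    intro s hs hsN
    apply hz
    intro i hi
    apply hi
    show pN (MulAut.conjNormal (r i) (e (FreeGroup.map Subtype.val (labfreeRet A (e.symm (w s i)))))) =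
      Multiplicative.ofAdd (p s)
    rw [hA' s (Finset.mem_union_left _ hs) i i.2, e.apply_symm_apply]
    have h1 : MulAut.conjNormal (r i) (w s i) = ⟨s, hsN⟩ := by
      apply Subtype.ext
      rw [MulAut.conjNormal_apply, hwN s hsN]
      show r i * ((r i)⁻¹ * s * r i) * (r i)⁻¹ = s
      group
    rw [h1]
    have h2 := hp ⟨s, hsN⟩
    show pN ⟨s, hsN⟩ = Multiplicative.ofAdd (p s)
    rw [h2]
    rfl

end SofE
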