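import Mathlib

/-! SE-18: the free product `G * H` embeds into `FreeGroup (G × H) ⋊ (G × H)`. -/

set_option autoImplicit false

namespace SofE

open Monoid

variable {G H : Type} [Group G] [Group H]

/-- action of a group on the free group on its elements by left translation -/
def ltr (Q : Type) [Group Q] : Q →* MulAut (FreeGroup Q) where
  toFun q := FreeGroup.freeGroupCongr (Equiv.mulLeft q)
  map_one' := by
    ext x
    simp [FreeGroup.freeGroupCongr]
  map_mul' q r := by
    apply MulEquiv.toMonoidHom_injective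
    ext x
    simp [FreeGroup.freeGroupCongr, mul_assoc]

theorem ltr_of {Q : Type} [Group Q] (q x : Q) : ltr Q q (FreeGroup.of x) = FreeGroup.of (q * x) := by
  simp [ltr, FreeGroup.freeGroupCongr]

/-- `g ↦ (1, (g, 1))`, `h ↦ (θ_1⁻¹ θ_h, (1, h))` -/
noncomputable def Psi : Coprod G H →* FreeGroup (G × H) ⋊[ltr (G × H)] (G × H) :=
  Coprod.lift (SemidirectProduct.inr.comp (MonoidHom.inl G H))
    { toFun := fun h => ⟨(FreeGroup.of (1, 1))⁻¹ * FreeGroup.of (1, h), (1, h)⟩
      map_one' := by
        refine SemidirectProduct.ext ?_ rfl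
        show (FreeGroup.of ((1 : G), (1 : H)))⁻¹ * FreeGroup.of (1, 1) = 1
        rw [inv_mul_cancel]
      map_mul' := fun h h' => by
        refine SemidirectProduct.ext ?_ ?_
        · show (FreeGroup.of ((1 : G), (1 : H)))⁻¹ * FreeGroup.of (1, h * h') =
            ((FreeGroup.of ((1 : G), (1 : H)))⁻¹ * FreeGroup.of (1, h)) *
              ltr (G × H) (1, h) ((FreeGroup.of ((1 : G), (1 : H)))⁻¹ * FreeGroup.of (1, h'))
          rw [map_mul, map_inv, ltr_of, ltr_of]
          simp [mul_assoc]
        · show ((1 : G), h * h') = (1, h) * (1, h')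
          simp }

/-- the family of the two groups -/
def pp_fam (G H : Type) : Bool → Type
  | true => G
  | false => H

instance pp_inst (G H : Type) [Group G] [Group H] : ∀ b, Group (pp_fam G H b)
  | true => ‹Group G›
  | false => ‹Group H›

/-- the two homomorphisms -/
def pp_hom {P : Type} [Group P] (f : G →* P) (g : H →* P) : ∀ b, pp_fam G H b →* P
  | true => f
  | false => g

/-- the homomorphism to the indexed free product -/
def pp_to (G H : Type) [Group G] [Group H] : Coprod G H →* CoprodI (pp_fam G H) :=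
  Coprod.lift (CoprodI.of (M := pp_fam G H) (i := true))
    (CoprodI.of (M := pp_fam G H) (i := false))

theorem pp_lift_comp {P : Type} [Group P] (F : Coprod G H →* P) :
    (CoprodI.lift (pp_hom (F.comp Coprod.inl) (F.comp Coprod.inr))).comp (pp_to G H) = F := by
  apply Coprod.hom_ext
  · ext g
    exact CoprodI.lift_of (M := pp_fam G H) (fi := pp_hom (F.comp Coprod.inl) (F.comp Coprod.inr))
      (i := true) g
  · ext h
    exact CoprodI.lift_of (M := pp_fam G H) (fi := pp_hom (F.comp Coprod.inl) (F.comp Coprod.inr))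
      (i := false) h

theorem pp_to_injective : Function.Injective (pp_to G H) := by
  have h := pp_lift_comp (MonoidHom.id (Coprod G H))
  intro a b hab
  have ha := DFunLike.congr_fun h a
  have hb := DFunLike.congr_fun h b
  rw [MonoidHom.comp_apply, hab] at ha
  rw [MonoidHom.comp_apply] at hb
  rw [MonoidHom.id_apply] at ha hb
  exact ha.symm.trans hb

theorem pp_startsWith {A : Type} [DecidableEq A] (e : A ≃ A) (w : FreeGroup A) (x : A) (b : Bool)
    (h : w ∈ FreeGroup.startsWith (x, b)) :
    FreeGroup.freeGroupCongr e w ∈ FreeGroup.startsWith (e x, b) := by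
  have h1 : FreeGroup.freeGroupCongr e w =
      FreeGroup.mk (w.toWord.map fun p => (e p.1, p.2)) := by
    conv_lhs => rw [← FreeGroup.mk_toWord (x := w)]
    rfl
  have h2 : FreeGroup.IsReduced (w.toWord.map fun p => (e p.1, p.2)) := by
    have := FreeGroup.isReduced_toWord (x := w)
    unfold FreeGroup.IsReduced at this ⊢
    rw [List.isChain_map]
    refine this.imp fun a b hab hab' => hab (e.injective hab')
  change (FreeGroup.toWord (FreeGroup.freeGroupCongr e w))[0]? = some (e x, b)
  rw [h1, FreeGroup.toWord_mk, h2.reduce_eq]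
  have h3 : w.toWord[0]? = some (x, b) := h
  rw [List.getElem?_map, h3]
  rfl

theorem pp_three {A : Type} {a b c : A} (h1 : a ≠ b) (h2 : a ≠ c) (h3 : b ≠ c) :
    3 ≤ Cardinal.mk A := by
  have hinj : Function.Injective ![a, b, c] := by
    intro i j hij
    fin_cases i <;> fin_cases j <;> simp_all
  have := Cardinal.mk_le_of_injective hinj
  simpa using this

theorem pp_H [DecidableEq G] [DecidableEq H] (h : H) (hh : h ≠ 1)
    (p : FreeGroup (G × H) ⋊[ltr (G × H)] (G × H)) (g : G) (hg : g ≠ 1)
    (hp : p.left ∈ FreeGroup.startsWith ((g, (1 : H)), false)) :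
    (Psi (Coprod.inr h) * p).left ∈ FreeGroup.startsWith (((1 : G), (1 : H)), false) := by
  have hfh : Psi (Coprod.inr h : Coprod G H) = ⟨(FreeGroup.of ((1 : G), (1 : H)))⁻¹ *
      FreeGroup.of ((1 : G), h), ((1 : G), h)⟩ := Coprod.lift_apply_inr _ _ _
  rw [hfh, SemidirectProduct.mul_left, mul_assoc]
  have e1 : ltr (G × H) ((1 : G), h) p.left ∈ FreeGroup.startsWith ((g, h), false) := by
    have := pp_startsWith (Equiv.mulLeft ((1 : G), h)) p.left (g, 1) false hp
    have e : (Equiv.mulLeft ((1 : G), h)) (g, 1) = (g, h) := by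
      change ((1 : G), h) * (g, 1) = (g, h)
      rw [Prod.mk_mul_mk, one_mul, mul_one]
    rw [e] at this
    exact this
  have e2 : FreeGroup.of ((1 : G), h) * ltr (G × H) ((1 : G), h) p.left ∈
      FreeGroup.startsWith (((1 : G), h), true) := by
    refine FreeGroup.startsWith_mk_mul (w := (((1 : G), h), true)) _ ?_
    intro hc
    have c1 : (ltr (G × H) ((1 : G), h) p.left).toWord[0]? = some ((g, h), false) := e1
    have c2 : (ltr (G × H) ((1 : G), h) p.left).toWord[0]? = some (((1 : G), h), false) := hc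
    rw [c1] at c2
    simp only [Option.some.injEq, Prod.mk.injEq, and_true] at c2
    exact hg c2
  refine FreeGroup.startsWith_mk_mul (w := (((1 : G), (1 : H)), false)) _ ?_
  intro hc
  have c1 : (FreeGroup.of ((1 : G), h) *
    ltr (G × H) ((1 : G), h) p.left).toWord[0]? = some (((1 : G), h), true) := e2
  have c2 : (FreeGroup.of ((1 : G), h) *
    ltr (G × H) ((1 : G), h) p.left).toWord[0]? = some (((1 : G), (1 : H)), true) := hc
  rw [c1] at c2
  simp only [Option.some.injEq, Prod.mk.injEq, and_true, true_and] at c2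
  exact hh c2

theorem pp_G [DecidableEq G] [DecidableEq H] (g : G)
    (p : FreeGroup (G × H) ⋊[ltr (G × H)] (G × H))
    (hp : p.left ∈ FreeGroup.startsWith (((1 : G), (1 : H)), false)) :
    (Psi (Coprod.inl g) * p).left ∈ FreeGroup.startsWith ((g, (1 : H)), false) := by
  have hfg : Psi (Coprod.inl g : Coprod G H) = ⟨1, (g, (1 : H))⟩ := Coprod.lift_apply_inl _ _ _
  rw [hfg, SemidirectProduct.mul_left, one_mul]
  have := pp_startsWith (Equiv.mulLeft (g, (1 : H))) p.left (1, 1) false hp
  have e : (Equiv.mulLeft (g, (1 : H))) (1, 1) = (g, (1 : H)) := by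
    change (g, (1 : H)) * (1, 1) = (g, 1)
    rw [Prod.mk_mul_mk, mul_one, mul_one]
  rw [e] at this
  exact this

/-- Ping-pong (`Monoid.CoprodI.lift_injective_of_ping_pong` for the family `Bool → Type`, and the isomorphism of `Coprod G H` with the corresponding `CoprodI`) for the
action of the semidirect product on itself by left multiplication: `X_H` = the `(w, q)` such that the reduced word of `w` starts with `θ_1⁻¹`, `X_G` = those
starting with `θ_(g,1)⁻¹`, `g ≠ 1` (`FreeGroup.startsWith`). For `g ≠ 1`: `(1, g) (w, q) = (g·w, ..)` maps `X_H` to `X_G`. For `h ≠ 1` and `w = θ_(g,1)⁻¹ w'`: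
`θ_1⁻¹ θ_(1,h) (h·w) = θ_1⁻¹ θ_(1,h) θ_(g,h)⁻¹ ..` is reduced. The ping-pong lemma needs `3 ≤ |G|` or `3 ≤ |H|`. -/
theorem Psi_injective (hcard : ∃ (g0 g1 : G) (h0 h1 : H), g0 ≠ 1 ∧ g1 ≠ 1 ∧ h0 ≠ 1 ∧ h1 ≠ 1 ∧ (g0, h0) ≠ (g1, h1)) :
    Function.Injective (Psi (G := G) (H := H)) := by
  classical
  obtain ⟨g0, g1, h0, h1, hg0, hg1, hh0, hh1, hne⟩ := hcard
  have hcomp := pp_lift_comp (Psi (G := G) (H := H))
  rw [← hcomp, MonoidHom.coe_comp]
  refine Function.Injective.comp ?_ pp_to_injective
  let f := pp_hom ((Psi (G := G) (H := H)).comp Coprod.inl) (Psi.comp Coprod.inr)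
  let X : Bool → Set (FreeGroup (G × H) ⋊[ltr (G × H)] (G × H)) := fun b =>
    match b with
    | true => {p | ∃ g : G, g ≠ 1 ∧ p.left ∈ FreeGroup.startsWith ((g, (1 : H)), false)}
    | false => {p | p.left ∈ FreeGroup.startsWith (((1 : G), (1 : H)), false)}
  have hstart : ∀ q : G × H, (FreeGroup.of q)⁻¹ ∈ FreeGroup.startsWith (q, false) := by
    intro q
    change (FreeGroup.toWord (FreeGroup.of q)⁻¹)[0]? = some (q, false)
    rw [FreeGroup.toWord_inv, FreeGroup.toWord_of]
    rfl
  refine CoprodI.lift_injective_of_ping_pong f ?_ X ?_ ?_ ?_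
  · right
    by_cases h : g0 = g1
    · refine ⟨false, ?_⟩
      have hh : h0 ≠ h1 := fun hh => hne (by rw [h, hh])
      exact pp_three (A := H) (a := 1) hh0.symm hh1.symm hh
    · refine ⟨true, ?_⟩
      exact pp_three (A := G) (a := 1) hg0.symm hg1.symm h
  · intro b
    cases b with
    | true => exact ⟨⟨(FreeGroup.of (g0, 1))⁻¹, 1⟩, g0, hg0, hstart _⟩
    | false => exact ⟨⟨(FreeGroup.of (1, 1))⁻¹, 1⟩, hstart _⟩
  · have hdis : Disjoint (X true) (X false) := by
      rw [Set.disjoint_left]
      rintro p ⟨g, hg, hp⟩ hp'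
      have h1 : p.left.toWord[0]? = some ((g, (1 : H)), false) := hp
      have h2 : p.left.toWord[0]? = some (((1 : G), (1 : H)), false) := hp'
      rw [h1] at h2
      simp only [Option.some.injEq, Prod.mk.injEq, and_true] at h2
      exact hg h2
    intro a b hab
    cases a <;> cases b
    · exact absurd rfl hab
    · exact hdis.symm
    · exact hdis
    · exact absurd rfl hab
  · intro a b hab
    cases a <;> cases b
    · exact absurd rfl hab
    · -- `H` maps `X true` to `X false`
      intro h hh
      rintro _ ⟨p, ⟨g, hg, hp⟩, rfl⟩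
      exact pp_H (G := G) (H := H) h hh p g hg hp
    · -- `G` maps `X false` to `X true`
      intro g hg
      rintro _ ⟨p, hp, rfl⟩
      exact ⟨g, hg, pp_G (G := G) (H := H) g p hp⟩
    · exact absurd rfl hab

end SofE
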