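import Pool.Agent.helper41.SE.LabSofic
import Pool.Agent.helper41.SE.PingPong

/-! SE-19: labelled approximations for free products. -/

set_option autoImplicit false

open Filter Topology

namespace SofE

open Monoid

section lcsofic

variable {G H : Type} [Group G] [Group H]

/-- product of two approximations -/
def lc_prodPi {a b : ℕ} (πG : G → Equiv.Perm (Fin a)) (πH : H → Equiv.Perm (Fin b)) : G × H → Equiv.Perm (Fin (a * b)) :=
  fun q => finProdFinEquiv.permCongr (Equiv.prodCongr (πG q.1) (πH q.2))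

theorem lc_prodPi_apply {a b : ℕ} (πG : G → Equiv.Perm (Fin a)) (πH : H → Equiv.Perm (Fin b)) (q : G × H) (v : Fin a × Fin b) :
    lc_prodPi πG πH q (finProdFinEquiv v) = finProdFinEquiv (πG q.1 v.1, πH q.2 v.2) := by
  simp only [lc_prodPi, Equiv.permCongr_apply, Equiv.symm_apply_apply]
  rfl

theorem lc_sofic_prod (hG : ∃ (k : ℕ → ℕ) (π : ∀ n, G → Equiv.Perm (Fin (k n))), IsSofic k π)
    (hH : ∃ (k : ℕ → ℕ) (π : ∀ n, H → Equiv.Perm (Fin (k n))), IsSofic k π) :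
    ∃ (k : ℕ → ℕ) (π : ∀ n, G × H → Equiv.Perm (Fin (k n))), IsSofic k π := by
  obtain ⟨kG, πG, hG⟩ := hG
  obtain ⟨kH, πH, hH⟩ := hH
  refine ⟨fun n => kG n * kH n, fun n => lc_prodPi (πG n) (πH n), ⟨fun n => Nat.mul_pos (hG.pos n) (hH.pos n), ?_, ?_⟩⟩
  · rintro ⟨s, s'⟩ ⟨t, t'⟩
    have h1 := (hG.mul s t).add (hH.mul s' t')
    rw [add_zero] at h1
    refine squeeze_zero (fun n => by positivity) (fun n => ?_) h1
    have hkG : (0 : ℝ) < (kG n : ℝ) := by exact_mod_cast hG.pos n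
    have hkH : (0 : ℝ) < (kH n : ℝ) := by exact_mod_cast hH.pos n
    have h2 : cnt (fun i => lc_prodPi (πG n) (πH n) ((s, s') * (t, t')) i ≠ lc_prodPi (πG n) (πH n) (s, s') (lc_prodPi (πG n) (πH n) (t, t') i)) ≤
        cnt (fun i => πG n (s * t) i ≠ πG n s (πG n t i)) * kH n + kG n * cnt (fun i => πH n (s' * t') i ≠ πH n s' (πH n t' i)) := by
      rw [← cnt_equiv finProdFinEquiv]
      have h3 := cnt_fst (β := Fin (kH n)) (fun i : Fin (kG n) => πG n (s * t) i ≠ πG n s (πG n t i))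
      have h4 := cnt_snd (α := Fin (kG n)) (fun i : Fin (kH n) => πH n (s' * t') i ≠ πH n s' (πH n t' i))
      rw [Fintype.card_fin] at h3 h4
      rw [← h3, ← h4]
      refine cnt_le_add fun v hv => ?_
      by_contra hc
      push Not at hc
      apply hv
      rw [lc_prodPi_apply, lc_prodPi_apply, lc_prodPi_apply]
      congr 1
      exact Prod.ext hc.1 hc.2
    have h5 : ((cnt (fun i => lc_prodPi (πG n) (πH n) ((s, s') * (t, t')) i ≠ lc_prodPi (πG n) (πH n) (s, s') (lc_prodPi (πG n) (πH n) (t, t') i)) : ℕ) : ℝ) ≤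
        (cnt (fun i => πG n (s * t) i ≠ πG n s (πG n t i)) : ℝ) * kH n + kG n * (cnt (fun i => πH n (s' * t') i ≠ πH n s' (πH n t' i)) : ℝ) := by
      exact_mod_cast h2
    push_cast
    rw [div_le_iff₀ (by positivity)]
    refine h5.trans (le_of_eq ?_)
    field_simp
  · rintro ⟨s, s'⟩ hs
    have hle : ∀ n, (cnt (fun i => lc_prodPi (πG n) (πH n) (s, s') i ≠ i) : ℝ) / ((kG n * kH n : ℕ) : ℝ) ≤ 1 := by
      intro n
      refine div_le_one_of_le₀ ?_ (by positivity)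
      have := cnt_le_card (fun i => lc_prodPi (πG n) (πH n) (s, s') i ≠ i)
      rw [Fintype.card_fin] at this
      exact_mod_cast this
    by_cases h1 : s = 1
    · have h2 : s' ≠ 1 := fun h => hs (by rw [h1, h]; rfl)
      refine tendsto_of_tendsto_of_tendsto_of_le_of_le (hH.free s' h2) tendsto_const_nhds (fun n => ?_) hle
      have hkG : (0 : ℝ) < (kG n : ℝ) := by exact_mod_cast hG.pos n
      have hkH : (0 : ℝ) < (kH n : ℝ) := by exact_mod_cast hH.pos n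
      have h3 : kG n * cnt (fun i => πH n s' i ≠ i) ≤ cnt (fun i => lc_prodPi (πG n) (πH n) (s, s') i ≠ i) := by
        rw [← cnt_equiv finProdFinEquiv]
        have h4 := cnt_snd (α := Fin (kG n)) (fun i : Fin (kH n) => πH n s' i ≠ i)
        rw [Fintype.card_fin] at h4
        rw [← h4]
        refine cnt_mono fun v hv hc => hv ?_
        rw [lc_prodPi_apply] at hc
        exact congrArg Prod.snd (finProdFinEquiv.injective hc)
      have h5 : (kG n : ℝ) * (cnt (fun i => πH n s' i ≠ i) : ℝ) ≤ (cnt (fun i => lc_prodPi (πG n) (πH n) (s, s') i ≠ i) : ℝ) := by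
        exact_mod_cast h3
      show (cnt (fun i => πH n s' i ≠ i) : ℝ) / (kH n : ℝ) ≤ _
      push_cast
      rw [le_div_iff₀ (by positivity)]
      refine le_trans (le_of_eq ?_) h5
      field_simp
    · refine tendsto_of_tendsto_of_tendsto_of_le_of_le (hG.free s h1) tendsto_const_nhds (fun n => ?_) hle
      have hkG : (0 : ℝ) < (kG n : ℝ) := by exact_mod_cast hG.pos n
      have hkH : (0 : ℝ) < (kH n : ℝ) := by exact_mod_cast hH.pos n
      have h3 : cnt (fun i => πG n s i ≠ i) * kH n ≤ cnt (fun i => lc_prodPi (πG n) (πH n) (s, s') i ≠ i) := by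
        rw [← cnt_equiv finProdFinEquiv]
        have h4 := cnt_fst (β := Fin (kH n)) (fun i : Fin (kG n) => πG n s i ≠ i)
        rw [Fintype.card_fin] at h4
        rw [← h4]
        refine cnt_mono fun v hv hc => hv ?_
        rw [lc_prodPi_apply] at hc
        exact congrArg Prod.fst (finProdFinEquiv.injective hc)
      have h5 : (cnt (fun i => πG n s i ≠ i) : ℝ) * (kH n : ℝ) ≤ (cnt (fun i => lc_prodPi (πG n) (πH n) (s, s') i ≠ i) : ℝ) := by
        exact_mod_cast h3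
      show (cnt (fun i => πG n s i ≠ i) : ℝ) / (kG n : ℝ) ≤ _
      push_cast
      rw [le_div_iff₀ (by positivity)]
      refine le_trans (le_of_eq ?_) h5
      field_simp

end lcsofic

section lclab

variable {G H : Type} [Group G] [Group H]

/-- the cocycle with values in the free group -/
noncomputable def lc_ell (s : Coprod G H) : FreeGroup (G × H) :=
  FreeGroup.map (fun x : G × H => x⁻¹) ((Psi (G := G) (H := H) s⁻¹).left)⁻¹

theorem lc_right (s : Coprod G H) : (Psi (G := G) (H := H) s).right = Coprod.toProd s := by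
  have h : (SemidirectProduct.rightHom.comp (Psi (G := G) (H := H))) = Coprod.toProd := by
    apply Coprod.hom_ext
    · ext g
      all_goals simp [Psi]
    · ext h
      all_goals simp [Psi]
  exact DFunLike.congr_fun h s

theorem lc_ltr_eq (q : G × H) (w : FreeGroup (G × H)) : ltr (G × H) q w = FreeGroup.map (fun x => q * x) w := by
  have h : (ltr (G × H) q).toMonoidHom = FreeGroup.map (fun x => q * x) := by
    ext x
    simp [ltr_of]
  exact DFunLike.congr_fun h w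

theorem lc_ell_mul (s t : Coprod G H) :
    lc_ell (s * t) = FreeGroup.map (fun x => x * Coprod.toProd t) (lc_ell s) * lc_ell t := by
  unfold lc_ell
  rw [mul_inv_rev, map_mul, SemidirectProduct.mul_left, lc_right, lc_ltr_eq, mul_inv_rev, map_mul, ← map_inv, FreeGroup.map.comp,
    FreeGroup.map.comp]
  congr 2
  ext x
  simp

theorem lc_ell_inl (g : G) : lc_ell (Coprod.inl g : Coprod G H) = 1 := by
  unfold lc_ell
  have h : (Psi (G := G) (H := H) (Coprod.inl g)⁻¹).left = 1 := by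
    rw [← map_inv]
    simp [Psi]
  rw [h]
  simp

theorem lc_ell_inr (h : H) : lc_ell (Coprod.inr h : Coprod G H) = (FreeGroup.of (1, h))⁻¹ * FreeGroup.of (1, 1) := by
  unfold lc_ell
  have h1 : (Psi (G := G) (H := H) (Coprod.inr h)⁻¹).left = (FreeGroup.of (1, 1))⁻¹ * FreeGroup.of (1, h⁻¹) := by
    rw [← map_inv]
    simp [Psi, ltr_of]
  rw [h1, mul_inv_rev, inv_inv, map_mul, map_inv, FreeGroup.map.of, FreeGroup.map.of]
  simp

theorem lc_ell_comm (g : G) (h : H) : lc_ell (Coprod.inl g * (Coprod.inr h * (Coprod.inl g⁻¹ * Coprod.inr h⁻¹)) : Coprod G H) =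
    (FreeGroup.of (g⁻¹, 1))⁻¹ * FreeGroup.of (g⁻¹, h⁻¹) * ((FreeGroup.of (1, h⁻¹))⁻¹ * FreeGroup.of (1, 1)) := by
  rw [lc_ell_mul, lc_ell_inl, map_one, one_mul, lc_ell_mul, lc_ell_inr, lc_ell_mul, lc_ell_inl, map_one, one_mul, lc_ell_inr]
  simp

theorem lc_comm_mem (g : G) (h : H) : (Coprod.inl g * (Coprod.inr h * (Coprod.inl g⁻¹ * Coprod.inr h⁻¹)) : Coprod G H) ∈
    (Coprod.toProd : Coprod G H →* G × H).ker := by
  rw [MonoidHom.mem_ker]
  simp [Prod.ext_iff]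

theorem lc_ell_inj (hcard : ∃ (g0 g1 : G) (h0 h1 : H), g0 ≠ 1 ∧ g1 ≠ 1 ∧ h0 ≠ 1 ∧ h1 ≠ 1 ∧ (g0, h0) ≠ (g1, h1)) (s : Coprod G H)
    (h1 : Coprod.toProd s = 1) (h2 : lc_ell s = 1) : s = 1 := by
  have h3 : (Psi (G := G) (H := H) s⁻¹).left = 1 := by
    unfold lc_ell at h2
    have h4 : FreeGroup.map (fun x : G × H => x⁻¹) (FreeGroup.map (fun x : G × H => x⁻¹) ((Psi (G := G) (H := H) s⁻¹).left)⁻¹) = 1 := by
      rw [h2, map_one]
    rw [FreeGroup.map.comp] at h4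
    have h5 : ((fun x : G × H => x⁻¹) ∘ fun x : G × H => x⁻¹) = id := by
      funext x
      simp
    rw [h5, FreeGroup.map.id] at h4
    exact inv_eq_one.1 h4
  have h4 : Psi (G := G) (H := H) s⁻¹ = 1 := by
    refine SemidirectProduct.ext h3 ?_
    rw [lc_right, map_inv, h1]
    simp
  have h5 := Psi_injective hcard (h4.trans (map_one Psi).symm)
  exact inv_eq_one.1 h5

end lclab

/-- `φ = Coprod.toProd`, `ℓ s = FreeGroup.map (·)⁻¹ ((Psi s⁻¹).left)⁻¹`: then `ℓ (s t) = map (· * φ t) (ℓ s) * ℓ t`, `ℓ (inl g) = 1`, `ℓ (inr h) = θ_(1,h)⁻¹ θ_1`.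
`a = [g0, h0] = g0 h0 g0⁻¹ h0⁻¹`: `ℓ a = θ_(g0⁻¹,1)⁻¹ θ_(g0⁻¹,h0⁻¹) θ_(1,h0⁻¹)⁻¹ θ_1`, same for `b = [g1, h1]`; `x0 = (g0⁻¹, h0⁻¹)`, `p a = 1`;
`heq`: `equi_of_letters` with `c = f (g0⁻¹, h0⁻¹)`, `c' = f (g1⁻¹, h1⁻¹)`, `K0` = the seven or eight letters. The product of two sofic groups is sofic
(product of the approximations). -/
theorem hasLab_coprod {G H : Type} [Group G] [Group H]
    (hG : ∃ (k : ℕ → ℕ) (π : ∀ n, G → Equiv.Perm (Fin (k n))), IsSofic k π) (hH : ∃ (k : ℕ → ℕ) (π : ∀ n, H → Equiv.Perm (Fin (k n))), IsSofic k π)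
    {g0 g1 : G} {h0 h1 : H} (hg0 : g0 ≠ 1) (hg1 : g1 ≠ 1) (hh0 : h0 ≠ 1) (hh1 : h1 ≠ 1) (hne : (g0, h0) ≠ (g1, h1)) :
    ∃ (N : Subgroup (Coprod G H)) (p : Coprod G H → ZMod 2) (a b : Coprod G H), (∀ m ∈ N, ∀ n ∈ N, p (m * n) = p m + p n) ∧ a ∈ N ∧ b ∈ N ∧ p a = 1 ∧
      HasLab N p a b := by
  classical
  have hg0' : g0⁻¹ ≠ 1 := inv_ne_one.2 hg0
  have hg1' : g1⁻¹ ≠ 1 := inv_ne_one.2 hg1
  have hh0' : h0⁻¹ ≠ 1 := inv_ne_one.2 hh0
  have hh1' : h1⁻¹ ≠ 1 := inv_ne_one.2 hh1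
  have hne' : ¬ (g1⁻¹ = g0⁻¹ ∧ h1⁻¹ = h0⁻¹) := by
    rintro ⟨e1, e2⟩
    exact hne (Prod.ext (inv_injective e1).symm (inv_injective e2).symm)
  have key := hasLab_sofic (Coprod.toProd : Coprod G H →* G × H) lc_ell lc_ell_mul
    (lc_ell_inj ⟨g0, g1, h0, h1, hg0, hg1, hh0, hh1, hne⟩) (lc_sofic_prod hG hH) (g0⁻¹, h0⁻¹)
    (Coprod.inl g0 * (Coprod.inr h0 * (Coprod.inl g0⁻¹ * Coprod.inr h0⁻¹))) (Coprod.inl g1 * (Coprod.inr h1 * (Coprod.inl g1⁻¹ * Coprod.inr h1⁻¹)))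
    {(g0⁻¹, 1), (g0⁻¹, h0⁻¹), (1, h0⁻¹), (1, 1), (g1⁻¹, 1), (g1⁻¹, h1⁻¹), (1, h1⁻¹)} ?_
  · refine ⟨_, _, _, _, ?_, lc_comm_mem g0 h0, lc_comm_mem g1 h1, ?_, key⟩
    · intro m hm n hn
      rw [MonoidHom.mem_ker] at hn
      rw [lc_ell_mul, hn]
      simp
    · rw [lc_ell_comm]
      simp [expo, hg0, hh0]
  · intro A _ _ f hf
    rw [lc_ell_comm, lc_ell_comm]
    have hno : ∀ x y : G × H, x ∈ (({(g0⁻¹, 1), (g0⁻¹, h0⁻¹), (1, h0⁻¹), (1, 1), (g1⁻¹, 1), (g1⁻¹, h1⁻¹), (1, h1⁻¹)} : Finset (G × H)) : Set (G × H)) →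
        y ∈ (({(g0⁻¹, 1), (g0⁻¹, h0⁻¹), (1, h0⁻¹), (1, 1), (g1⁻¹, 1), (g1⁻¹, h1⁻¹), (1, h1⁻¹)} : Finset (G × H)) : Set (G × H)) → x ≠ y →
        NoLet (f y) (FreeGroup.of (f x)) :=
      fun x y hx hy hxy => NoLet.of fun h => hxy (hf hx hy h)
    refine equi_of_letters (u := (FreeGroup.of (f (g0⁻¹, 1)))⁻¹) (v := (FreeGroup.of (f (1, h0⁻¹)))⁻¹ * FreeGroup.of (f (1, 1)))
      (u' := (FreeGroup.of (f (g1⁻¹, 1)))⁻¹) (v' := (FreeGroup.of (f (1, h1⁻¹)))⁻¹ * FreeGroup.of (f (1, 1)))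
      (c := f (g0⁻¹, h0⁻¹)) (c' := f (g1⁻¹, h1⁻¹)) (by simp) ?_ ?_ (by simp) ?_ ?_ ?_
    · exact (hno _ _ (by simp) (by simp) (by simp [hh0])).inv
    · exact (hno _ _ (by simp) (by simp) (by simp [hg0])).inv.mul (hno _ _ (by simp) (by simp) (by simp [hg0]))
    · exact (hno _ _ (by simp) (by simp) (by simp [hh1])).inv
    · exact (hno _ _ (by simp) (by simp) (by simp [hg1])).inv.mul (hno _ _ (by simp) (by simp) (by simp [hg1]))
    · simp only [map_mul, map_inv, FreeGroup.map.of]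
      refine NoLet.mul (NoLet.mul ?_ ?_) (NoLet.mul ?_ ?_)
      · exact (hno _ _ (by simp) (by simp) (by simp [hh1])).inv
      · exact hno _ _ (by simp) (by simp) (fun e => hne' ⟨(congrArg Prod.fst e).symm, (congrArg Prod.snd e).symm⟩)
      · exact (hno _ _ (by simp) (by simp) (by simp [hg1])).inv
      · exact hno _ _ (by simp) (by simp) (by simp [hg1])

end SofE
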