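import Pool.Agent.helper41.SE.Cnt

/-! SE-08: lower bounds for the entropy. -/

set_option autoImplicit false

open Filter Topology

namespace SofE

variable {Γ : Type} [Group Γ]

/-- interface -/
theorem le_ent_of {X : Type} [MetricSpace X] [MulAction Γ X] {k : ℕ → ℕ} {π : ∀ n, Γ → Equiv.Perm (Fin (k n))} (hk : ∀ n, 0 < k n) (h ε : ℝ) (hε : 0 < ε)
    (H : ∀ (F : Finset Γ) (δ : ℝ), 0 < δ → ∀ᶠ n in atTop, ∃ S : Finset (Fin (k n) → X),
      (∀ φ ∈ S, ∀ s ∈ F, Real.sqrt ((∑ i, dist (φ (π n s i)) (s • φ i) ^ 2) / (k n : ℝ)) < δ) ∧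
      (∀ φ ∈ S, ∀ ψ ∈ S, φ ≠ ψ → ∃ i, ε ≤ dist (φ i) (ψ i)) ∧ Real.exp (h * k n) ≤ (S.card : ℝ)) :
    ((h : ℝ) : EReal) ≤ ent X k π := by
  unfold ent
  refine le_iSup₂_of_le ε hε ?_
  refine le_iInf fun F => le_iInf fun δ => le_iInf fun hδ => ?_
  refine Filter.le_limsup_of_frequently_le ?_
  refine Eventually.frequently ?_
  filter_upwards [H F δ hδ] with n hn
  obtain ⟨S, hS1, hS2, hS3⟩ := hn
  have hkn : (0 : ℝ) < k n := by exact_mod_cast hk n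
  have h1 : (S.card : ENNReal) ≤ (⨆ (S : Finset (Fin (k n) → X))
          (_ : ∀ φ ∈ S, ∀ s ∈ F,
            Real.sqrt ((∑ i, dist (φ (π n s i)) (s • φ i) ^ 2) / (k n : ℝ)) < δ)
          (_ : ∀ φ ∈ S, ∀ ψ ∈ S, φ ≠ ψ → ∃ i, ε ≤ dist (φ i) (ψ i)),
          (S.card : ENNReal)) :=
    le_iSup_of_le S (le_iSup_of_le hS1 (le_iSup_of_le hS2 le_rfl))
  have h2 : ENNReal.ofReal (Real.exp (h * k n)) ≤ (S.card : ENNReal) := by
    rw [← ENNReal.ofReal_natCast]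
    exact ENNReal.ofReal_le_ofReal hS3
  have h3 : ((h * k n : ℝ) : EReal) ≤ ENNReal.log (⨆ (S : Finset (Fin (k n) → X))
          (_ : ∀ φ ∈ S, ∀ s ∈ F,
            Real.sqrt ((∑ i, dist (φ (π n s i)) (s • φ i) ^ 2) / (k n : ℝ)) < δ)
          (_ : ∀ φ ∈ S, ∀ ψ ∈ S, φ ≠ ψ → ∃ i, ε ≤ dist (φ i) (ψ i)),
          (S.card : ENNReal)) := by
    refine le_trans ?_ (ENNReal.log_monotone (h2.trans h1))
    rw [ENNReal.log_ofReal_of_pos (Real.exp_pos _), Real.log_exp]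
  have h4 : ((h : ℝ) : EReal) = (((k n : ℝ)⁻¹ : ℝ) : EReal) * ((h * k n : ℝ) : EReal) := by
    rw [← EReal.coe_mul]
    congr 1
    field_simp
  rw [h4]
  exact mul_le_mul_of_nonneg_left h3 (by exact_mod_cast (inv_pos.2 hkn).le)

/-- asymptotically no point satisfies `P` -/
def LowTZ (k : ℕ → ℕ) (P : ∀ n, Fin (k n) → Prop) : Prop :=
  Tendsto (fun n => (cnt (P n) : ℝ) / (k n : ℝ)) atTop (𝓝 0)

theorem LowTZ.mono {k : ℕ → ℕ} {P Q : ∀ n, Fin (k n) → Prop} (hQ : LowTZ k Q) (h : ∀ n v, P n v → Q n v) : LowTZ k P := by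
  refine squeeze_zero (fun n => by positivity) (fun n => ?_) hQ
  refine div_le_div_of_nonneg_right ?_ (Nat.cast_nonneg _)
  exact_mod_cast cnt_mono (h n)

theorem LowTZ.or {k : ℕ → ℕ} {P Q : ∀ n, Fin (k n) → Prop} (hP : LowTZ k P) (hQ : LowTZ k Q) :
    LowTZ k (fun n v => P n v ∨ Q n v) := by
  have h := Tendsto.add hP hQ
  rw [add_zero] at h
  refine squeeze_zero (fun n => by positivity) (fun n => ?_) h
  rw [← add_div]
  refine div_le_div_of_nonneg_right ?_ (Nat.cast_nonneg _)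
  exact_mod_cast cnt_or_le (P n) (Q n)

theorem LowTZ.bex {k : ℕ → ℕ} {ι : Type*} (W : Finset ι) {P : ι → ∀ n, Fin (k n) → Prop} (hP : ∀ g ∈ W, LowTZ k (P g)) :
    LowTZ k (fun n v => ∃ g ∈ W, P g n v) := by
  have h := tendsto_finsetSum W (fun g hg => hP g hg)
  simp only [Finset.sum_const_zero] at h
  refine squeeze_zero (fun n => by positivity) (fun n => ?_) h
  rw [← Finset.sum_div]
  refine div_le_div_of_nonneg_right ?_ (Nat.cast_nonneg _)
  exact_mod_cast cnt_exists_le W (fun g v => P g n v)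

theorem LowTZ.comp {k : ℕ → ℕ} {P : ∀ n, Fin (k n) → Prop} (hP : LowTZ k P) (e : ∀ n, Equiv.Perm (Fin (k n))) :
    LowTZ k (fun n v => P n (e n v)) := by
  unfold LowTZ at hP ⊢
  refine hP.congr fun n => ?_
  rw [cnt_equiv (e n) (P n)]

/-- `S` = image of `Φ n` (all `y : Fin (k n) → Q`; injective, `ε` = separation constant of the coordinate `1`). Near equivariance: for `s ∈ F` and the window
`W` of `δ/2` (`hM.near`), for all `v` outside a set of `o(k n)` points (independent of `y`) `Φ n y (π n s v)` and `s • Φ n y v` agree on `W`, so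
`∑ dist^2 ≤ (δ/2)^2 k + o(k) < δ^2 k` (`hM.le1`). -/
theorem lower_gen {N : Subgroup Γ} {p : Γ → ZMod 2} [MetricSpace (XX N p)] (hM : MOK N p)
    {k : ℕ → ℕ} {π : ∀ n, Γ → Equiv.Perm (Fin (k n))} (hk : ∀ n, 0 < k n) (Q : Type) [Fintype Q] [Nonempty Q]
    (Φ : ∀ n, (Fin (k n) → Q) → Fin (k n) → XX N p)
    (sep : ∀ n (y y' : Fin (k n) → Q), y ≠ y' → ∃ v, (Φ n y v).val 1 ≠ (Φ n y' v).val 1)
    (eq : ∀ s g : Γ, Tendsto (fun n => (cnt (fun v => ∃ y, (Φ n y (π n s v)).val g ≠ (s • Φ n y v).val g) : ℝ) / (k n : ℝ)) atTop (𝓝 0)) :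
    ((Real.log (Fintype.card Q) : ℝ) : EReal) ≤ ent (XX N p) k π := by
  classical
  obtain ⟨ε, hε, hsep⟩ := hM.sep 1
  refine le_ent_of hk _ ε hε fun F δ hδ => ?_
  obtain ⟨W, hW⟩ := hM.near (δ / 2) (by positivity)
  have hbad : LowTZ k (fun n v => ∃ s ∈ F, ∃ g ∈ W, ∃ y, (Φ n y (π n s v)).val g ≠ (s • Φ n y v).val g) :=
    LowTZ.bex F fun s _ => LowTZ.bex W fun g _ => eq s g
  have hev := (tendsto_order.1 hbad).2 (δ ^ 2 / 4) (by positivity)
  filter_upwards [hev] with n hn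
  have hkn : (0 : ℝ) < k n := by exact_mod_cast hk n
  rw [div_lt_iff₀ hkn] at hn
  have hinj : Function.Injective (Φ n) := by
    intro y y' hyy
    by_contra hne
    obtain ⟨v, hv⟩ := sep n y y' hne
    exact hv (by rw [hyy])
  refine ⟨Finset.univ.image (Φ n), ?_, ?_, ?_⟩
  · intro φ hφ s hs
    obtain ⟨y, -, rfl⟩ := Finset.mem_image.1 hφ
    set B : Fin (k n) → Prop := fun v => ∃ s ∈ F, ∃ g ∈ W, ∃ y, (Φ n y (π n s v)).val g ≠ (s • Φ n y v).val g with hB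
    have hpt : ∀ v, dist (Φ n y (π n s v)) (s • Φ n y v) ^ 2 ≤ δ ^ 2 / 4 + (if B v then 1 else 0) := by
      intro v
      by_cases hv : B v
      · rw [if_pos hv]
        have h1 := hM.le1 (Φ n y (π n s v)) (s • Φ n y v)
        have h0 : 0 ≤ dist (Φ n y (π n s v)) (s • Φ n y v) := dist_nonneg
        have : dist (Φ n y (π n s v)) (s • Φ n y v) ^ 2 ≤ 1 := pow_le_one₀ h0 h1
        have : 0 ≤ δ ^ 2 / 4 := by positivity
        linarith
      · rw [if_neg hv, add_zero]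
        have h1 : dist (Φ n y (π n s v)) (s • Φ n y v) < δ / 2 := by
          refine hW _ _ fun g hg => ?_
          by_contra hne
          exact hv ⟨s, hs, g, hg, y, hne⟩
        have h0 : 0 ≤ dist (Φ n y (π n s v)) (s • Φ n y v) := dist_nonneg
        have h2 := pow_le_pow_left₀ h0 h1.le 2
        calc dist (Φ n y (π n s v)) (s • Φ n y v) ^ 2 ≤ (δ / 2) ^ 2 := h2
          _ = δ ^ 2 / 4 := by ring
    have hsum : ∑ v, dist (Φ n y (π n s v)) (s • Φ n y v) ^ 2 ≤ (δ ^ 2 / 4) * k n + cnt B := by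
      refine (Finset.sum_le_sum fun v _ => hpt v).trans (le_of_eq ?_)
      rw [Finset.sum_add_distrib, Finset.sum_const, Finset.card_univ, Fintype.card_fin, nsmul_eq_mul,
        cnt_sum B]
      push_cast
      ring
    rw [Real.sqrt_lt' hδ, div_lt_iff₀ hkn]
    have h5 : 0 < δ ^ 2 * k n := by positivity
    have h6 : (cnt B : ℝ) < δ ^ 2 / 4 * k n := hn
    nlinarith
  · intro φ hφ ψ hψ hne
    obtain ⟨y, -, rfl⟩ := Finset.mem_image.1 hφ
    obtain ⟨y', -, rfl⟩ := Finset.mem_image.1 hψ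
    obtain ⟨v, hv⟩ := sep n y y' (fun h => hne (by rw [h]))
    exact ⟨v, hsep _ _ hv⟩
  · rw [Finset.card_image_of_injective _ hinj, Finset.card_univ, Fintype.card_fun, Fintype.card_fin]
    have hQ : (0 : ℝ) < Fintype.card Q := by exact_mod_cast Fintype.card_pos
    rw [mul_comm, Real.exp_nat_mul, Real.exp_log hQ]
    push_cast
    exact le_rfl

/-- `Φ n y v` = the configuration `g ↦ inl (y (π n g⁻¹ v))`, all of type `none`. -/
theorem lower2 {N : Subgroup Γ} {p : Γ → ZMod 2} [MetricSpace (XX N p)] (hM : MOK N p)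
    {k : ℕ → ℕ} {π : ∀ n, Γ → Equiv.Perm (Fin (k n))} (hS : IsSofic k π) : ((Real.log 2 : ℝ) : EReal) ≤ ent (XX N p) k π := by
  have key := lower_gen (π := π) hM hS.pos Bool
    (fun n y v => ⟨fun g => Sum.inl (y (π n g⁻¹ v)), fun g m _ => by simp [tt, sh]⟩) ?_ ?_
  · simpa using key
  · intro n y y' hne
    obtain ⟨i, hi⟩ := Function.ne_iff.1 hne
    refine ⟨(π n (1 : Γ)⁻¹).symm i, fun h => hi ?_⟩
    have h' := Sum.inl_injective h
    simpa using h'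
  · intro s g
    refine LowTZ.mono (Q := fun n v => π n (g⁻¹ * s) v ≠ π n g⁻¹ (π n s v)) (hS.mul g⁻¹ s) ?_
    rintro n v ⟨y, hy⟩ heq
    apply hy
    rw [XX_smul]
    have h1 : (s⁻¹ * g)⁻¹ = g⁻¹ * s := by group
    show (Sum.inl (y (π n g⁻¹ (π n s v))) : Al) = Sum.inl (y (π n (s⁻¹ * g)⁻¹ v))
    rw [h1, heq]

/-- Let `r g` be a representative of the coset `g N` (`(r g)⁻¹ * g ∈ N`, `r (g n) = r g`; e.g. `Quotient.out`). `Φ n y v` = the configuration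
`g ↦ inr (c0 n (π n (r g)⁻¹ v) + p ((r g)⁻¹ g), y (π n g⁻¹ v))`; the constraint holds exactly by additivity of `p`. For fixed `g`, for all `v` outside
`o(k n)` points `π n g⁻¹ v = π n ((r g)⁻¹ g)⁻¹ (π n (r g)⁻¹ v)`, so `c0 n (π n g⁻¹ v) = c0 n (π n (r g)⁻¹ v) + p (((r g)⁻¹ g)⁻¹)`, which is the first component
(`p m⁻¹ = - p m = p m`). So the value at `g` is `inr (c0 n (π n g⁻¹ v), y (π n g⁻¹ v))` for most `v`, and near equivariance follows from
`π n g⁻¹ (π n s v) = π n (g⁻¹ s) v` for most `v`. -/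
theorem lower3 {N : Subgroup Γ} {p : Γ → ZMod 2} (hp : ∀ m ∈ N, ∀ n ∈ N, p (m * n) = p m + p n) [MetricSpace (XX N p)] (hM : MOK N p)
    {k : ℕ → ℕ} {π : ∀ n, Γ → Equiv.Perm (Fin (k n))} (hS : IsSofic k π) (c0 : ∀ n, Fin (k n) → ZMod 2)
    (hc : ∀ s ∈ N, Tendsto (fun n => (cnt (fun v => c0 n (π n s v) ≠ c0 n v + p s) : ℝ) / (k n : ℝ)) atTop (𝓝 0)) :
    ((Real.log 3 : ℝ) : EReal) ≤ ent (XX N p) k π := by
  classical
  let r : Γ → Γ := fun g => (QuotientGroup.mk g : Γ ⧸ N).out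
  have hr1 : ∀ g, (r g)⁻¹ * g ∈ N := by
    intro g
    rw [← QuotientGroup.eq]
    exact QuotientGroup.out_eq' _
  have hr2 : ∀ g, ∀ m ∈ N, r (g * m) = r g := by
    intro g m hm
    show (QuotientGroup.mk (g * m) : Γ ⧸ N).out = (QuotientGroup.mk g : Γ ⧸ N).out
    rw [QuotientGroup.mk_mul_of_mem g hm]
  have hp1 : p 1 = 0 := by
    have := hp 1 N.one_mem 1 N.one_mem
    rw [mul_one] at this
    simpa using this
  have hpinv : ∀ m ∈ N, p m⁻¹ = p m := by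
    intro m hm
    have h := hp m hm m⁻¹ (N.inv_mem hm)
    rw [mul_inv_cancel, hp1] at h
    have h2 : p m⁻¹ = - p m := (neg_eq_of_add_eq_zero_right h.symm).symm
    rw [h2]
    exact ZMod.neg_eq_self_mod_two _
  -- the first component is most of the time the value of c0
  have hb1 : ∀ g, LowTZ k (fun n v => c0 n (π n (r g)⁻¹ v) + p ((r g)⁻¹ * g) ≠ c0 n (π n g⁻¹ v)) := by
    intro g
    have h1 : LowTZ k (fun n v => π n (((r g)⁻¹ * g)⁻¹ * (r g)⁻¹) v ≠ π n ((r g)⁻¹ * g)⁻¹ (π n (r g)⁻¹ v)) :=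
      hS.mul _ _
    have h2 : LowTZ k (fun n v => c0 n (π n ((r g)⁻¹ * g)⁻¹ v) ≠ c0 n v + p ((r g)⁻¹ * g)⁻¹) :=
      hc _ (N.inv_mem (hr1 g))
    refine (h1.or (h2.comp (fun n => π n (r g)⁻¹))).mono fun n v hv => ?_
    by_contra hcon
    push Not at hcon
    apply hv
    have e1 : ((r g)⁻¹ * g)⁻¹ * (r g)⁻¹ = g⁻¹ := by group
    rw [e1] at hcon
    rw [hcon.1, hcon.2, hpinv _ (hr1 g)]
  have key := lower_gen (π := π) hM hS.pos (Fin 3)
    (fun n y v => ⟨fun g => Sum.inr (c0 n (π n (r g)⁻¹ v) + p ((r g)⁻¹ * g), y (π n g⁻¹ v)), fun g m hm => by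
      show some (c0 n (π n (r (g * m))⁻¹ v) + p ((r (g * m))⁻¹ * (g * m))) =
        some (c0 n (π n (r g)⁻¹ v) + p ((r g)⁻¹ * g) + p m)
      rw [hr2 g m hm, ← mul_assoc, hp _ (hr1 g) m hm, add_assoc]⟩) ?_ ?_
  · simpa using key
  · intro n y y' hne
    obtain ⟨i, hi⟩ := Function.ne_iff.1 hne
    refine ⟨(π n (1 : Γ)⁻¹).symm i, fun h => hi ?_⟩
    have h' := congrArg Prod.snd (Sum.inr_injective h)
    simpa using h'
  · intro s g
    have hm : LowTZ k (fun n v => π n (g⁻¹ * s) v ≠ π n g⁻¹ (π n s v)) := hS.mul g⁻¹ s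
    refine LowTZ.mono ((hm.or ((hb1 g).comp (fun n => π n s))).or (hb1 (s⁻¹ * g))) ?_
    rintro n v ⟨y, hy⟩
    by_contra hcon
    push Not at hcon
    obtain ⟨⟨h1, h2⟩, h3⟩ := hcon
    apply hy
    rw [XX_smul]
    have e1 : (s⁻¹ * g)⁻¹ = g⁻¹ * s := by group
    show (Sum.inr (c0 n (π n (r g)⁻¹ (π n s v)) + p ((r g)⁻¹ * g), y (π n g⁻¹ (π n s v))) : Al) =
      Sum.inr (c0 n (π n (r (s⁻¹ * g))⁻¹ v) + p ((r (s⁻¹ * g))⁻¹ * (s⁻¹ * g)), y (π n (s⁻¹ * g)⁻¹ v))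
    rw [h2, h3, e1, h1]

end SofE
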