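import Pool.Agent.helper41.SE.Cnt

/-! SE-09: from finite approximations to sequences, and conversely. -/

set_option autoImplicit false

open Filter Topology

namespace SofE

/-- finite approximations from a sofic approximation (`cnt (π s v = v) = k - cnt (π s v ≠ v)`) -/
theorem IsSofic.appr {Δ : Type} [Group Δ] {k : ℕ → ℕ} {π : ∀ n, Δ → Equiv.Perm (Fin (k n))} (h : IsSofic k π) (F : Finset Δ) {ε : ℝ} (hε : 0 < ε) :
    ∃ n, Appr F ε (π n) := by
  have h1 : ∀ᶠ n in atTop, ∀ s ∈ F, ∀ t ∈ F,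
      (cnt (fun i => π n (s * t) i ≠ π n s (π n t i)) : ℝ) / (k n : ℝ) < ε := by
    rw [eventually_all_finset]
    intro s _
    rw [eventually_all_finset]
    intro t _
    exact (h.mul s t).eventually_lt_const hε
  have h2 : ∀ᶠ n in atTop, ∀ s ∈ F, s ≠ 1 →
      1 - ε < (cnt (fun i => π n s i ≠ i) : ℝ) / (k n : ℝ) := by
    rw [eventually_all_finset]
    intro s _
    by_cases hs : s = 1
    · exact Eventually.of_forall fun n h' => absurd hs h'
    · filter_upwards [(h.free s hs).eventually_const_lt (show 1 - ε < 1 by linarith)] with n hn _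
      exact hn
  obtain ⟨n, hn1, hn2⟩ := (h1.and h2).exists
  have hk : (0 : ℝ) < k n := Nat.cast_pos.2 (h.pos n)
  refine ⟨n, ⟨Fin.pos_iff_nonempty.1 (h.pos n), ?_, ?_⟩⟩
  · intro s hs t ht
    have := hn1 s hs t ht
    rw [div_lt_iff₀ hk] at this
    rw [Fintype.card_fin]
    exact this.le
  · intro s hs hs1
    have h3 := hn2 s hs hs1
    rw [lt_div_iff₀ hk] at h3
    have h4 := cnt_add_not (fun i => π n s i = i)
    rw [Fintype.card_fin] at h4
    have h5 : (cnt (fun i => π n s i = i) : ℝ) + (cnt (fun i => ¬ π n s i = i) : ℝ) = k n := by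
      exact_mod_cast h4
    rw [Fintype.card_fin]
    have h6 : (cnt (fun i => π n s i ≠ i) : ℝ) = (cnt (fun i => ¬ π n s i = i) : ℝ) := rfl
    rw [h6] at h3
    linarith

/-- transport of an approximation along an equivalence -/
theorem Appr.transport {Γ : Type} [Group Γ] {F : Finset Γ} {ε : ℝ} {V W : Type} [Fintype V] [Fintype W] {π : Γ → Equiv.Perm V} (h : Appr F ε π)
    (e : V ≃ W) : Appr F ε (fun g => e.permCongr (π g)) := by
  have hc : Fintype.card W = Fintype.card V := (Fintype.card_congr e).symm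
  refine ⟨h.ne.map e, ?_, ?_⟩
  · intro s hs t ht
    have h1 := h.mul s hs t ht
    have h2 : cnt (fun w => e.permCongr (π (s * t)) w ≠ e.permCongr (π s) (e.permCongr (π t) w)) =
        cnt (fun v => π (s * t) v ≠ π s (π t v)) := by
      rw [← cnt_equiv e]
      refine cnt_congr fun v => ?_
      simp [Equiv.permCongr_apply]
    rw [h2, hc]
    exact h1
  · intro s hs hs1
    have h1 := h.free s hs hs1
    have h2 : cnt (fun w => e.permCongr (π s) w = w) = cnt (fun v => π s v = v) := by
      rw [← cnt_equiv e]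
      refine cnt_congr fun v => ?_
      simp [Equiv.permCongr_apply]
    rw [h2, hc]
    exact h1

/-- Enumerate `Γ` (countable), `F n` = the first `n` elements (e.g. from an injection `Γ → ℕ`: `F n = {g | e g < n}` as a finite set), `ε = 1/(n+1)`,
`j = n`, choose. `Appr (F n) (1/(n+1))` gives `IsSofic`: for fixed `s, t` eventually `s, t ∈ F n`. -/
theorem seq_of_fin {Γ : Type} [Group Γ] [Countable Γ] (Q : Finset Γ → ℝ → ℕ → ∀ k : ℕ, (Γ → Equiv.Perm (Fin k)) → Prop)
    (h : ∀ (F : Finset Γ) (ε : ℝ) (j : ℕ), 0 < ε → ∃ (k : ℕ) (π : Γ → Equiv.Perm (Fin k)), Appr F ε π ∧ Q F ε j k π) :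
    ∃ (k : ℕ → ℕ) (π : ∀ n, Γ → Equiv.Perm (Fin (k n))) (F : ℕ → Finset Γ), (∀ s, ∀ᶠ n in atTop, s ∈ F n) ∧ IsSofic k π ∧
      ∀ n, Q (F n) (1 / ((n : ℝ) + 1)) n (k n) (π n) := by
  obtain ⟨f, hf⟩ := exists_injective_nat Γ
  have hfin : ∀ n : ℕ, {g : Γ | f g < n}.Finite := fun n =>
    (Set.finite_lt_nat n).preimage hf.injOn
  set F : ℕ → Finset Γ := fun n => (hfin n).toFinset with hF
  have hmem : ∀ s, ∀ᶠ n in atTop, s ∈ F n := by
    intro s
    filter_upwards [eventually_gt_atTop (f s)] with n hn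
    rw [hF]
    simpa using hn
  have hpos : ∀ n : ℕ, (0 : ℝ) < 1 / ((n : ℝ) + 1) := fun n => by positivity
  choose k π hA hQ using fun n : ℕ => h (F n) (1 / ((n : ℝ) + 1)) n (hpos n)
  have hk : ∀ n, 0 < k n := fun n => Fin.pos_iff_nonempty.2 (hA n).ne
  have hk' : ∀ n, (0 : ℝ) < k n := fun n => Nat.cast_pos.2 (hk n)
  refine ⟨k, π, F, hmem, ⟨hk, ?_, ?_⟩, hQ⟩
  · intro s t
    refine squeeze_zero' (Eventually.of_forall fun n => by positivity) ?_
      tendsto_one_div_add_atTop_nhds_zero_nat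
    filter_upwards [hmem s, hmem t] with n hs ht
    have := (hA n).mul s hs t ht
    rw [Fintype.card_fin] at this
    rw [div_le_iff₀ (hk' n)]
    exact this
  · intro s hs1
    have hlim : Tendsto (fun n : ℕ => 1 - 1 / ((n : ℝ) + 1)) atTop (𝓝 1) := by
      have := (tendsto_const_nhds (x := (1 : ℝ))).sub tendsto_one_div_add_atTop_nhds_zero_nat
      simpa using this
    refine tendsto_of_tendsto_of_tendsto_of_le_of_le' hlim tendsto_const_nhds ?_ ?_
    · filter_upwards [hmem s] with n hs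
      have h3 := (hA n).free s hs hs1
      rw [Fintype.card_fin] at h3
      have h4 := cnt_add_not (fun i => π n s i = i)
      rw [Fintype.card_fin] at h4
      have h5 : (cnt (fun i => π n s i = i) : ℝ) + (cnt (fun i => ¬ π n s i = i) : ℝ) = k n := by
        exact_mod_cast h4
      rw [le_div_iff₀ (hk' n)]
      have h6 : (cnt (fun i => π n s i ≠ i) : ℝ) = (cnt (fun i => ¬ π n s i = i) : ℝ) := rfl
      rw [h6]
      linarith
    · refine Eventually.of_forall fun n => ?_
      rw [div_le_iff₀ (hk' n), one_mul]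
      have := cnt_le_card (fun i => π n s i ≠ i)
      rw [Fintype.card_fin] at this
      exact_mod_cast this

end SofE
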