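import Pool.Agent.helper41.SE.Cnt

/-! SE-01: exponential bounds for configurations with small support. -/

set_option autoImplicit false

namespace SofE

theorem ham_sum_eq {V Y : Type} [Fintype V] [DecidableEq V] [Fintype Y] [DecidableEq Y] (y0 : Y) (x : ℝ) :
    ∑ f : V → Y, x ^ (cnt (fun v => f v ≠ y0)) = (∑ y : Y, if y = y0 then (1 : ℝ) else x) ^ Fintype.card V := by
  have h1 : ∀ f : V → Y, x ^ (cnt (fun v => f v ≠ y0)) = ∏ v, (if f v = y0 then (1 : ℝ) else x) := by
    intro f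
    rw [cnt_eq, Finset.prod_ite, Finset.prod_const_one, one_mul, Finset.prod_const]
  calc ∑ f : V → Y, x ^ (cnt (fun v => f v ≠ y0))
      = ∑ f : V → Y, ∏ v, (if f v = y0 then (1 : ℝ) else x) := Finset.sum_congr rfl fun f _ => h1 f
    _ = ∏ _v : V, ∑ y : Y, (if y = y0 then (1 : ℝ) else x) := by
        rw [Finset.prod_univ_sum, Fintype.piFinset_univ]
    _ = _ := by rw [Finset.prod_const, Finset.card_univ]

theorem ham_sum_le {Y : Type} [Fintype Y] [DecidableEq Y] (y0 : Y) {x : ℝ} (hx : 0 ≤ x) :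
    ∑ y : Y, (if y = y0 then (1 : ℝ) else x) ≤ 1 + Fintype.card Y * x := by
  have h : ∀ y : Y, (if y = y0 then (1 : ℝ) else x) ≤ (if y = y0 then (1 : ℝ) else 0) + x := by
    intro y
    split_ifs <;> linarith
  refine (Finset.sum_le_sum fun y _ => h y).trans ?_
  rw [Finset.sum_add_distrib, Finset.sum_const, Finset.card_univ, nsmul_eq_mul]
  simp

/-- For `0 < x ≤ 1`: `x^(θ|V|) * cnt ≤ ∑_f x^(cnt (f v ≠ y0)) = (1 + (|Y|-1) x)^|V| ≤ exp (q x |V|)` (`Finset.prod_univ_sum`, the support size is the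
number of factors `x` in `∏_v (if f v = y0 then 1 else x)`). So `cnt ≤ exp (|V| (q x + θ log (1/x)))`; take `x` with `q x ≤ η/2`, `x < 1`, then
`θ = min 1 (η / (2 log (1/x)))`. -/
theorem ham (q : ℕ) {η : ℝ} (hη : 0 < η) : ∃ θ : ℝ, 0 < θ ∧ θ ≤ 1 ∧ ∀ (V Y : Type) [Fintype V] [DecidableEq V] [Fintype Y] (y0 : Y),
    Fintype.card Y ≤ q →
    (cnt (fun f : V → Y => (cnt (fun v => f v ≠ y0) : ℝ) ≤ θ * Fintype.card V) : ℝ) ≤ Real.exp (η * Fintype.card V) := by
  classical
  obtain ⟨x, hx0, hx1, hxq⟩ : ∃ x : ℝ, 0 < x ∧ x < 1 ∧ (q : ℝ) * x ≤ η / 2 := by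
    have hq : (0 : ℝ) < 2 * ((q : ℝ) + 1) := by positivity
    refine ⟨min (1 / 2) (η / (2 * ((q : ℝ) + 1))), lt_min (by norm_num) (div_pos hη hq), ?_, ?_⟩
    · exact lt_of_le_of_lt (min_le_left _ _) (by norm_num)
    · have h1 : (q : ℝ) * min (1 / 2) (η / (2 * ((q : ℝ) + 1))) ≤ q * (η / (2 * ((q : ℝ) + 1))) :=
        mul_le_mul_of_nonneg_left (min_le_right _ _) (by positivity)
      refine h1.trans ?_
      rw [← mul_div_assoc, div_le_div_iff₀ hq (by norm_num)]
      nlinarith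
  have hl : 0 < -Real.log x := by
    have := Real.log_neg hx0 hx1
    linarith
  refine ⟨min 1 (η / (2 * (-Real.log x))), lt_min one_pos (by positivity), min_le_left _ _, ?_⟩
  intro V Y _ _ _ y0 hY
  set θ : ℝ := min 1 (η / (2 * (-Real.log x))) with hθ
  have hθl : θ * (-Real.log x) ≤ η / 2 := by
    have h1 : θ * (-Real.log x) ≤ (η / (2 * (-Real.log x))) * (-Real.log x) :=
      mul_le_mul_of_nonneg_right (min_le_right _ _) hl.le
    refine h1.trans (le_of_eq ?_)
    have hlx : Real.log x ≠ 0 := by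
      intro h
      rw [h] at hl
      simp at hl
    field_simp
  set n : ℝ := (Fintype.card V : ℝ) with hn
  have hn0 : 0 ≤ n := Nat.cast_nonneg _
  have key := cnt_markov (fun f : V → Y => x ^ (cnt (fun v => f v ≠ y0))) (fun f => by positivity)
    (Real.exp (-(θ * (-Real.log x)) * n))
  have hmono : cnt (fun f : V → Y => (cnt (fun v => f v ≠ y0) : ℝ) ≤ θ * n) ≤
      cnt (fun f : V → Y => Real.exp (-(θ * (-Real.log x)) * n) ≤ x ^ (cnt (fun v => f v ≠ y0))) := by
    refine cnt_mono fun f hf => ?_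
    have e : x ^ (cnt (fun v => f v ≠ y0)) = Real.exp ((cnt (fun v => f v ≠ y0) : ℝ) * Real.log x) := by
      rw [Real.exp_nat_mul, Real.exp_log hx0]
    rw [e]
    apply Real.exp_le_exp.2
    nlinarith
  have hsum : ∑ f : V → Y, x ^ (cnt (fun v => f v ≠ y0)) ≤ Real.exp (η / 2 * n) := by
    rw [ham_sum_eq]
    have h1 : (∑ y : Y, if y = y0 then (1 : ℝ) else x) ≤ Real.exp (η / 2) := by
      refine (ham_sum_le y0 hx0.le).trans ?_
      have h2 : (Fintype.card Y : ℝ) * x ≤ η / 2 := by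
        have : (Fintype.card Y : ℝ) ≤ q := by exact_mod_cast hY
        nlinarith
      have h3 := Real.add_one_le_exp (η / 2)
      linarith
    have h0 : (0 : ℝ) ≤ ∑ y : Y, if y = y0 then (1 : ℝ) else x := by
      refine Finset.sum_nonneg fun y _ => ?_
      split_ifs
      · exact zero_le_one
      · exact hx0.le
    calc (∑ y : Y, if y = y0 then (1 : ℝ) else x) ^ Fintype.card V
        ≤ (Real.exp (η / 2)) ^ Fintype.card V := pow_le_pow_left₀ h0 h1 _
      _ = Real.exp (η / 2 * n) := by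
          rw [← Real.exp_nat_mul, mul_comm]
  have hpos : 0 < Real.exp (-(θ * (-Real.log x)) * n) := Real.exp_pos _
  have h3 : (cnt (fun f : V → Y => (cnt (fun v => f v ≠ y0) : ℝ) ≤ θ * n) : ℝ) * Real.exp (-(θ * (-Real.log x)) * n) ≤
      Real.exp (η / 2 * n) := by
    refine le_trans (mul_le_mul_of_nonneg_right ?_ hpos.le) (key.trans hsum)
    exact_mod_cast hmono
  have h4 : (cnt (fun f : V → Y => (cnt (fun v => f v ≠ y0) : ℝ) ≤ θ * n) : ℝ) ≤
      Real.exp (η / 2 * n) / Real.exp (-(θ * (-Real.log x)) * n) := (le_div_iff₀ hpos).2 h3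
  refine h4.trans ?_
  rw [← Real.exp_sub]
  apply Real.exp_le_exp.2
  nlinarith

/-- `ham` with `Y = Bool`, `y0 = false` (indicator functions). -/
theorem ham_set {η : ℝ} (hη : 0 < η) : ∃ θ : ℝ, 0 < θ ∧ θ ≤ 1 ∧ ∀ (V : Type) [Fintype V],
    (cnt (fun S : Finset V => (S.card : ℝ) ≤ θ * Fintype.card V) : ℝ) ≤ Real.exp (η * Fintype.card V) := by
  obtain ⟨θ, h0, h1, h⟩ := ham 2 hη
  refine ⟨θ, h0, h1, fun V _ => ?_⟩
  classical
  refine le_trans ?_ (h V Bool false (by simp))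
  norm_cast
  refine cnt_le_of_inj (fun S : Finset V => fun v => decide (v ∈ S)) (fun S T _ _ hST => ?_) (fun S hS => ?_)
  · ext v
    have := congrFun hST v
    simpa using this
  · refine le_trans (le_of_eq ?_) hS
    norm_cast
    rw [cnt_eq]
    congr 1
    ext v
    simp

end SofE
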