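import Pool.Agent.helper41.SE.Defs

/-! Basic facts on `cnt`. -/

set_option autoImplicit false

open Finset

namespace SofE

section
variable {α β : Type*} [Fintype α] [Fintype β]

theorem cnt_eq (P : α → Prop) [DecidablePred P] : cnt P = (univ.filter P).card := by
  unfold cnt
  convert rfl

theorem cnt_le_card (P : α → Prop) : cnt P ≤ Fintype.card α := by
  classical
  rw [cnt_eq]
  exact card_le_univ _

theorem cnt_mono {P Q : α → Prop} (h : ∀ a, P a → Q a) : cnt P ≤ cnt Q := by
  classical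
  rw [cnt_eq, cnt_eq]
  exact card_le_card fun a ha => by
    rw [mem_filter] at ha ⊢
    exact ⟨mem_univ _, h a ha.2⟩

theorem cnt_congr {P Q : α → Prop} (h : ∀ a, P a ↔ Q a) : cnt P = cnt Q :=
  le_antisymm (cnt_mono fun a => (h a).1) (cnt_mono fun a => (h a).2)

theorem cnt_or_le (P Q : α → Prop) : cnt (fun a => P a ∨ Q a) ≤ cnt P + cnt Q := by
  classical
  rw [cnt_eq, cnt_eq, cnt_eq, filter_or]
  exact card_union_le _ _

theorem cnt_le_add {P Q R : α → Prop} (h : ∀ a, P a → Q a ∨ R a) : cnt P ≤ cnt Q + cnt R :=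
  (cnt_mono h).trans (cnt_or_le Q R)

theorem cnt_add_not (P : α → Prop) : cnt P + cnt (fun a => ¬ P a) = Fintype.card α := by
  classical
  rw [cnt_eq, cnt_eq]
  exact card_filter_add_card_filter_not P

theorem cnt_true : cnt (fun _ : α => True) = Fintype.card α := by
  classical
  rw [cnt_eq]
  simp

theorem cnt_false : cnt (fun _ : α => False) = 0 := by
  classical
  rw [cnt_eq]
  simp

theorem cnt_eq_zero {P : α → Prop} : cnt P = 0 ↔ ∀ a, ¬ P a := by
  classical
  rw [cnt_eq, card_eq_zero, filter_eq_empty_iff]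
  simp

theorem cnt_pos {P : α → Prop} : 0 < cnt P ↔ ∃ a, P a := by
  rw [Nat.pos_iff_ne_zero, Ne, cnt_eq_zero]
  push Not
  rfl

theorem cnt_le_of_inj {P : α → Prop} {Q : β → Prop} (f : α → β) (hf : ∀ a b, P a → P b → f a = f b → a = b)
    (h : ∀ a, P a → Q (f a)) : cnt P ≤ cnt Q := by
  classical
  rw [cnt_eq, cnt_eq]
  refine card_le_card_of_injOn f (fun a ha => ?_) (fun a ha b hb hab => ?_)
  · rw [mem_coe, mem_filter] at ha ⊢
    exact ⟨mem_univ _, h a ha.2⟩
  · rw [mem_coe, mem_filter] at ha hb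
    exact hf a b ha.2 hb.2 hab

theorem cnt_equiv (e : α ≃ β) (P : β → Prop) : cnt (fun a => P (e a)) = cnt P := by
  refine le_antisymm (cnt_le_of_inj e (fun a b _ _ h => e.injective h) fun a h => h) ?_
  exact cnt_le_of_inj e.symm (fun a b _ _ h => e.symm.injective h) fun b h => by rwa [e.apply_symm_apply]

theorem cnt_prod (P : α → Prop) (Q : β → Prop) : cnt (fun q : α × β => P q.1 ∧ Q q.2) = cnt P * cnt Q := by
  classical
  rw [cnt_eq, cnt_eq, cnt_eq, ← card_product]
  congr 1
  ext q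
  simp [mem_product]

theorem cnt_fst (P : α → Prop) : cnt (fun q : α × β => P q.1) = cnt P * Fintype.card β := by
  rw [← cnt_true (α := β), ← cnt_prod]
  exact cnt_congr fun q => by simp

theorem cnt_snd (Q : β → Prop) : cnt (fun q : α × β => Q q.2) = Fintype.card α * cnt Q := by
  rw [← cnt_true (α := α), ← cnt_prod]
  exact cnt_congr fun q => by simp

theorem cnt_sum (P : α → Prop) [DecidablePred P] : cnt P = ∑ a, if P a then 1 else 0 := by
  rw [cnt_eq, card_filter]

theorem cnt_prod_left (P : α × β → Prop) : cnt P = ∑ a, cnt (fun b => P (a, b)) := by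
  classical
  rw [cnt_sum, Fintype.sum_prod_type]
  exact sum_congr rfl fun a _ => (cnt_sum _).symm

theorem cnt_prod_right (P : α × β → Prop) : cnt P = ∑ b, cnt (fun a => P (a, b)) := by
  classical
  rw [cnt_sum, Fintype.sum_prod_type_right]
  exact sum_congr rfl fun a _ => (cnt_sum _).symm

theorem cnt_comm (P : α → β → Prop) : ∑ a, cnt (P a) = ∑ b, cnt (fun a => P a b) := by
  rw [← cnt_prod_left (fun q : α × β => P q.1 q.2), ← cnt_prod_right (fun q : α × β => P q.1 q.2)]

theorem cnt_exists_le {ι : Type*} (s : Finset ι) (P : ι → α → Prop) :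
    cnt (fun a => ∃ i ∈ s, P i a) ≤ ∑ i ∈ s, cnt (P i) := by
  classical
  rw [cnt_eq]
  have h : univ.filter (fun a => ∃ i ∈ s, P i a) = s.biUnion (fun i => univ.filter (P i)) := by
    ext a
    simp
  rw [h]
  refine card_biUnion_le.trans (le_of_eq ?_)
  exact sum_congr rfl fun i _ => (cnt_eq _).symm

theorem cnt_exists_le' (P : β → α → Prop) : cnt (fun a => ∃ i, P i a) ≤ ∑ i, cnt (P i) := by
  refine le_trans (cnt_mono fun a h => ?_) (cnt_exists_le univ P)
  obtain ⟨i, hi⟩ := h
  exact ⟨i, mem_univ _, hi⟩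

/-- Markov -/
theorem cnt_markov (f : α → ℝ) (hf : ∀ a, 0 ≤ f a) (t : ℝ) :
    (cnt (fun a => t ≤ f a) : ℝ) * t ≤ ∑ a, f a := by
  classical
  rw [cnt_eq, ← nsmul_eq_mul, ← sum_const]
  refine (sum_le_sum fun a ha => (mem_filter.1 ha).2).trans ?_
  exact sum_le_sum_of_subset_of_nonneg (filter_subset _ _) fun a _ _ => hf a

end

end SofE
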