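import Pool.Agent.helper41.SE.Ham

/-! SE-05: counting configurations which are good on most components. -/

set_option autoImplicit false

namespace SofE

theorem comp_card_Al : Fintype.card Al = 8 := by
  simp [Al, ZMod.card]

/-- the number of configurations which are good outside `S` -/
theorem comp_fixed {I Y : Type} [Fintype I] [Fintype Y] [DecidableEq I] [DecidableEq Y]
    (G : I → (Y → Al) → Prop) {B : ℝ} (hB : 0 ≤ B) (hG : ∀ f, (cnt (G f) : ℝ) ≤ Real.exp B) (S : Finset I) :
    (cnt (fun c : Y × I → Al => ∀ f, f ∉ S → G f (fun y => c (y, f))) : ℝ) ≤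
      Real.exp (S.card * (Real.log 8 * Fintype.card Y) + Fintype.card I * B) := by
  classical
  let e : (Y × I → Al) ≃ (I → Y → Al) :=
    { toFun := fun c f y => c (y, f)
      invFun := fun g q => g q.2 q.1
      left_inv := fun c => rfl
      right_inv := fun g => rfl }
  have h1 : cnt (fun c : Y × I → Al => ∀ f, f ∉ S → G f (fun y => c (y, f))) =
      cnt (fun g : I → Y → Al => ∀ f, f ∉ S → G f (g f)) :=
    cnt_equiv e (fun g : I → Y → Al => ∀ f, f ∉ S → G f (g f))
  have h2 : cnt (fun g : I → Y → Al => ∀ f, f ∉ S → G f (g f)) =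
      ∏ f : I, (if f ∈ S then Fintype.card (Y → Al) else cnt (G f)) := by
    rw [cnt_eq]
    have h3 : (Finset.univ.filter (fun g : I → Y → Al => ∀ f, f ∉ S → G f (g f))) =
        Fintype.piFinset (fun f : I => if f ∈ S then (Finset.univ : Finset (Y → Al)) else Finset.univ.filter (G f)) := by
      ext g
      rw [Finset.mem_filter, Fintype.mem_piFinset]
      constructor
      · rintro ⟨-, h⟩ f
        by_cases hf : f ∈ S
        · rw [if_pos hf]
          exact Finset.mem_univ _
        · rw [if_neg hf, Finset.mem_filter]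
          exact ⟨Finset.mem_univ _, h f hf⟩
      · intro h
        refine ⟨Finset.mem_univ _, fun f hf => ?_⟩
        have := h f
        rw [if_neg hf, Finset.mem_filter] at this
        exact this.2
    rw [h3, Fintype.card_piFinset]
    refine Finset.prod_congr rfl (fun f _ => ?_)
    by_cases hf : f ∈ S
    · rw [if_pos hf, if_pos hf, Finset.card_univ]
    · rw [if_neg hf, if_neg hf, cnt_eq]
  rw [h1, h2, Nat.cast_prod]
  calc ∏ f : I, (((if f ∈ S then Fintype.card (Y → Al) else cnt (G f) : ℕ)) : ℝ)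
      ≤ ∏ f : I, Real.exp ((if f ∈ S then Real.log 8 * Fintype.card Y else 0) + B) := by
        refine Finset.prod_le_prod (fun f _ => Nat.cast_nonneg _) (fun f _ => ?_)
        by_cases hf : f ∈ S
        · rw [if_pos hf, if_pos hf, Fintype.card_fun, comp_card_Al, Real.exp_add, mul_comm (Real.log 8) _,
            Real.exp_nat_mul, Real.exp_log (by norm_num : (0:ℝ) < 8)]
          push_cast
          have : (1:ℝ) ≤ Real.exp B := Real.one_le_exp hB
          have h8 : (0:ℝ) ≤ 8 ^ Fintype.card Y := by positivity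
          nlinarith
        · rw [if_neg hf, if_neg hf, zero_add]
          exact hG f
    _ = Real.exp (S.card * (Real.log 8 * Fintype.card Y) + Fintype.card I * B) := by
        rw [← Real.exp_sum, Finset.sum_add_distrib, Finset.sum_ite_mem, Finset.univ_inter, Finset.sum_const,
          Finset.sum_const, nsmul_eq_mul, nsmul_eq_mul, Finset.card_univ]

/-- For a configuration `c` let `S` be the set of the `f` with `¬ G f (c (·, f))`; `|S| ≤ θ |I|`. For fixed `S` the number of `c` with `G f` for all `f ∉ S`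
is `∏_{f ∉ S} cnt (G f) * ∏_{f ∈ S} 8^|Y| ≤ exp ((log 2 + η) |Y| |I|) * 8^(θ |Y| |I|)` (curry: `Y × I → Al ≃ I → (Y → Al)`, `Fintype.piFinset`);
the number of `S` is `≤ exp (η |I|)` (`ham_set`), and `|I| ≤ |Y| |I|`. Take `θ` from `ham_set` with also `θ log 8 ≤ η`. -/
theorem compCount {η : ℝ} (hη : 0 < η) : ∃ θ : ℝ, 0 < θ ∧ ∀ (I Y : Type) [Fintype I] [Fintype Y] [DecidableEq I] [DecidableEq Y] [Nonempty Y]
    (C : (Y × I → Al) → Prop) (G : I → (Y → Al) → Prop),
    (∀ c, C c → (cnt (fun f => ¬ G f (fun y => c (y, f))) : ℝ) ≤ θ * Fintype.card I) →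
    (∀ f, (cnt (G f) : ℝ) ≤ Real.exp ((Real.log 2 + η) * Fintype.card Y)) →
    (cnt C : ℝ) ≤ Real.exp ((Real.log 2 + 3 * η) * (Fintype.card Y * Fintype.card I)) := by
  obtain ⟨θ0, h0, -, hθ0⟩ := ham_set hη
  have hlog8 : 0 < Real.log 8 := Real.log_pos (by norm_num)
  have hlog2 : 0 < Real.log 2 := Real.log_pos (by norm_num)
  refine ⟨min θ0 (η / Real.log 8), lt_min h0 (div_pos hη hlog8), ?_⟩
  intro I Y _ _ _ _ _ C G hC hG
  classical
  have hY : (1:ℝ) ≤ (Fintype.card Y : ℝ) := by
    have : 0 < Fintype.card Y := Fintype.card_pos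
    exact_mod_cast this
  have hI : (0:ℝ) ≤ (Fintype.card I : ℝ) := Nat.cast_nonneg _
  have hB : 0 ≤ (Real.log 2 + η) * Fintype.card Y := by positivity
  obtain ⟨𝒮, h𝒮⟩ : ∃ 𝒮 : Finset (Finset I), 𝒮 = Finset.univ.filter
      (fun S : Finset I => (S.card : ℝ) ≤ min θ0 (η / Real.log 8) * Fintype.card I) := ⟨_, rfl⟩
  have hcard : (𝒮.card : ℝ) ≤ Real.exp (η * Fintype.card I) := by
    refine le_trans ?_ (hθ0 I)
    rw [h𝒮, ← cnt_eq]
    have hm : cnt (fun S : Finset I => (S.card : ℝ) ≤ min θ0 (η / Real.log 8) * Fintype.card I) ≤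
        cnt (fun S : Finset I => (S.card : ℝ) ≤ θ0 * Fintype.card I) :=
      cnt_mono (fun S hS => le_trans hS (mul_le_mul_of_nonneg_right (min_le_left _ _) hI))
    exact_mod_cast hm
  have h1 : cnt C ≤ ∑ S ∈ 𝒮, cnt (fun c : Y × I → Al => ∀ f, f ∉ S → G f (fun y => c (y, f))) := by
    refine le_trans (cnt_mono fun c hc => ?_) (cnt_exists_le 𝒮
      (fun S (c : Y × I → Al) => ∀ f, f ∉ S → G f (fun y => c (y, f))))
    refine ⟨Finset.univ.filter (fun f => ¬ G f (fun y => c (y, f))), ?_, fun f hf => ?_⟩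
    · rw [h𝒮, Finset.mem_filter]
      refine ⟨Finset.mem_univ _, ?_⟩
      rw [← cnt_eq]
      exact hC c hc
    · by_contra h
      exact hf (Finset.mem_filter.2 ⟨Finset.mem_univ _, h⟩)
  have h2 : ∀ S ∈ 𝒮, (cnt (fun c : Y × I → Al => ∀ f, f ∉ S → G f (fun y => c (y, f))) : ℝ) ≤
      Real.exp ((Real.log 2 + 2 * η) * (Fintype.card Y * Fintype.card I)) := by
    intro S hS
    refine (comp_fixed G hB hG S).trans (Real.exp_le_exp.2 ?_)
    rw [h𝒮, Finset.mem_filter] at hS
    have h3 : (S.card : ℝ) ≤ η / Real.log 8 * Fintype.card I :=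
      hS.2.trans (mul_le_mul_of_nonneg_right (min_le_right _ _) hI)
    have h4 : (S.card : ℝ) * Real.log 8 ≤ η * Fintype.card I := by
      calc (S.card : ℝ) * Real.log 8 ≤ (η / Real.log 8 * Fintype.card I) * Real.log 8 :=
            mul_le_mul_of_nonneg_right h3 hlog8.le
        _ = η * Fintype.card I := by field_simp
    have h5 : (S.card : ℝ) * Real.log 8 * Fintype.card Y ≤ η * Fintype.card I * Fintype.card Y :=
      mul_le_mul_of_nonneg_right h4 (by linarith)
    nlinarith
  have h3 : (cnt C : ℝ) ≤ 𝒮.card * Real.exp ((Real.log 2 + 2 * η) * (Fintype.card Y * Fintype.card I)) := by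
    calc (cnt C : ℝ) ≤ ((∑ S ∈ 𝒮, cnt (fun c : Y × I → Al => ∀ f, f ∉ S → G f (fun y => c (y, f))) : ℕ) : ℝ) := by
          exact_mod_cast h1
      _ = ∑ S ∈ 𝒮, (cnt (fun c : Y × I → Al => ∀ f, f ∉ S → G f (fun y => c (y, f))) : ℝ) := by
          rw [Nat.cast_sum]
      _ ≤ ∑ _S ∈ 𝒮, Real.exp ((Real.log 2 + 2 * η) * (Fintype.card Y * Fintype.card I)) := Finset.sum_le_sum h2
      _ = _ := by rw [Finset.sum_const, nsmul_eq_mul]
  refine h3.trans ?_
  calc (𝒮.card : ℝ) * Real.exp ((Real.log 2 + 2 * η) * (Fintype.card Y * Fintype.card I))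
      ≤ Real.exp (η * (Fintype.card Y * Fintype.card I)) *
        Real.exp ((Real.log 2 + 2 * η) * (Fintype.card Y * Fintype.card I)) := by
        refine mul_le_mul_of_nonneg_right (hcard.trans (Real.exp_le_exp.2 ?_)) (Real.exp_pos _).le
        have : (Fintype.card I : ℝ) ≤ Fintype.card Y * Fintype.card I := by nlinarith
        exact mul_le_mul_of_nonneg_left this hη.le
    _ = Real.exp ((Real.log 2 + 3 * η) * (Fintype.card Y * Fintype.card I)) := by
        rw [← Real.exp_add]
        congr 1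
        ring

end SofE
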