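import Mathlib

/-!
# MP_290026_an (dependence of sofic entropy on the sofic approximation): definitions (helper41)
Plan: /team-store/se_plan.md
-/

set_option autoImplicit false

open Filter Topology

noncomputable section

namespace SofE

/-- number of elements satisfying `P` (classical decidability) -/
def cnt {α : Type*} [Fintype α] (P : α → Prop) : ℕ := by
  classical exact (Finset.univ.filter P).card

/-! ### sofic approximations -/

section
variable {Γ : Type*} [Group Γ]

/-- sofic approximation -/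
structure IsSofic (k : ℕ → ℕ) (π : ∀ n, Γ → Equiv.Perm (Fin (k n))) : Prop where
  pos : ∀ n, 0 < k n
  mul : ∀ s t : Γ, Tendsto (fun n => (cnt (fun i => π n (s * t) i ≠ π n s (π n t i)) : ℝ) / (k n : ℝ)) atTop (𝓝 0)
  free : ∀ s : Γ, s ≠ 1 → Tendsto (fun n => (cnt (fun i => π n s i ≠ i) : ℝ) / (k n : ℝ)) atTop (𝓝 1)

/-- finite approximation -/
structure Appr (F : Finset Γ) (ε : ℝ) {V : Type} [Fintype V] (π : Γ → Equiv.Perm V) : Prop where
  ne : Nonempty V
  mul : ∀ s ∈ F, ∀ t ∈ F, (cnt (fun v => π (s * t) v ≠ π s (π t v)) : ℝ) ≤ ε * Fintype.card V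
  free : ∀ s ∈ F, s ≠ 1 → (cnt (fun v => π s v = v) : ℝ) ≤ ε * Fintype.card V

/-- topological sofic entropy of the action of `Γ` on the compact metric space `X` (same formula as in the frozen statement) -/
def ent (X : Type*) [MetricSpace X] [MulAction Γ X] (k : ℕ → ℕ) (π : ∀ n, Γ → Equiv.Perm (Fin (k n))) : EReal :=
  ⨆ (ε : ℝ) (_ : 0 < ε), ⨅ (F : Finset Γ) (δ : ℝ) (_ : 0 < δ),
    Filter.limsup (fun n =>
      (((k n : ℝ)⁻¹ : ℝ) : EReal) *
        ENNReal.log (⨆ (S : Finset (Fin (k n) → X))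
          (_ : ∀ φ ∈ S, ∀ s ∈ F,
            Real.sqrt ((∑ i, dist (φ (π n s i)) (s • φ i) ^ 2) / (k n : ℝ)) < δ)
          (_ : ∀ φ ∈ S, ∀ ψ ∈ S, φ ≠ ψ → ∃ i, ε ≤ dist (φ i) (ψ i)),
          (S.card : ENNReal)))
      Filter.atTop

end

/-! ### the alphabet -/

/-- two symbols of type `none`, six symbols of type `some z` -/
abbrev Al : Type := Bool ⊕ (ZMod 2 × Fin 3)

/-- type of a symbol -/
def tt : Al → Option (ZMod 2)
  | .inl _ => none
  | .inr a => some a.1

/-- shift of types -/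
def sh (z : ZMod 2) (o : Option (ZMod 2)) : Option (ZMod 2) := o.map (fun w => w + z)

/-! ### the space -/

section
variable {Γ : Type*} [Group Γ]

/-- the subshift: on the coset `g N` the type is constantly `none` or changes according to `p` -/
@[ext]
structure XX (N : Subgroup Γ) (p : Γ → ZMod 2) where
  val : Γ → Al
  prop : ∀ g, ∀ n ∈ N, tt (val (g * n)) = sh (p n) (tt (val g))

instance (N : Subgroup Γ) (p : Γ → ZMod 2) : MulAction Γ (XX N p) where
  smul s x := ⟨fun g => x.val (s⁻¹ * g), fun g n hn => by rw [← mul_assoc]; exact x.prop (s⁻¹ * g) n hn⟩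
  one_smul x := XX.ext (funext fun g => by show x.val (1⁻¹ * g) = x.val g; rw [inv_one, one_mul])
  mul_smul s t x := XX.ext (funext fun g => by
    show x.val ((s * t)⁻¹ * g) = x.val (t⁻¹ * (s⁻¹ * g))
    rw [mul_inv_rev, mul_assoc])

theorem XX_smul (N : Subgroup Γ) (p : Γ → ZMod 2) (s : Γ) (x : XX N p) (g : Γ) : (s • x).val g = x.val (s⁻¹ * g) := rfl

/-- the facts on the metric which are used -/
structure MOK (N : Subgroup Γ) (p : Γ → ZMod 2) [MetricSpace (XX N p)] : Prop where
  comp : CompactSpace (XX N p)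
  cont : ∀ s : Γ, Continuous (fun x : XX N p => s • x)
  near : ∀ ε : ℝ, 0 < ε → ∃ W : Finset Γ, ∀ x y : XX N p, (∀ g ∈ W, x.val g = y.val g) → dist x y < ε
  sep : ∀ g : Γ, ∃ ε : ℝ, 0 < ε ∧ ∀ x y : XX N p, x.val g ≠ y.val g → ε ≤ dist x y
  le1 : ∀ x y : XX N p, dist x y ≤ 1

end

/-! ### near constraint configurations -/

/-- `c` satisfies the constraint for the permutation `A` and the shift `z` except at `δ |V|` points -/
def near (δ : ℝ) {V : Type} [Fintype V] (A : Equiv.Perm V) (z : ZMod 2) (c : V → Al) : Prop :=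
  (cnt (fun v => tt (c (A v)) ≠ sh z (tt (c v))) : ℝ) ≤ δ * Fintype.card V

/-- few configurations satisfy both constraints nearly -/
def GoodPair (η δ : ℝ) {V : Type} [Fintype V] [DecidableEq V] (q : ZMod 2) (A B : Equiv.Perm V) : Prop :=
  (cnt (fun c : V → Al => near δ A 1 c ∧ near δ B q c) : ℝ) ≤ Real.exp ((Real.log 2 + η) * Fintype.card V)

/-- most pairs of permutations are good, with the function `dl` -/
def DL (dl : ℝ → ℝ) : Prop := ∀ η : ℝ, 0 < η → 0 < dl η ∧ ∀ κ : ℝ, 0 < κ → ∃ M0 : ℕ, ∀ M : ℕ, M0 ≤ M → ∀ q : ZMod 2,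
  (cnt (fun P : Equiv.Perm (Fin M) × Equiv.Perm (Fin M) => ¬ GoodPair η (dl η) q P.1 P.2) : ℝ) ≤ κ * (M.factorial : ℝ) ^ 2

/-! ### labels -/

/-- the pair `(x, y)` is equidistributed under a uniform random homomorphism to `Perm (Fin M)` -/
def Equi {A : Type} [Fintype A] [DecidableEq A] (x y : FreeGroup A) : Prop :=
  ∀ (M : ℕ) (P : Equiv.Perm (Fin M) × Equiv.Perm (Fin M) → Prop),
    cnt (fun ρ : A → Equiv.Perm (Fin M) => P (FreeGroup.lift ρ x, FreeGroup.lift ρ y)) * M.factorial ^ 2 =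
      cnt P * Fintype.card (A → Equiv.Perm (Fin M))

section
variable {Γ : Type*} [Group Γ]

/-- labelled finite approximation of `Γ`: a partial action on `E` with labels in a free group -/
structure Lab (N : Subgroup Γ) (p : Γ → ZMod 2) (a b : Γ) (F : Finset Γ) (ε : ℝ) (E A : Type) [Fintype E] [Fintype A] [DecidableEq A]
    (σ : Γ → Equiv.Perm E) (L : Γ → E → FreeGroup A) (lam : E → FreeGroup A →* Multiplicative (ZMod 2)) : Prop where
  ne : Nonempty E
  mul : ∀ s ∈ F, ∀ t ∈ F, (cnt (fun i => ¬ (σ (s * t) i = σ s (σ t i) ∧ L (s * t) i = L s (σ t i) * L t i)) : ℝ) ≤ ε * Fintype.card E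
  fix : ∀ s ∈ F, s ∈ N → (cnt (fun i => σ s i ≠ i) : ℝ) ≤ ε * Fintype.card E
  free : ∀ s ∈ F, s ≠ 1 → (cnt (fun i => σ s i = i ∧ L s i = 1) : ℝ) ≤ ε * Fintype.card E
  equi : (cnt (fun i => ¬ Equi (L a i) (L b i)) : ℝ) ≤ ε * Fintype.card E
  lam : ∀ s ∈ F, s ∈ N → (cnt (fun i => lam i (L s i) ≠ Multiplicative.ofAdd (p s)) : ℝ) ≤ ε * Fintype.card E

/-- `Γ` has labelled approximations -/
def HasLab (N : Subgroup Γ) (p : Γ → ZMod 2) (a b : Γ) : Prop :=
  ∀ (F : Finset Γ) (ε : ℝ), 0 < ε → ∃ (E A : Type) (_ : Fintype E) (_ : Fintype A) (_ : DecidableEq A)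
    (σ : Γ → Equiv.Perm E) (L : Γ → E → FreeGroup A) (lam : E → FreeGroup A →* Multiplicative (ZMod 2)),
    Lab N p a b F ε E A σ L lam

/-- Følner condition (as in the frozen statement) -/
def Folner (G : Type*) [Group G] : Prop := by
  classical exact ∀ (F : Finset G) (ε : ℝ), 0 < ε → ∃ A : Finset G, A.Nonempty ∧
    ∀ s ∈ F, ((symmDiff (A.image (fun a => s * a)) A).card : ℝ) < ε * (A.card : ℝ)

end

/-! ### the skew product -/

/-- skew product permutation -/
def skew {Y E : Type} (σ : Equiv.Perm E) (L : E → Equiv.Perm Y) : Equiv.Perm (Y × E) where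
  toFun q := (L q.2 q.1, σ q.2)
  invFun q := ((L (σ.symm q.2)).symm q.1, σ.symm q.2)
  left_inv q := by simp
  right_inv q := by simp

/-- the action on `Y × (E × D)` of a labelled approximation `(σ, L)`, a homomorphism `R` and an approximation `πD` of the second factor -/
def pr {Γ Δ : Type*} {A Y E D : Type} [Group Γ] [Group Δ] (R : FreeGroup A →* Equiv.Perm Y) (σ : Γ → Equiv.Perm E) (L : Γ → E → FreeGroup A)
    (πD : Δ → Equiv.Perm D) : Γ × Δ → Equiv.Perm (Y × (E × D)) :=
  fun g => skew (Equiv.prodCongr (σ g.1) (πD g.2)) (fun f => R (L g.1 f.1))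

/-- translation action of a free group on `E → ZMod 2` -/
def transl {A E : Type} (lam : E → FreeGroup A →* Multiplicative (ZMod 2)) : FreeGroup A →* Equiv.Perm (E → ZMod 2) where
  toFun w := Equiv.addRight (fun j => Multiplicative.toAdd (lam j w))
  map_one' := by
    ext z j
    simp
  map_mul' v w := by
    ext z j
    simp [Equiv.Perm.mul_apply]
    ring

/-- product of two permutation actions -/
def homProd {G Y Y' : Type*} [Group G] (R : G →* Equiv.Perm Y) (R' : G →* Equiv.Perm Y') : G →* Equiv.Perm (Y × Y') where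
  toFun w := Equiv.prodCongr (R w) (R' w)
  map_one' := by
    ext q <;> simp
  map_mul' v w := by
    ext q <;> simp [Equiv.Perm.mul_apply]

end SofE
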