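import Mathlib

/-! SE-13: a subgroup of a free group has a free basis containing all the letters which lie in it. -/

set_option autoImplicit false

open CategoryTheory

namespace SofE

/-- recursion along a rank function -/
theorem ff_rec {X F : Type} [Group F] (d : X → ℕ) (x0 : X) (par : X → X) (l : X → F)
    (h : ∀ x, x ≠ x0 → d (par x) < d x) :
    ∃ σ : X → F, σ x0 = 1 ∧ ∀ x, x ≠ x0 → σ x = l x * σ (par x) := by
  classical
  let G : (x : X) → ((y : X) → (measure d).rel y x → F) → F := fun x rec =>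
    if hx : x = x0 then 1 else l x * rec (par x) (h x hx)
  refine ⟨(measure d).wf.fix G, ?_, ?_⟩
  · rw [WellFounded.fix_eq]
    simp only [G, dif_pos]
  · intro x hx
    rw [WellFounded.fix_eq]
    simp only [G, dif_neg hx]

section ffs

variable {B : Type} (K : Subgroup (FreeGroup B))

/-- base coset -/
def ff_x0 : FreeGroup B ⧸ K := ((1 : FreeGroup B) : FreeGroup B ⧸ K)

theorem ff_smul_x0 (g : FreeGroup B) : g • ff_x0 K = (g : FreeGroup B ⧸ K) := by
  change ((g * 1 : FreeGroup B) : FreeGroup B ⧸ K) = _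
  rw [mul_one]

theorem ff_stab (g : FreeGroup B) : g • ff_x0 K = ff_x0 K ↔ g ∈ K := by
  rw [ff_smul_x0, ff_x0, eq_comm, QuotientGroup.eq, inv_one, one_mul]

/-- a Schreier transversal -/
theorem ff_section : ∃ (σ : FreeGroup B ⧸ K → FreeGroup B) (d : FreeGroup B ⧸ K → ℕ),
    σ (ff_x0 K) = 1 ∧ ∀ x, x ≠ ff_x0 K → ∃ (b : B) (y : FreeGroup B ⧸ K), d y < d x ∧
      ((σ x = FreeGroup.of b * σ y ∧ x = FreeGroup.of b • y) ∨
       (σ x = (FreeGroup.of b)⁻¹ * σ y ∧ x = (FreeGroup.of b)⁻¹ • y)) := by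
  classical
  let A : FreeGroup B ⧸ K → Set ℕ := fun x =>
    {n | ∃ w : List (B × Bool), w.length = n ∧ FreeGroup.mk w • ff_x0 K = x}
  have hA : ∀ x, (A x).Nonempty := by
    intro x
    obtain ⟨g, rfl⟩ := QuotientGroup.mk_surjective x
    exact ⟨_, g.toWord, rfl, by rw [FreeGroup.mk_toWord, ff_smul_x0]⟩
  let d : FreeGroup B ⧸ K → ℕ := fun x => sInf (A x)
  have hstep : ∀ x, ∃ (l : FreeGroup B) (y : FreeGroup B ⧸ K), x ≠ ff_x0 K →
      (d y < d x ∧ x = l • y ∧ ∃ b, l = FreeGroup.of b ∨ l = (FreeGroup.of b)⁻¹) := by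
    intro x
    by_cases hx : x = ff_x0 K
    · exact ⟨1, x, fun h => absurd hx h⟩
    · obtain ⟨w, hw, hwx⟩ := Nat.sInf_mem (hA x)
      cases w with
      | nil =>
        exfalso
        apply hx
        rw [← hwx, ← FreeGroup.one_eq_mk, one_smul]
      | cons a w' =>
        obtain ⟨b, ε⟩ := a
        refine ⟨FreeGroup.mk [(b, ε)], FreeGroup.mk w' • ff_x0 K, fun _ => ⟨?_, ?_, b, ?_⟩⟩
        · have h1 : d (FreeGroup.mk w' • ff_x0 K) ≤ w'.length := Nat.sInf_le ⟨w', rfl, rfl⟩
          have h2 : w'.length + 1 = d x := by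
            rw [← List.length_cons (a := (b, ε))]
            exact hw
          omega
        · rw [← mul_smul, FreeGroup.mul_mk, List.singleton_append, hwx]
        · cases ε with
          | true => left; rfl
          | false =>
            right
            rfl
  choose l par hl using hstep
  obtain ⟨σ, h0, hσ⟩ := ff_rec d (ff_x0 K) par l (fun x hx => (hl x hx).1)
  refine ⟨σ, d, h0, fun x hx => ?_⟩
  obtain ⟨h1, h2, b, hb | hb⟩ := hl x hx
  · exact ⟨b, par x, h1, Or.inl ⟨by rw [hσ x hx, hb], by rw [← hb]; exact h2⟩⟩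
  · exact ⟨b, par x, h1, Or.inr ⟨by rw [hσ x hx, hb], by rw [← hb]; exact h2⟩⟩

/-- the permutation of `X × H` given by a letter -/
def ff_perm {X H : Type} [Group H] [MulAction (FreeGroup B) X] (f : X → B → H) (b : B) :
    Equiv.Perm (X × H) where
  toFun p := (FreeGroup.of b • p.1, f p.1 b * p.2)
  invFun p := ((FreeGroup.of b)⁻¹ • p.1, (f ((FreeGroup.of b)⁻¹ • p.1) b)⁻¹ * p.2)
  left_inv p := by simp
  right_inv p := by simp

/-- the action of the free group on `X × H` -/
def ff_act {X H : Type} [Group H] [MulAction (FreeGroup B) X] (f : X → B → H) :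
    FreeGroup B →* Equiv.Perm (X × H) := FreeGroup.lift (ff_perm f)

theorem ff_act_spec {X H : Type} [Group H] [MulAction (FreeGroup B) X] (f : X → B → H)
    (g : FreeGroup B) : ∀ (x : X) (h : H),
      (ff_act f g (x, h)) = (g • x, (ff_act f g (x, 1)).2 * h) := by
  induction g using FreeGroup.induction_on with
  | C1 => intro x h; simp
  | of b =>
    intro x h
    simp [ff_act, ff_perm]
  | inv_of b _ =>
    intro x h
    simp [ff_act, ff_perm, Equiv.Perm.inv_def]
  | mul a b iha ihb =>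
    intro x h
    rw [map_mul, Equiv.Perm.mul_apply, Equiv.Perm.mul_apply, ihb x h, iha, ihb x 1, mul_one,
      iha (b • x) ((ff_act f b (x, 1)).2), mul_smul, mul_assoc]

/-- the cocycle -/
def ff_c {X H : Type} [Group H] [MulAction (FreeGroup B) X] (f : X → B → H)
    (g : FreeGroup B) (x : X) : H := (ff_act f g (x, 1)).2

theorem ff_c_mul {X H : Type} [Group H] [MulAction (FreeGroup B) X] (f : X → B → H)
    (g g' : FreeGroup B) (x : X) : ff_c f (g * g') x = ff_c f g (g' • x) * ff_c f g' x := by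
  unfold ff_c
  rw [map_mul, Equiv.Perm.mul_apply, ff_act_spec f g' x 1, mul_one, ff_act_spec f g (g' • x)]

theorem ff_c_one {X H : Type} [Group H] [MulAction (FreeGroup B) X] (f : X → B → H)
    (x : X) : ff_c f 1 x = 1 := by
  unfold ff_c
  rw [map_one, Equiv.Perm.one_apply]

theorem ff_c_of {X H : Type} [Group H] [MulAction (FreeGroup B) X] (f : X → B → H)
    (b : B) (x : X) : ff_c f (FreeGroup.of b) x = f x b := by
  simp [ff_c, ff_act, ff_perm]

theorem ff_c_inv {X H : Type} [Group H] [MulAction (FreeGroup B) X] (f : X → B → H)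
    (g : FreeGroup B) (x : X) : ff_c f g⁻¹ (g • x) = (ff_c f g x)⁻¹ := by
  have h := ff_c_mul f g⁻¹ g x
  rw [inv_mul_cancel, ff_c_one] at h
  exact (inv_eq_of_mul_eq_one_left h.symm).symm

theorem ff_c_inv_of {X H : Type} [Group H] [MulAction (FreeGroup B) X] (f : X → B → H)
    (b : B) (x : X) :
    ff_c f (FreeGroup.of b)⁻¹ x = (f ((FreeGroup.of b)⁻¹ • x) b)⁻¹ := by
  have h := ff_c_inv f (FreeGroup.of b) ((FreeGroup.of b)⁻¹ • x)
  rwa [smul_inv_smul, ff_c_of] at h

end ffs

/-- Nielsen-Schreier (`Mathlib/GroupTheory/FreeGroup/NielsenSchreier.lean`), remembering the basis: the groupoid `ActionCategory (FreeGroup B) (FreeGroup B ⧸ K)`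
is free on the edges `(letter, coset)`; with the spanning tree rooted at the coset of `1` the vertex group (isomorphic to `K`) has the basis
`loopOfHom T (of e)`, `e` in the complement of the tree. A letter `of b ∈ K` gives a loop `e` at the root; it is not in the tree (the tree has no loops: it is an
arborescence) and `loopOfHom` of a loop at the root is the loop itself (`treeHom_root`). -/
theorem ff {B : Type} (K : Subgroup (FreeGroup B)) :
    ∃ (Z : Type) (bas : FreeGroupBasis Z K) (j : {b : B // FreeGroup.of b ∈ K} → Z), Function.Injective j ∧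
      ∀ b, ((bas (j b) : K) : FreeGroup B) = FreeGroup.of b.1 := by
  classical
  obtain ⟨σ, d, h0, hσ⟩ := ff_section K
  -- the section property
  have hs : ∀ x, σ x • ff_x0 K = x := by
    suffices H : ∀ n, ∀ x, d x ≤ n → σ x • ff_x0 K = x from fun x => H _ x le_rfl
    intro n
    induction n with
    | zero =>
      intro x hx
      by_cases hxx : x = ff_x0 K
      · rw [hxx, h0, one_smul]
      · obtain ⟨b, y, hy, -⟩ := hσ x hxx
        omega
    | succ n ih =>
      intro x hx
      by_cases hxx : x = ff_x0 K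
      · rw [hxx, h0, one_smul]
      · obtain ⟨b, y, hy, ⟨h1, h2⟩ | ⟨h1, h2⟩⟩ := hσ x hxx
        · rw [h1, mul_smul, ih y (by omega), ← h2]
        · rw [h1, mul_smul, ih y (by omega), ← h2]
  -- the Schreier generators
  have hmem : ∀ (g : FreeGroup B) (x : FreeGroup B ⧸ K), (σ (g • x))⁻¹ * g * σ x ∈ K := by
    intro g x
    rw [← ff_stab, mul_smul, mul_smul, hs, inv_smul_eq_iff, hs]
  let kk : (FreeGroup B ⧸ K) × B → K := fun e =>
    ⟨(σ (FreeGroup.of e.2 • e.1))⁻¹ * FreeGroup.of e.2 * σ e.1, hmem _ _⟩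
  let Z : Type := {e : (FreeGroup B ⧸ K) × B // kk e ≠ 1}
  let f : (FreeGroup B ⧸ K) → B → FreeGroup Z := fun x b =>
    if h : kk (x, b) ≠ 1 then FreeGroup.of ⟨(x, b), h⟩ else 1
  have hf1 : ∀ x b, kk (x, b) = 1 → f x b = 1 := fun x b h => dif_neg (not_not.2 h)
  have hf2 : ∀ (z : Z), f z.1.1 z.1.2 = FreeGroup.of z := fun z => dif_pos z.2
  have hcσ : ∀ x, ff_c f (σ x) (ff_x0 K) = 1 := by
    suffices H : ∀ n, ∀ x, d x ≤ n → ff_c f (σ x) (ff_x0 K) = 1 from fun x => H _ x le_rfl
    intro n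
    induction n with
    | zero =>
      intro x hx
      by_cases hxx : x = ff_x0 K
      · rw [hxx, h0, ff_c_one]
      · obtain ⟨b, y, hy, -⟩ := hσ x hxx
        omega
    | succ n ih =>
      intro x hx
      by_cases hxx : x = ff_x0 K
      · rw [hxx, h0, ff_c_one]
      · obtain ⟨b, y, hy, ⟨h1, h2⟩ | ⟨h1, h2⟩⟩ := hσ x hxx
        · rw [h1, ff_c_mul, ih y (by omega), hs, mul_one, ff_c_of]
          apply hf1
          apply Subtype.ext
          change (σ (FreeGroup.of b • y))⁻¹ * FreeGroup.of b * σ y = 1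
          rw [← h2, h1]
          group
        · rw [h1, ff_c_mul, ih y (by omega), hs, mul_one, ff_c_inv_of, ← h2, inv_eq_one]
          apply hf1
          apply Subtype.ext
          change (σ (FreeGroup.of b • x))⁻¹ * FreeGroup.of b * σ x = 1
          rw [h1, h2, smul_inv_smul]
          group
  let φ : K →* FreeGroup Z :=
    { toFun := fun k => ff_c f k (ff_x0 K)
      map_one' := ff_c_one f _
      map_mul' := fun k k' => by
        have := ff_c_mul f (k : FreeGroup B) k' (ff_x0 K)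
        rw [(ff_stab K k').2 k'.2] at this
        exact this }
  have hφ : ∀ z : Z, φ (kk z.1) = FreeGroup.of z := by
    rintro z
    have e1 : φ (kk z.1) = ff_c f ((σ (FreeGroup.of z.1.2 • z.1.1))⁻¹ * FreeGroup.of z.1.2 *
      σ z.1.1) (ff_x0 K) := rfl
    have e2 := ff_c_inv f (σ (FreeGroup.of z.1.2 • z.1.1)) (ff_x0 K)
    rw [hs, hcσ, inv_one] at e2
    rw [e1, ff_c_mul, ff_c_mul, hcσ, mul_one, hs, e2, one_mul, ff_c_of, hf2]
  let Ψ : FreeGroup Z →* K := FreeGroup.lift (fun z => kk z.1)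
  have hΨ : ∀ z : Z, Ψ (FreeGroup.of z) = kk z.1 := fun z => FreeGroup.lift_apply_of
  have hcomp : φ.comp Ψ = MonoidHom.id _ := by
    apply FreeGroup.ext_hom
    intro z
    rw [MonoidHom.comp_apply, hΨ, hφ, MonoidHom.id_apply]
  have hinj : Function.Injective Ψ := by
    intro a b hab
    have := congrArg φ hab
    rw [← MonoidHom.comp_apply, ← MonoidHom.comp_apply, hcomp] at this
    exact this
  have hgen : ∀ e, kk e ∈ Ψ.range := by
    intro e
    by_cases h : kk e = 1
    · rw [h]
      exact one_mem _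
    · exact ⟨FreeGroup.of ⟨e, h⟩, hΨ _⟩
  have hall : ∀ (g : FreeGroup B) (x : FreeGroup B ⧸ K),
      (σ (g • x))⁻¹ * g * σ x ∈ Ψ.range.map K.subtype := by
    intro g
    induction g using FreeGroup.induction_on with
    | C1 => intro x; simp [one_mem]
    | of b =>
      intro x
      exact ⟨kk (x, b), hgen _, rfl⟩
    | inv_of b _ =>
      intro x
      have h1 : (kk ((FreeGroup.of b)⁻¹ • x, b) : FreeGroup B) ∈ Ψ.range.map K.subtype :=
        ⟨_, hgen _, rfl⟩
      have h2 := inv_mem h1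
      change ((σ (FreeGroup.of b • ((FreeGroup.of b)⁻¹ • x)))⁻¹ * FreeGroup.of b *
        σ ((FreeGroup.of b)⁻¹ • x))⁻¹ ∈ _ at h2
      rw [smul_inv_smul] at h2
      convert h2 using 1
      group
    | mul a b iha ihb =>
      intro x
      have h1 := mul_mem (iha (b • x)) (ihb x)
      rw [← mul_smul] at h1
      convert h1 using 1
      group
  have hsurj : Function.Surjective Ψ := by
    intro k
    obtain ⟨k', ⟨w, hw⟩, hk'⟩ := hall k (ff_x0 K)
    refine ⟨w, ?_⟩
    rw [hw]
    apply Subtype.ext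
    rw [(ff_stab K k).2 k.2, h0, inv_one, one_mul, mul_one] at hk'
    exact hk'
  let E : FreeGroup Z ≃* K := MulEquiv.ofBijective Ψ ⟨hinj, hsurj⟩
  have hx0 : ∀ b : {b : B // FreeGroup.of b ∈ K},
      ((kk (ff_x0 K, b.1) : K) : FreeGroup B) = FreeGroup.of b.1 := by
    intro b
    change (σ (FreeGroup.of b.1 • ff_x0 K))⁻¹ * FreeGroup.of b.1 * σ (ff_x0 K) = _
    rw [(ff_stab K _).2 b.2, h0, inv_one, one_mul, mul_one]
  refine ⟨Z, FreeGroupBasis.ofRepr E.symm, fun b => ⟨(ff_x0 K, b.1), ?_⟩, ?_, ?_⟩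
  · intro h
    have h1 := hx0 b
    rw [h] at h1
    exact FreeGroup.of_ne_one b.1 h1.symm
  · intro b b' h
    have h1 : ((ff_x0 K, b.1) : (FreeGroup B ⧸ K) × B) = (ff_x0 K, b'.1) := congrArg Subtype.val h
    exact Subtype.ext (congrArg Prod.snd h1)
  · intro b
    rw [← hx0 b]
    exact congrArg Subtype.val (hΨ ⟨(ff_x0 K, b.1), _⟩)

end SofE
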