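import Pool.Agent.helper41.SE.Cnt
import Pool.Agent.helper41.SE.FF

/-! SE-14: equidistribution of primitive pairs. -/

set_option autoImplicit false

namespace SofE

/-- a function on `Z` is a pair of values at two points and a function on the rest -/
theorem equiFree_split {Z S : Type} {u v : Z} (huv : u ≠ v) :
    ∃ (W : Type) (e : (Z → S) ≃ (S × S) × W), ∀ g, (e g).1 = (g u, g v) := by
  classical
  let v' : {z // z ≠ u} := ⟨v, huv.symm⟩
  refine ⟨{z : {z // z ≠ u} // z ≠ v'} → S,
    (Equiv.funSplitAt u S).trans ((Equiv.prodCongr (Equiv.refl S) (Equiv.funSplitAt v' S)).trans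
      (Equiv.prodAssoc S S _).symm), fun g => ?_⟩
  simp [Equiv.funSplitAt, Equiv.piSplitAt, v']

theorem equiFree_count {A S W : Type} [Fintype A] [DecidableEq A] [Fintype S] [DecidableEq S] [Nonempty S]
    (e : (A → S) ≃ (S × S) × W) (Q : S × S → Prop) :
    cnt (fun ρ : A → S => Q (e ρ).1) * Fintype.card S ^ 2 = cnt Q * Fintype.card (A → S) := by
  classical
  obtain ⟨s⟩ := ‹Nonempty S›
  haveI : Finite W := Finite.of_injective (fun w : W => e.symm ((s, s), w)) (fun w w' h => by
    have := e.symm.injective h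
    simpa using this)
  haveI : Fintype W := Fintype.ofFinite W
  have h1 : cnt (fun ρ : A → S => Q (e ρ).1) = cnt Q * Fintype.card W := by
    rw [cnt_equiv e (fun q : (S × S) × W => Q q.1), cnt_fst]
  have h2 : Fintype.card (A → S) = Fintype.card S ^ 2 * Fintype.card W := by
    rw [Fintype.card_congr e, Fintype.card_prod, Fintype.card_prod, sq]
  rw [h1, h2]
  ring

/-- Let `K = {w | α w ∈ F(A)}` (`F(A)` = range of `FreeGroup.map Subtype.val`, injective). `K` contains the letters `a`, `b`; by `ff` it has a basis `Z` with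
`bas (j a) = of a`, `bas (j b) = of b`. `K ≃* FreeGroup A` by `α` (`w ↦` the preimage of `α w`), and it sends `of a`, `of b` to `x`, `y`. Homomorphisms
`FreeGroup A → Perm (Fin M)` correspond to `A → Perm (Fin M)` and (through the isomorphism) to `Z → Perm (Fin M)`: a bijection
`(A → S) ≃ (Z → S)` under which `(lift ρ x, lift ρ y)` becomes the pair of values at `j a`, `j b`. For functions on `Z` (finite or not, but `Z → S` is finite)
`#{g | P (g (j a), g (j b))} |S|^2 = #P * #(Z → S)` (`Equiv.funSplitAt` or `Equiv.piEquivPiSubtypeProd`). -/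
theorem equi_of_aut {B : Type} (α : FreeGroup B ≃* FreeGroup B) {a b : B} (hab : a ≠ b) {A : Type} [Fintype A] [DecidableEq A] (j : A → B)
    (hj : Function.Injective j) (x y : FreeGroup A) (hx : FreeGroup.map j x = α (FreeGroup.of a)) (hy : FreeGroup.map j y = α (FreeGroup.of b)) :
    Equi x y := by
  classical
  let K : Subgroup (FreeGroup B) := (FreeGroup.map j).range.comap α.toMonoidHom
  have hK : ∀ w, w ∈ K ↔ ∃ v, FreeGroup.map j v = α w := fun w => Iff.rfl
  let f : FreeGroup A →* K := ((α.symm.toMonoidHom).comp (FreeGroup.map j)).codRestrict K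
    (fun v => (hK _).2 ⟨v, by simp⟩)
  have hf : ∀ v, ((f v : K) : FreeGroup B) = α.symm (FreeGroup.map j v) := fun v => rfl
  have hbij : Function.Bijective f := by
    constructor
    · intro v w hvw
      have h1 := congrArg (fun z : K => (z : FreeGroup B)) hvw
      simp only [hf] at h1
      exact FreeGroup.map_injective hj (α.symm.injective h1)
    · rintro ⟨w, hw⟩
      obtain ⟨v, hv⟩ := (hK w).1 hw
      refine ⟨v, Subtype.ext ?_⟩
      rw [hf, hv]
      simp
  let ψ : FreeGroup A ≃* K := MulEquiv.ofBijective f hbij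
  have hψ : ∀ v, ψ v = f v := fun v => rfl
  have haK : FreeGroup.of a ∈ K := (hK _).2 ⟨x, hx⟩
  have hbK : FreeGroup.of b ∈ K := (hK _).2 ⟨y, hy⟩
  obtain ⟨Z, bas, jz, hjz, hbas⟩ := ff K
  have hxa : ψ x = bas (jz ⟨a, haK⟩) := by
    apply Subtype.ext
    rw [hbas, hψ, hf, hx]
    simp
  have hyb : ψ y = bas (jz ⟨b, hbK⟩) := by
    apply Subtype.ext
    rw [hbas, hψ, hf, hy]
    simp
  intro M P
  -- the bijection
  let T : (A → Equiv.Perm (Fin M)) ≃ (Z → Equiv.Perm (Fin M)) :=
    (FreeGroup.lift.trans (MulEquiv.monoidHomCongrLeftEquiv ψ)).trans bas.lift.symm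
  have hT : ∀ ρ z, T ρ z = FreeGroup.lift ρ (ψ.symm (bas z)) := fun ρ z => rfl
  obtain ⟨W, e, he⟩ := equiFree_split (S := Equiv.Perm (Fin M))
    (u := jz ⟨a, haK⟩) (v := jz ⟨b, hbK⟩) (fun h => hab (by simpa using hjz h))
  have key := equiFree_count (T.trans e) P
  rw [Fintype.card_perm, Fintype.card_fin] at key
  rw [← key]
  congr 1
  apply cnt_congr
  intro ρ
  have h1 : ((T.trans e) ρ).1 = (FreeGroup.lift ρ x, FreeGroup.lift ρ y) := by
    rw [Equiv.trans_apply, he, hT, hT, ← hxa, ← hyb, MulEquiv.symm_apply_apply,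
      MulEquiv.symm_apply_apply]
  rw [h1]

end SofE
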