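import Pool.Agent.helper41.SE.Cnt

/-! SE-16: equidistribution of words with private letters. -/

set_option autoImplicit false

namespace SofE

/-- the value of the word does not depend on the letter `c` -/
def NoLet {A : Type} (c : A) (w : FreeGroup A) : Prop :=
  ∀ (M : ℕ) (ρ ρ' : A → Equiv.Perm (Fin M)), (∀ d, d ≠ c → ρ d = ρ' d) → FreeGroup.lift ρ w = FreeGroup.lift ρ' w

theorem NoLet.one {A : Type} (c : A) : NoLet c 1 := by
  intro M ρ ρ' _
  simp

theorem NoLet.of {A : Type} {c d : A} (h : d ≠ c) : NoLet c (FreeGroup.of d) := by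
  intro M ρ ρ' h'
  simp [h' d h]

theorem NoLet.mul {A : Type} {c : A} {v w : FreeGroup A} (hv : NoLet c v) (hw : NoLet c w) : NoLet c (v * w) := by
  intro M ρ ρ' h
  rw [map_mul, map_mul, hv M ρ ρ' h, hw M ρ ρ' h]

theorem NoLet.inv {A : Type} {c : A} {w : FreeGroup A} (hw : NoLet c w) : NoLet c w⁻¹ := by
  intro M ρ ρ' h
  rw [map_inv, map_inv, hw M ρ ρ' h]

/-- resampling one letter of a word with a private letter -/
theorem EquiLet_key {A : Type} [Fintype A] [DecidableEq A] {M : ℕ} {w u v : FreeGroup A} {c : A} (hw : w = u * FreeGroup.of c * v)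
    (hu : NoLet c u) (hv : NoLet c v) (R : (A → Equiv.Perm (Fin M)) → Equiv.Perm (Fin M) → Prop)
    (hR : ∀ ρ s z, R (Function.update ρ c s) z ↔ R ρ z) :
    cnt (fun ρ => R ρ (FreeGroup.lift ρ w)) * M.factorial = ∑ ρ, cnt (R ρ) := by
  have hS : Fintype.card (Equiv.Perm (Fin M)) = M.factorial := by
    rw [Fintype.card_perm, Fintype.card_fin]
  let e : (A → Equiv.Perm (Fin M)) × Equiv.Perm (Fin M) ≃ (A → Equiv.Perm (Fin M)) × Equiv.Perm (Fin M) :=
    { toFun := fun q => (Function.update q.1 c q.2, q.1 c)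
      invFun := fun q => (Function.update q.1 c q.2, q.1 c)
      left_inv := fun q => by simp
      right_inv := fun q => by simp }
  have h1 := cnt_fst (β := Equiv.Perm (Fin M)) (fun ρ : A → Equiv.Perm (Fin M) => R ρ (FreeGroup.lift ρ w))
  rw [hS] at h1
  rw [← h1, ← cnt_equiv e, cnt_prod_left]
  refine Finset.sum_congr rfl fun ρ _ => ?_
  have h2 := cnt_equiv ((Equiv.mulLeft (FreeGroup.lift ρ u)).trans (Equiv.mulRight (FreeGroup.lift ρ v))) (R ρ)
  rw [← h2]
  refine cnt_congr fun s => ?_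
  have h3 : FreeGroup.lift (Function.update ρ c s) w = FreeGroup.lift ρ u * s * FreeGroup.lift ρ v := by
    have hd : ∀ d, d ≠ c → Function.update ρ c s d = ρ d := fun d hd => Function.update_of_ne hd _ _
    rw [hw, map_mul, map_mul, hu M _ _ hd, hv M _ _ hd]
    simp
  show R (Function.update ρ c s) (FreeGroup.lift (Function.update ρ c s) w) ↔ _
  rw [hR, h3]
  rfl

/-- Let `S = Perm (Fin M)`. For fixed values of the letters `≠ c'` the map `s ↦ lift ρ y` (`ρ c' = s`) is a bijection of `S` (`y = u' s v'`), and `lift ρ x` does not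
depend on `s`. So `#{ρ | P (x, y)} = ∑_{τ : values of the letters ≠ c'} #{z | P (x(τ), z)}`, i.e. `|S| #{ρ | P (x,y)} = ∑_ρ #{z | P (lift ρ x, z)}
= ∑_z #{ρ | P (lift ρ x, z)}`, and in the same way (with the letter `c`) `|S| #{ρ | P (lift ρ x, z)} = #(A → S) #{s | P (s, z)}`. -/
theorem equi_of_letters {A : Type} [Fintype A] [DecidableEq A] {x y u v u' v' : FreeGroup A} {c c' : A} (hx : x = u * FreeGroup.of c * v)
    (hu : NoLet c u) (hv : NoLet c v) (hy : y = u' * FreeGroup.of c' * v') (hu' : NoLet c' u') (hv' : NoLet c' v') (hx' : NoLet c' x) : Equi x y := by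
  intro M P
  have hS : Fintype.card (Equiv.Perm (Fin M)) = M.factorial := by
    rw [Fintype.card_perm, Fintype.card_fin]
  have h1 := EquiLet_key (M := M) hy hu' hv' (fun ρ z => P (FreeGroup.lift ρ x, z)) (fun ρ s z => by
    rw [hx' M (Function.update ρ c' s) ρ fun d hd => Function.update_of_ne hd _ _])
  have h2 : ∀ z : Equiv.Perm (Fin M), cnt (fun ρ : A → Equiv.Perm (Fin M) => P (FreeGroup.lift ρ x, z)) * M.factorial =
      Fintype.card (A → Equiv.Perm (Fin M)) * cnt (fun s => P (s, z)) := by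
    intro z
    have := EquiLet_key (M := M) hx hu hv (fun _ s => P (s, z)) (fun _ _ _ => Iff.rfl)
    rw [this, Finset.sum_const, Finset.card_univ, smul_eq_mul]
  rw [pow_two, ← mul_assoc, h1, cnt_comm, Finset.sum_mul, Finset.sum_congr rfl fun z _ => h2 z, ← Finset.mul_sum,
    ← cnt_prod_right, mul_comm]

end SofE
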