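import Pool.Agent.helper41.SE.Cnt

/-! SE-04: a nontrivial word has few fixed points on average. -/

set_option autoImplicit false

namespace SofE

section fixAux

variable {A Y : Type}

/-- permutation of a letter -/
def fix_act (ρ : A → Equiv.Perm Y) (x : A × Bool) : Equiv.Perm Y := bif x.2 then ρ x.1 else (ρ x.1)⁻¹

/-- path of a point along a sequence of letters -/
def fix_path (ρ : A → Equiv.Perm Y) (u : ℕ → A × Bool) (k : Y) : ℕ → Y
  | 0 => k
  | n + 1 => fix_act ρ (u n) (fix_path ρ u k n)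

theorem fix_path_congr (ρ : A → Equiv.Perm Y) (u v : ℕ → A × Bool) (k : Y) (n : ℕ) (h : ∀ m < n, u m = v m) :
    fix_path ρ u k n = fix_path ρ v k n := by
  induction n with
  | zero => rfl
  | succ n ih =>
    show fix_act ρ (u n) (fix_path ρ u k n) = fix_act ρ (v n) (fix_path ρ v k n)
    rw [ih fun m hm => h m (by omega), h n (by omega)]

theorem fix_path_list (ρ : A → Equiv.Perm Y) (d : A × Bool) (L : List (A × Bool)) (k : Y) :
    (L.map (fix_act ρ)).prod k = fix_path ρ (fun n => L.reverse.getD n d) k L.length := by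
  induction L with
  | nil => rfl
  | cons x L ih =>
    rw [List.map_cons, List.prod_cons, Equiv.Perm.mul_apply, ih]
    show _ = fix_act ρ ((x :: L).reverse.getD L.length d) (fix_path ρ (fun n => (x :: L).reverse.getD n d) k L.length)
    congr 1
    · rw [List.reverse_cons, List.getD_append_right _ _ _ _ (by simp)]
      simp
    · refine fix_path_congr ρ _ _ k _ fun m hm => ?_
      simp only [List.reverse_cons]
      rw [List.getD_append _ _ _ _ (by simpa using hm)]

theorem fix_letters (L : List (A × Bool)) (hL : FreeGroup.IsReduced L) (hne : L ≠ []) :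
    ∃ u : ℕ → A × Bool, (∀ n, n + 1 < L.length → (u n).1 = (u (n + 1)).1 → (u n).2 = (u (n + 1)).2) ∧
      ∀ (Z : Type) (ρ : A → Equiv.Perm Z) (k : Z), (L.map (fix_act ρ)).prod k = fix_path ρ u k L.length := by
  obtain ⟨d, L', rfl⟩ := List.exists_cons_of_ne_nil hne
  refine ⟨fun n => (d :: L').reverse.getD n d, fun n hn h1 => ?_, fun Z ρ k => fix_path_list ρ d _ k⟩
  have h : List.IsChain (fun a b : A × Bool => a.1 = b.1 → a.2 = b.2) (d :: L').reverse := by
    rw [List.isChain_reverse]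
    exact hL.imp fun a b hab h => (hab h.symm).symm
  rw [List.isChain_iff_getElem] at h
  have hn' : n + 1 < (d :: L').reverse.length := by simpa using hn
  have h2 := h n hn'
  simp only at h1 ⊢
  rw [List.getD_eq_getElem _ _ (by omega), List.getD_eq_getElem _ _ hn'] at h1 ⊢
  exact h2 h1

variable [DecidableEq A] [DecidableEq Y]

/-- switching -/
def fix_sw (ρ : A → Equiv.Perm Y) (x : A × Bool) (z y : Y) : A → Equiv.Perm Y :=
  Function.update ρ x.1 (bif x.2 then Equiv.swap z y * ρ x.1 else ρ x.1 * Equiv.swap z y)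

theorem fix_sw_act (ρ : A → Equiv.Perm Y) (x : A × Bool) (z y : Y) :
    fix_act (fix_sw ρ x z y) x = Equiv.swap z y * fix_act ρ x := by
  obtain ⟨a, b⟩ := x
  cases b <;> simp [fix_act, fix_sw]

theorem fix_sw_act_inv (ρ : A → Equiv.Perm Y) (x x' : A × Bool) (z y : Y) (h1 : x'.1 = x.1) (h2 : x'.2 ≠ x.2) :
    fix_act (fix_sw ρ x z y) x' = fix_act ρ x' * Equiv.swap z y := by
  obtain ⟨a, b⟩ := x
  obtain ⟨a', b'⟩ := x'
  simp only at h1 h2
  subst h1
  cases b <;> cases b' <;> simp [fix_act, fix_sw] at h2 ⊢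

theorem fix_sw_act_ne (ρ : A → Equiv.Perm Y) (x x' : A × Bool) (z y : Y) (h1 : x'.1 ≠ x.1) :
    fix_act (fix_sw ρ x z y) x' = fix_act ρ x' := by
  simp [fix_act, fix_sw, Function.update_of_ne h1]

omit [DecidableEq A] [DecidableEq Y] in
theorem fix_act_inv (ρ : A → Equiv.Perm Y) (x x' : A × Bool) (h1 : x'.1 = x.1) (h2 : x'.2 ≠ x.2) (q : Y) :
    fix_act ρ x' (fix_act ρ x q) = q := by
  obtain ⟨a, b⟩ := x
  obtain ⟨a', b'⟩ := x'
  simp only at h1 h2
  subst h1
  cases b <;> cases b' <;> simp [fix_act] at h2 ⊢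

/-- the event: the first repetition on the path is `k_{n+1} = k_i` -/
def fix_ev (u : ℕ → A × Bool) (n i : ℕ) (ρ : A → Equiv.Perm Y) (k : Y) : Prop :=
  (∀ m m', m ≤ n → m' ≤ n → fix_path ρ u k m = fix_path ρ u k m' → m = m') ∧ fix_path ρ u k (n + 1) = fix_path ρ u k i

omit [DecidableEq A] [DecidableEq Y] in
theorem fix_find (u : ℕ → A × Bool) (ρ : A → Equiv.Perm Y) (k : Y) (l : ℕ) (hl : 0 < l) (h : fix_path ρ u k l = k) :
    ∃ n i, n < l ∧ i ≤ n ∧ fix_ev u n i ρ k := by
  classical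
  have hex : ∃ j, ∃ i, i ≤ j ∧ fix_path ρ u k (j + 1) = fix_path ρ u k i := ⟨l - 1, 0, by omega, by
    rw [Nat.sub_add_cancel hl, h]
    rfl⟩
  obtain ⟨i, hi, h1⟩ := Nat.find_spec hex
  refine ⟨Nat.find hex, i, ?_, hi, ?_, h1⟩
  · have h2 : Nat.find hex ≤ l - 1 := Nat.find_le ⟨0, by omega, by
      rw [Nat.sub_add_cancel hl, h]
      rfl⟩
    omega
  · have key : ∀ m m', m < m' → m' ≤ Nat.find hex → fix_path ρ u k m ≠ fix_path ρ u k m' := by
      intro m m' hm hm' he
      obtain ⟨j, rfl⟩ : ∃ j, m' = j + 1 := ⟨m' - 1, by omega⟩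
      exact Nat.find_min hex (by omega : j < Nat.find hex) ⟨m, by omega, he.symm⟩
    intro m m' hm hm' he
    rcases lt_trichotomy m m' with h3 | h3 | h3
    · exact absurd he (key m m' h3 hm')
    · exact h3
    · exact absurd he.symm (key m' m h3 hm)

theorem fix_same (u : ℕ → A × Bool) (n i : ℕ) (hi : i ≤ n) (hu : ∀ m, m + 1 ≤ n → (u m).1 = (u (m + 1)).1 → (u m).2 = (u (m + 1)).2)
    (ρ : A → Equiv.Perm Y) (k y : Y) (h : fix_ev u n i ρ k) (hy : ∀ m ≤ n, fix_path ρ u k m ≠ y) :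
    ∀ m ≤ n, fix_path (fix_sw ρ (u n) (fix_path ρ u k i) y) u k m = fix_path ρ u k m := by
  obtain ⟨hd, hr⟩ := h
  intro m
  induction m with
  | zero => intro _; rfl
  | succ m ih =>
    intro hm
    show fix_act (fix_sw ρ (u n) (fix_path ρ u k i) y) (u m) (fix_path (fix_sw ρ (u n) (fix_path ρ u k i) y) u k m) =
      fix_act ρ (u m) (fix_path ρ u k m)
    rw [ih (by omega)]
    by_cases h1 : (u m).1 = (u n).1
    · by_cases h2 : (u m).2 = (u n).2
      · have h3 : u m = u n := Prod.ext h1 h2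
        rw [h3, fix_sw_act, Equiv.Perm.mul_apply]
        apply Equiv.swap_apply_of_ne_of_ne
        · intro h4
          have h5 : fix_path ρ u k m = fix_path ρ u k n := by
            rw [← hr] at h4
            exact (fix_act ρ (u n)).injective h4
          have := hd m n (by omega) le_rfl h5
          omega
        · rw [← h3]
          exact hy (m + 1) hm
      · rw [fix_sw_act_inv _ _ _ _ _ h1 h2, Equiv.Perm.mul_apply, Equiv.swap_apply_of_ne_of_ne]
        · intro h4
          have h5 : fix_path ρ u k (m + 1) = fix_path ρ u k n := by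
            show fix_act ρ (u m) (fix_path ρ u k m) = _
            rw [h4, ← hr]
            exact fix_act_inv ρ (u n) (u m) h1 h2 _
          have h6 := hd (m + 1) n hm le_rfl h5
          subst h6
          exact h2 (hu m le_rfl h1)
        · exact hy m (by omega)
    · rw [fix_sw_act_ne _ _ _ _ _ h1]

theorem fix_last (u : ℕ → A × Bool) (n i : ℕ) (hi : i ≤ n) (hu : ∀ m, m + 1 ≤ n → (u m).1 = (u (m + 1)).1 → (u m).2 = (u (m + 1)).2)
    (ρ : A → Equiv.Perm Y) (k y : Y) (h : fix_ev u n i ρ k) (hy : ∀ m ≤ n, fix_path ρ u k m ≠ y) :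
    fix_path (fix_sw ρ (u n) (fix_path ρ u k i) y) u k (n + 1) = y := by
  show fix_act (fix_sw ρ (u n) (fix_path ρ u k i) y) (u n) (fix_path (fix_sw ρ (u n) (fix_path ρ u k i) y) u k n) = y
  rw [fix_same u n i hi hu ρ k y h hy n le_rfl, fix_sw_act, Equiv.Perm.mul_apply]
  have h1 : fix_act ρ (u n) (fix_path ρ u k n) = fix_path ρ u k i := h.2
  rw [h1, Equiv.swap_apply_left]

omit [DecidableEq Y] in
theorem fix_sw_inj [DecidableEq Y] (x : A × Bool) (z y : Y) (ρ ρ' : A → Equiv.Perm Y) (h : fix_sw ρ x z y = fix_sw ρ' x z y) : ρ = ρ' := by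
  obtain ⟨a, b⟩ := x
  funext c
  by_cases hc : c = a
  · subst hc
    have h1 := congrFun h c
    cases b <;> simpa [fix_sw] using h1
  · have h1 := congrFun h c
    simpa [fix_sw, Function.update_of_ne hc] using h1

variable [Fintype A] [Fintype Y]

theorem fix_count (u : ℕ → A × Bool) (n i : ℕ) (hi : i ≤ n) (hu : ∀ m, m + 1 ≤ n → (u m).1 = (u (m + 1)).1 → (u m).2 = (u (m + 1)).2) :
    cnt (fun q : (A → Equiv.Perm Y) × Y => fix_ev u n i q.1 q.2) * (Fintype.card Y - (n + 1)) ≤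
      Fintype.card ((A → Equiv.Perm Y) × Y) := by
  classical
  calc cnt (fun q : (A → Equiv.Perm Y) × Y => fix_ev u n i q.1 q.2) * (Fintype.card Y - (n + 1))
      = ∑ q : (A → Equiv.Perm Y) × Y, (if fix_ev u n i q.1 q.2 then 1 else 0) * (Fintype.card Y - (n + 1)) := by
        rw [cnt_sum, Finset.sum_mul]
    _ ≤ ∑ q : (A → Equiv.Perm Y) × Y, cnt (fun y : Y => fix_ev u n i q.1 q.2 ∧ ∀ m ≤ n, fix_path q.1 u q.2 m ≠ y) := by
        refine Finset.sum_le_sum fun q _ => ?_
        by_cases hq : fix_ev u n i q.1 q.2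
        · rw [if_pos hq, one_mul]
          have h1 := cnt_add_not (fun y : Y => ∀ m ≤ n, fix_path q.1 u q.2 m ≠ y)
          have h2 : cnt (fun y : Y => ¬ ∀ m ≤ n, fix_path q.1 u q.2 m ≠ y) ≤ n + 1 := by
            refine (cnt_mono (Q := fun y : Y => ∃ m ∈ Finset.range (n + 1), fix_path q.1 u q.2 m = y) fun y hy => ?_).trans ?_
            · push Not at hy
              obtain ⟨m, hm, h⟩ := hy
              exact ⟨m, Finset.mem_range.2 (by omega), h⟩
            · refine (cnt_exists_le _ _).trans ?_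
              refine (Finset.sum_le_sum (g := fun _ => 1) fun m _ => ?_).trans (by simp)
              rw [cnt_eq]
              refine Finset.card_le_one.2 fun a ha b hb => ?_
              simp only [Finset.mem_filter, Finset.mem_univ, true_and] at ha hb
              rw [← ha, ← hb]
          have h3 : cnt (fun y : Y => ∀ m ≤ n, fix_path q.1 u q.2 m ≠ y) ≤
              cnt (fun y : Y => fix_ev u n i q.1 q.2 ∧ ∀ m ≤ n, fix_path q.1 u q.2 m ≠ y) := cnt_mono fun y hy => ⟨hq, hy⟩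
          omega
        · rw [if_neg hq, zero_mul]
          exact Nat.zero_le _
    _ = cnt (fun r : ((A → Equiv.Perm Y) × Y) × Y => fix_ev u n i r.1.1 r.1.2 ∧ ∀ m ≤ n, fix_path r.1.1 u r.1.2 m ≠ r.2) := by
        rw [cnt_prod_left]
    _ ≤ cnt (fun _ : (A → Equiv.Perm Y) × Y => True) := by
        refine cnt_le_of_inj (fun r => (fix_sw r.1.1 (u n) (fix_path r.1.1 u r.1.2 i) r.2, r.1.2)) ?_ fun _ _ => trivial
        rintro ⟨⟨ρ, k⟩, y⟩ ⟨⟨ρ', k'⟩, y'⟩ ⟨h1, h2⟩ ⟨h1', h2'⟩ he
        simp only [Prod.mk.injEq] at he h1 h2 h1' h2'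
        obtain ⟨he, hk⟩ := he
        subst hk
        have hy : y = y' := by
          rw [← fix_last u n i hi hu ρ k y h1 h2, he, fix_last u n i hi hu ρ' k y' h1' h2']
        have hz : fix_path ρ u k i = fix_path ρ' u k i := by
          rw [← fix_same u n i hi hu ρ k y h1 h2 i hi, he, fix_same u n i hi hu ρ' k y' h1' h2' i hi]
        subst hy
        rw [hz] at he
        have := fix_sw_inj _ _ _ _ _ he
        subst this
        rfl
    _ = Fintype.card ((A → Equiv.Perm Y) × Y) := cnt_true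

end fixAux

/-- Let `w = l_ℓ ... l_1` be the reduced word (`FreeGroup.toWord`, letters applied from the right), `ℓ ≥ 1`, and for `ρ : A → Perm (Fin M)`, `k : Fin M` let
`k_0 = k`, `k_j = ρ(l_j) k_{j-1}`. If `k_ℓ = k_0` there is a first `j` with `k_j ∈ {k_0, .., k_{j-1}}`, say `k_j = k_i`, `i < j ≤ ℓ`, and `k_0, .., k_{j-1}`
distinct. For fixed `i < j` we count the pairs `(ρ, k)`: for every `y ∉ {k_0, .., k_{j-1}}` (at least `M - ℓ` choices) let `ρ'` be `ρ` with `ρ(a)` replaced
by `swap k_i y * ρ(a)` if `l_j = a` and by `ρ(a) * swap k_i y` if `l_j = a⁻¹`. As the word is reduced, the path `k_0, .., k_{j-1}` does not use the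
edge `k_{j-1} → k_i` nor the edge ending at `y`, so it is the same for `ρ'`, and `k_j' = y`. The map `(ρ, k, y) ↦ (ρ', k)` is injective (`y = k_j'`, and
`k_i` is read off the path). So the number of pairs `(ρ,k)` is at most `M * #(A → Perm) / (M - ℓ)`. Sum over `i < j ≤ ℓ`: the sum is at most
`ℓ^2 M/(M-ℓ) #(A → Perm) ≤ ε M #(A → Perm)` for large `M`. -/
theorem fixWord {A : Type} [Fintype A] [DecidableEq A] (w : FreeGroup A) (hw : w ≠ 1) {ε : ℝ} (hε : 0 < ε) :
    ∃ M0 : ℕ, ∀ M : ℕ, M0 ≤ M → (∑ ρ : A → Equiv.Perm (Fin M), (cnt (fun k : Fin M => FreeGroup.lift ρ w k = k) : ℝ)) ≤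
      ε * M * Fintype.card (A → Equiv.Perm (Fin M)) := by
  classical
  have hne : w.toWord ≠ [] := fun h => hw (FreeGroup.toWord_eq_nil_iff.1 h)
  obtain ⟨u, hu, hpath⟩ := fix_letters w.toWord FreeGroup.isReduced_toWord hne
  set l := w.toWord.length with hl
  have hl0 : 0 < l := List.length_pos_iff.2 hne
  have hlift : ∀ (Z : Type) (ρ : A → Equiv.Perm Z) (k : Z), FreeGroup.lift ρ w k = fix_path ρ u k l := by
    intro Z ρ k
    rw [← hpath Z ρ k]
    conv_lhs => rw [← FreeGroup.mk_toWord (x := w)]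
    rw [FreeGroup.lift_mk]
    rfl
  obtain ⟨n0, hn0⟩ := exists_nat_ge ((l : ℝ) ^ 2 / ε)
  refine ⟨l + 1 + n0, fun M hM => ?_⟩
  set C := Fintype.card (A → Equiv.Perm (Fin M)) with hC
  -- counting
  have h1 : ∑ ρ : A → Equiv.Perm (Fin M), cnt (fun k : Fin M => FreeGroup.lift ρ w k = k) ≤
      ∑ n ∈ Finset.range l, ∑ i ∈ Finset.range (n + 1), cnt (fun q : (A → Equiv.Perm (Fin M)) × Fin M => fix_ev u n i q.1 q.2) := by
    rw [← cnt_prod_left (fun q : (A → Equiv.Perm (Fin M)) × Fin M => FreeGroup.lift q.1 w q.2 = q.2)]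
    refine (cnt_mono (Q := fun q : (A → Equiv.Perm (Fin M)) × Fin M => ∃ n ∈ Finset.range l, ∃ i ∈ Finset.range (n + 1), fix_ev u n i q.1 q.2)
      fun q hq => ?_).trans ?_
    · rw [hlift] at hq
      obtain ⟨n, i, hn, hi, h⟩ := fix_find u q.1 q.2 l hl0 hq
      exact ⟨n, Finset.mem_range.2 hn, i, Finset.mem_range.2 (by omega), h⟩
    · refine (cnt_exists_le _ _).trans (Finset.sum_le_sum fun n _ => ?_)
      exact cnt_exists_le _ _
  have h2 : ∀ n ∈ Finset.range l, ∀ i ∈ Finset.range (n + 1),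
      cnt (fun q : (A → Equiv.Perm (Fin M)) × Fin M => fix_ev u n i q.1 q.2) * (M - l) ≤ C * M := by
    intro n hn i hi
    rw [Finset.mem_range] at hn hi
    have h3 := fix_count (Y := Fin M) u n i (by omega) fun m hm => hu m (by omega)
    rw [Fintype.card_fin, Fintype.card_prod, Fintype.card_fin] at h3
    refine le_trans (Nat.mul_le_mul_left _ ?_) h3
    omega
  have h3 : (∑ ρ : A → Equiv.Perm (Fin M), cnt (fun k : Fin M => FreeGroup.lift ρ w k = k)) * (M - l) ≤ l ^ 2 * (C * M) := by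
    refine (Nat.mul_le_mul_right _ h1).trans ?_
    rw [Finset.sum_mul]
    have h4 : ∀ n ∈ Finset.range l, (∑ i ∈ Finset.range (n + 1), cnt (fun q : (A → Equiv.Perm (Fin M)) × Fin M => fix_ev u n i q.1 q.2)) * (M - l)
        ≤ l * (C * M) := by
      intro n hn
      rw [Finset.sum_mul]
      refine (Finset.sum_le_sum (h2 n hn)).trans ?_
      rw [Finset.sum_const, Finset.card_range, smul_eq_mul]
      rw [Finset.mem_range] at hn
      exact Nat.mul_le_mul_right _ (by omega)
    refine (Finset.sum_le_sum h4).trans ?_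
    rw [Finset.sum_const, Finset.card_range, smul_eq_mul]
    exact le_of_eq (by ring)
  have hMl : (0 : ℝ) < (M : ℝ) - l := by
    have : (l : ℝ) + 1 + n0 ≤ M := by exact_mod_cast hM
    have h5 : (0 : ℝ) ≤ n0 := Nat.cast_nonneg _
    linarith
  have h6 : (∑ ρ : A → Equiv.Perm (Fin M), (cnt (fun k : Fin M => FreeGroup.lift ρ w k = k) : ℝ)) * ((M : ℝ) - l) ≤ (l : ℝ) ^ 2 * (C * M) := by
    have h7 : (((∑ ρ : A → Equiv.Perm (Fin M), cnt (fun k : Fin M => FreeGroup.lift ρ w k = k)) * (M - l) : ℕ) : ℝ) ≤ ((l ^ 2 * (C * M) : ℕ) : ℝ) := by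
      exact_mod_cast h3
    rw [Nat.cast_mul, Nat.cast_sub (by omega), Nat.cast_sum] at h7
    push_cast at h7
    exact h7
  have h8 : (l : ℝ) ^ 2 ≤ ε * ((M : ℝ) - l) := by
    have h9 : (l : ℝ) ^ 2 / ε ≤ (M : ℝ) - l := by
      have : (l : ℝ) + 1 + n0 ≤ M := by exact_mod_cast hM
      linarith
    rw [div_le_iff₀ hε] at h9
    linarith
  refine le_of_mul_le_mul_right (h6.trans ?_) hMl
  have h10 : (0 : ℝ) ≤ (C : ℝ) * M := by positivity
  nlinarith [mul_le_mul_of_nonneg_right h8 h10]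

end SofE
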