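import Pool.Agent.helper41.SE.EquiLet
import Pool.Agent.helper41.SE.Seq

/-! SE-17: labelled approximations from a cocycle with values in the free group on a sofic quotient. -/

set_option autoImplicit false

namespace SofE

/-- exponent sum mod 2 of the letter `c` -/
noncomputable def expo {A : Type} (c : A) : FreeGroup A →* Multiplicative (ZMod 2) := by
  classical exact FreeGroup.lift (fun d => if d = c then Multiplicative.ofAdd 1 else 1)

/-- letters of a word -/
noncomputable def labSofic_supp {Q : Type} (w : FreeGroup Q) : Finset Q := by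
  classical exact (w.toWord.map Prod.fst).toFinset

theorem labSofic_hom_congr_aux {Q H : Type*} [Group H] (α β : FreeGroup Q →* H) (l : List (Q × Bool))
    (h : ∀ p ∈ l, α (FreeGroup.of p.1) = β (FreeGroup.of p.1)) :
    α (FreeGroup.mk l) = β (FreeGroup.mk l) := by
  induction l with
  | nil =>
    have : (FreeGroup.mk ([] : List (Q × Bool))) = 1 := rfl
    rw [this, map_one, map_one]
  | cons p l ih =>
    have e : (FreeGroup.mk (p :: l) : FreeGroup Q) = FreeGroup.mk [p] * FreeGroup.mk l := by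
      rw [FreeGroup.mul_mk]; rfl
    rw [e, map_mul, map_mul, ih fun q hq => h q (List.mem_cons_of_mem _ hq)]
    congr 1
    have hp := h p List.mem_cons_self
    obtain ⟨x, b⟩ := p
    cases b with
    | true => exact hp
    | false =>
      have e2 : (FreeGroup.mk [(x, false)] : FreeGroup Q) = (FreeGroup.of x)⁻¹ := by
        rw [FreeGroup.of, FreeGroup.inv_mk]; rfl
      rw [e2, map_inv, map_inv, hp]

theorem labSofic_hom_congr {Q : Type} {H : Type*} [Group H] (α β : FreeGroup Q →* H) (w : FreeGroup Q)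
    (h : ∀ x ∈ labSofic_supp w, α (FreeGroup.of x) = β (FreeGroup.of x)) : α w = β w := by
  classical
  have := labSofic_hom_congr_aux α β w.toWord fun p hp => h p.1 (by
    unfold labSofic_supp
    rw [List.mem_toFinset]
    convert List.mem_map_of_mem (f := Prod.fst) hp)
  rwa [FreeGroup.mk_toWord] at this

theorem labSofic_map_ne_one {Q A : Type} (f : Q → A) (w : FreeGroup Q)
    (hf : Set.InjOn f (labSofic_supp w)) (h : FreeGroup.map f w = 1) : w = 1 := by
  classical
  by_cases hQ : Nonempty Q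
  · have h1 : FreeGroup.map (Function.invFunOn f (labSofic_supp w)) (FreeGroup.map f w) = w := by
      have := labSofic_hom_congr
        ((FreeGroup.map (Function.invFunOn f (labSofic_supp w))).comp (FreeGroup.map f))
        (MonoidHom.id _) w (fun x hx => by
          simp only [MonoidHom.comp_apply, FreeGroup.map.of, MonoidHom.id_apply]
          congr 1
          exact hf.leftInvOn_invFunOn (by exact_mod_cast hx))
      simpa using this
    rw [h, map_one] at h1
    exact h1.symm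
  · have : IsEmpty Q := not_nonempty_iff.mp hQ
    exact Subsingleton.elim _ _

/-- the permutations behave well at `i` for elements of `K` -/
def labSoficGood {Q E : Type} [Group Q] (K : Finset Q) (σ0 : Q → Equiv.Perm E) (i : E) : Prop :=
  (∀ x ∈ K, ∀ y ∈ K, σ0 (x * y) i = σ0 x (σ0 y i)) ∧ ∀ x ∈ K, x ≠ 1 → σ0 x i ≠ i

theorem labSofic_one {Q E : Type} [Group Q] {K : Finset Q} {σ0 : Q → Equiv.Perm E} {i : E}
    (h : labSoficGood K σ0 i) (h1 : (1 : Q) ∈ K) : σ0 1 i = i := by
  have := h.1 1 h1 1 h1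
  rw [mul_one] at this
  exact ((σ0 1).injective this).symm

theorem labSofic_inj {Q E : Type} [Group Q] {K S : Finset Q} {σ0 : Q → Equiv.Perm E} {i : E}
    (h : labSoficGood K σ0 i) (h1 : (1 : Q) ∈ K) (hS : ∀ x ∈ S, x ∈ K) (hS' : ∀ x ∈ S, x⁻¹ ∈ K)
    (hSS : ∀ x ∈ S, ∀ y ∈ S, y⁻¹ * x ∈ K) : Set.InjOn (fun x => σ0 x i) S := by
  intro x hx y hy hxy
  have hx' : x ∈ S := hx
  have hy' : y ∈ S := hy
  have e1 : σ0 (y⁻¹ * x) i = i := by
    rw [h.1 _ (hS' y hy') _ (hS x hx')]
    have hxy' : σ0 x i = σ0 y i := hxy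
    rw [hxy', ← h.1 _ (hS' y hy') _ (hS y hy'), inv_mul_cancel, labSofic_one h h1]
  by_contra hne
  refine h.2 _ (hSS x hx' y hy') ?_ e1
  intro h2
  exact hne (inv_mul_eq_one.mp h2).symm

theorem labSofic_cnt_bad {Q E : Type} [Group Q] [Fintype E] {K : Finset Q} {ε' : ℝ}
    {σ0 : Q → Equiv.Perm E} (h : Appr K ε' σ0) (hε' : 0 ≤ ε') :
    (cnt (fun i => ¬ labSoficGood K σ0 i) : ℝ) ≤
      ((K.card : ℝ) ^ 2 + K.card) * ε' * Fintype.card E := by
  classical
  have h1 : cnt (fun i => ¬ labSoficGood K σ0 i) ≤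
      cnt (fun i => ∃ q ∈ K ×ˢ K, σ0 (q.1 * q.2) i ≠ σ0 q.1 (σ0 q.2 i)) +
      cnt (fun i => ∃ x ∈ K, x ≠ 1 ∧ σ0 x i = i) := by
    apply cnt_le_add
    intro i hi
    unfold labSoficGood at hi
    by_contra hcon
    push Not at hcon
    apply hi
    constructor
    · intro x hx y hy
      exact hcon.1 (x, y) (Finset.mem_product.mpr ⟨hx, hy⟩)
    · intro x hx hx1
      exact hcon.2 x hx hx1
  have h2 : (cnt (fun i => ∃ q ∈ K ×ˢ K, σ0 (q.1 * q.2) i ≠ σ0 q.1 (σ0 q.2 i)) : ℝ) ≤
      (K.card : ℝ) ^ 2 * ε' * Fintype.card E := by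
    calc (cnt (fun i => ∃ q ∈ K ×ˢ K, σ0 (q.1 * q.2) i ≠ σ0 q.1 (σ0 q.2 i)) : ℝ)
        ≤ ∑ q ∈ K ×ˢ K, (cnt (fun i => σ0 (q.1 * q.2) i ≠ σ0 q.1 (σ0 q.2 i)) : ℝ) := by
          exact_mod_cast cnt_exists_le (K ×ˢ K) (fun q i => σ0 (q.1 * q.2) i ≠ σ0 q.1 (σ0 q.2 i))
      _ ≤ ∑ q ∈ K ×ˢ K, ε' * Fintype.card E := by
          apply Finset.sum_le_sum
          intro q hq
          rw [Finset.mem_product] at hq
          exact h.mul q.1 hq.1 q.2 hq.2
      _ = _ := by
          rw [Finset.sum_const, Finset.card_product, nsmul_eq_mul]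
          push_cast
          ring
  have h3 : (cnt (fun i => ∃ x ∈ K, x ≠ 1 ∧ σ0 x i = i) : ℝ) ≤
      (K.card : ℝ) * ε' * Fintype.card E := by
    calc (cnt (fun i => ∃ x ∈ K, x ≠ 1 ∧ σ0 x i = i) : ℝ)
        ≤ ∑ x ∈ K, (cnt (fun i => x ≠ 1 ∧ σ0 x i = i) : ℝ) := by
          exact_mod_cast cnt_exists_le K (fun x i => x ≠ 1 ∧ σ0 x i = i)
      _ ≤ ∑ x ∈ K, ε' * Fintype.card E := by
          apply Finset.sum_le_sum
          intro x hx
          by_cases hx1 : x = 1
          · have : cnt (fun i => x ≠ 1 ∧ σ0 x i = i) = 0 := by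
              rw [cnt_eq_zero]
              rintro i ⟨h, _⟩
              exact h hx1
            rw [this]
            simp only [Nat.cast_zero]
            positivity
          · refine le_trans ?_ (h.free x hx hx1)
            exact_mod_cast cnt_mono (P := fun i => x ≠ 1 ∧ σ0 x i = i) (Q := fun i => σ0 x i = i)
              (fun i hi => hi.2)
      _ = _ := by
          rw [Finset.sum_const, nsmul_eq_mul]
          ring
  have h1' : (cnt (fun i => ¬ labSoficGood K σ0 i) : ℝ) ≤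
      (cnt (fun i => ∃ q ∈ K ×ˢ K, σ0 (q.1 * q.2) i ≠ σ0 q.1 (σ0 q.2 i)) : ℝ) +
      (cnt (fun i => ∃ x ∈ K, x ≠ 1 ∧ σ0 x i = i) : ℝ) := by exact_mod_cast h1
  calc _ ≤ _ := h1'
    _ ≤ _ := add_le_add h2 h3
    _ = _ := by ring

/-- Given `F`, `ε`: let `σ0 : Q → Perm E` be an approximation of `Q` (`IsSofic.appr`) for a large finite set `K ⊆ Q` closed under the operations below, containing
`1`, `x0`, the images of `F` and the supports of `ℓ s`, `s ∈ F ∪ {a, b}`, their products and quotients. `A = E`, `σ s = σ0 (φ s)`,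
`L s i = FreeGroup.map (fun x => σ0 x i) (ℓ s)`, `lam i = expo (σ0 x0 i)`. For all `i` outside a small set: `σ0 (x y) i = σ0 x (σ0 y i)` for `x, y ∈ K`, `σ0 x i ≠ i`
for `1 ≠ x ∈ K`, `σ0 1 i = i`, hence `x ↦ σ0 x i` is injective on the relevant finite set (`σ0 x i = σ0 y i` gives `σ0 (y⁻¹ x) i = i`).
`mul`: `L (s t) i = map (x ↦ σ0 x i) (map (· * φ t) (ℓ s) * ℓ t)` and `σ0 (x * φ t) i = σ0 x (σ0 (φ t) i)` on the support of `ℓ s`.
`fix`: `φ s = 1`. `free`: if `φ s ≠ 1` no fixed point; if `φ s = 1` then `ℓ s ≠ 1` and `L s i ≠ 1` as the letter map is injective on the support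
(`FreeGroup.map` of an injective map is injective). `equi`: `heq` for the letter map `x ↦ σ0 x i`, which is injective on the finite set `K0`.
`lam`: `expo (σ0 x0 i) (L s i) = expo x0 (ℓ s)` by injectivity on support `∪ {x0}`. -/
theorem hasLab_sofic {Γ Q : Type} [Group Γ] [Group Q] (φ : Γ →* Q) (ℓ : Γ → FreeGroup Q)
    (hℓ : ∀ s t, ℓ (s * t) = FreeGroup.map (fun x => x * φ t) (ℓ s) * ℓ t) (hinj : ∀ s, φ s = 1 → ℓ s = 1 → s = 1)
    (hQ : ∃ (k : ℕ → ℕ) (π : ∀ n, Q → Equiv.Perm (Fin (k n))), IsSofic k π) (x0 : Q) (a b : Γ) (K0 : Finset Q)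
    (heq : ∀ (A : Type) [Fintype A] [DecidableEq A] (f : Q → A), Set.InjOn f K0 → Equi (FreeGroup.map f (ℓ a)) (FreeGroup.map f (ℓ b))) :
    HasLab φ.ker (fun s => Multiplicative.toAdd (expo x0 (ℓ s))) a b := by
  classical
  intro F ε hε
  obtain ⟨k, π, hπ⟩ := hQ
  obtain ⟨S, hSdef⟩ : ∃ S : Finset Q,
      S = insert 1 (insert x0 (K0 ∪ (F.image φ ∪ F.biUnion (fun s => labSofic_supp (ℓ s))))) :=
    ⟨_, rfl⟩
  obtain ⟨K, hKdef⟩ : ∃ K : Finset Q,
      K = S ∪ (S.image (fun x => x⁻¹) ∪ (S ×ˢ S).image (fun q => q.2⁻¹ * q.1)) := ⟨_, rfl⟩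
  have hSK : ∀ x ∈ S, x ∈ K := fun x hx => hKdef ▸ Finset.mem_union_left _ hx
  have hSK' : ∀ x ∈ S, x⁻¹ ∈ K := fun x hx =>
    hKdef ▸ Finset.mem_union_right _ (Finset.mem_union_left _ (Finset.mem_image_of_mem _ hx))
  have hSSK : ∀ x ∈ S, ∀ y ∈ S, y⁻¹ * x ∈ K := fun x hx y hy =>
    hKdef ▸ Finset.mem_union_right _ (Finset.mem_union_right _
      (Finset.mem_image.mpr ⟨(x, y), Finset.mem_product.mpr ⟨hx, hy⟩, rfl⟩))
  have h1S : (1 : Q) ∈ S := hSdef ▸ Finset.mem_insert_self _ _
  have hx0S : x0 ∈ S := hSdef ▸ Finset.mem_insert_of_mem (Finset.mem_insert_self _ _)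
  have hK0S : ∀ x ∈ K0, x ∈ S := fun x hx =>
    hSdef ▸ Finset.mem_insert_of_mem (Finset.mem_insert_of_mem (Finset.mem_union_left _ hx))
  have hφS : ∀ s ∈ F, φ s ∈ S := fun s hs =>
    hSdef ▸ Finset.mem_insert_of_mem (Finset.mem_insert_of_mem (Finset.mem_union_right _
      (Finset.mem_union_left _ (Finset.mem_image_of_mem _ hs))))
  have hsuppS : ∀ s ∈ F, ∀ x ∈ labSofic_supp (ℓ s), x ∈ S := fun s hs x hx =>
    hSdef ▸ Finset.mem_insert_of_mem (Finset.mem_insert_of_mem (Finset.mem_union_right _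
      (Finset.mem_union_right _ (Finset.mem_biUnion.mpr ⟨s, hs, hx⟩))))
  have h1K := hSK 1 h1S
  set C : ℝ := (K.card : ℝ) ^ 2 + K.card with hC
  have hC0 : 0 ≤ C := by positivity
  set ε' : ℝ := ε / (C + 1) with hε'
  have hε'0 : 0 < ε' := by positivity
  obtain ⟨n, hn⟩ := hπ.appr K hε'0
  have hbad := labSofic_cnt_bad hn hε'0.le
  have hbad' : (cnt (fun i => ¬ labSoficGood K (π n) i) : ℝ) ≤ ε * Fintype.card (Fin (k n)) := by
    refine hbad.trans ?_
    apply mul_le_mul_of_nonneg_right _ (Nat.cast_nonneg _)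
    rw [← hC, hε', ← mul_div_assoc, div_le_iff₀ (by positivity)]
    nlinarith
  have hfin : ∀ P : Fin (k n) → Prop, (∀ i, labSoficGood K (π n) i → ¬ P i) →
      (cnt P : ℝ) ≤ ε * Fintype.card (Fin (k n)) := by
    intro P hP
    refine le_trans ?_ hbad'
    exact_mod_cast cnt_mono fun i hi hg => hP i hg hi
  have hinjS : ∀ i, labSoficGood K (π n) i → Set.InjOn (fun x => π n x i) (S : Set Q) :=
    fun i hg => labSofic_inj hg h1K hSK hSK' hSSK
  refine ⟨Fin (k n), Fin (k n), inferInstance, inferInstance, inferInstance, fun s => π n (φ s),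
    fun s i => FreeGroup.map (fun x => π n x i) (ℓ s), fun i => expo (π n x0 i), ?_⟩
  constructor
  · exact hn.ne
  · intro s hs t ht
    apply hfin
    intro i hg
    rw [not_not]
    constructor
    · rw [map_mul]
      exact hg.1 _ (hSK _ (hφS s hs)) _ (hSK _ (hφS t ht))
    · rw [hℓ s t, map_mul]
      congr 1
      have := labSofic_hom_congr
        ((FreeGroup.map (fun x => π n x i)).comp (FreeGroup.map (fun x => x * φ t)))
        (FreeGroup.map (fun x => π n x (π n (φ t) i))) (ℓ s) (fun x hx => by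
          simp only [MonoidHom.comp_apply, FreeGroup.map.of]
          congr 1
          exact hg.1 _ (hSK _ (hsuppS s hs x hx)) _ (hSK _ (hφS t ht)))
      exact this
  · intro s _ hsN
    apply hfin
    intro i hg
    rw [not_not]
    have : φ s = 1 := hsN
    rw [this]
    exact labSofic_one hg h1K
  · intro s hs hs1
    apply hfin
    rintro i hg ⟨h1, h2⟩
    by_cases hφ : φ s = 1
    · have h3 : ℓ s = 1 := labSofic_map_ne_one _ _
        ((hinjS i hg).mono fun x hx => hsuppS s hs x hx) h2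
      exact hs1 (hinj s hφ h3)
    · exact hg.2 _ (hSK _ (hφS s hs)) hφ h1
  · apply hfin
    intro i hg
    rw [not_not]
    exact heq _ _ ((hinjS i hg).mono fun x hx => hK0S x hx)
  · intro s hs _
    apply hfin
    intro i hg
    rw [not_not]
    have := labSofic_hom_congr
      ((expo (π n x0 i)).comp (FreeGroup.map (fun x => π n x i))) (expo x0) (ℓ s) (fun x hx => by
        simp only [MonoidHom.comp_apply, FreeGroup.map.of, expo, FreeGroup.lift_apply_of]
        have hinj' := hinjS i hg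
        by_cases hxx : x = x0
        · subst hxx
          simp
        · have : π n x i ≠ π n x0 i := fun h => hxx (hinj' (hsuppS s hs x hx) hx0S h)
          simp [hxx, this])
    simpa using this

end SofE
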