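import Pool.Agent.helper41.SE.Cnt

/-! SE-02: counting permutations which nearly carry a partition to a partition; sums over colourings. -/

set_option autoImplicit false

namespace SofE

variable {V I : Type} [Fintype V] [DecidableEq V] [Fintype I] [DecidableEq I] [Nonempty I]

omit [Nonempty I] in
theorem perm_stab (t : V → I) :
    cnt (fun g : Equiv.Perm V => t ∘ g = t) = ∏ i, (cnt (fun v => t v = i)).factorial := by
  rw [cnt_eq, ← Fintype.card_subtype, DomMulAct.stabilizer_card]
  refine Finset.prod_congr rfl fun i _ => ?_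
  rw [cnt_eq, Fintype.card_subtype]

omit [Nonempty I] in
theorem perm_fib_eq (t0 t : V → I) (g0 : Equiv.Perm V) (h : t0 ∘ g0 = t) :
    cnt (fun g : Equiv.Perm V => t0 ∘ g = t) = ∏ i, (cnt (fun v => t0 v = i)).factorial := by
  rw [← perm_stab t0, ← cnt_equiv (Equiv.mulRight g0⁻¹) (fun g : Equiv.Perm V => t0 ∘ g = t0)]
  refine cnt_congr fun g => ?_
  rw [Equiv.coe_mulRight]
  constructor
  · intro hg
    funext v
    have h1 := congrFun (hg.trans h.symm) (g0⁻¹ v)
    simpa using h1
  · intro hg
    rw [← h]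
    funext v
    have h1 := congrFun hg (g0 v)
    simpa using h1

omit [Nonempty I] in
theorem perm_fib_le (t0 t : V → I) :
    cnt (fun g : Equiv.Perm V => t0 ∘ g = t) ≤ ∏ i, (cnt (fun v => t0 v = i)).factorial := by
  by_cases h : ∃ g0 : Equiv.Perm V, t0 ∘ g0 = t
  · obtain ⟨g0, h⟩ := h
    exact (perm_fib_eq t0 t g0 h).le
  · rw [cnt_eq_zero.2 (fun g hg => h ⟨g, hg⟩)]
    exact Nat.zero_le _

omit [DecidableEq I] [Nonempty I] in
theorem perm_fib_sum (t0 : V → I) :
    ∑ t : V → I, cnt (fun g : Equiv.Perm V => t0 ∘ g = t) = (Fintype.card V).factorial := by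
  classical
  rw [← cnt_comm (fun (g : Equiv.Perm V) (t : V → I) => t0 ∘ g = t)]
  have h : ∀ g : Equiv.Perm V, cnt (fun t : V → I => t0 ∘ g = t) = 1 := by
    intro g
    rw [cnt_eq, Finset.filter_eq]
    simp
  simp only [h]
  rw [Finset.sum_const, Finset.card_univ, Fintype.card_perm]
  simp

omit [Nonempty I] in
/-- multinomial bound -/
theorem perm_multi (t0 : V → I) :
    (Fintype.card V).factorial ≤
      Fintype.card I ^ Fintype.card V * ∏ i, (cnt (fun v => t0 v = i)).factorial := by
  rw [← perm_fib_sum t0]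
  refine (Finset.sum_le_sum fun t _ => perm_fib_le t0 t).trans ?_
  rw [Finset.sum_const, Finset.card_univ, smul_eq_mul]
  simp

omit [Nonempty I] in
/-- permutations preserving `D` and preserving `f` off `D` -/
theorem perm_off (f : V → I) (D : Finset V) :
    cnt (fun P : Equiv.Perm V => (∀ k, P k ∈ D ↔ k ∈ D) ∧ ∀ k ∉ D, f (P k) = f k) ≤
      Fintype.card I ^ D.card * ∏ i, (cnt (fun v => f v = i)).factorial := by
  set g : V → Option I := fun k => if k ∈ D then none else some (f k) with hg
  have h1 : cnt (fun P : Equiv.Perm V => (∀ k, P k ∈ D ↔ k ∈ D) ∧ ∀ k ∉ D, f (P k) = f k) ≤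
      cnt (fun P : Equiv.Perm V => g ∘ P = g) := by
    refine cnt_mono fun P hP => ?_
    funext k
    simp only [Function.comp_apply, hg]
    by_cases hk : k ∈ D
    · rw [if_pos hk, if_pos ((hP.1 k).2 hk)]
    · rw [if_neg hk, if_neg (fun h => hk ((hP.1 k).1 h)), hP.2 k hk]
  refine h1.trans ?_
  rw [perm_stab g, Fintype.prod_option]
  have h2 : cnt (fun v => g v = none) = D.card := by
    rw [cnt_eq]
    congr 1
    ext v
    simp [hg]
  have h3 : ∀ i, cnt (fun v => g v = some i) = cnt (fun v => v ∉ D ∧ f v = i) := by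
    intro i
    refine cnt_congr fun v => ?_
    by_cases hv : v ∈ D
    · simp [hg, hv]
    · simp [hg, hv]
  have h4 : ∀ i, cnt (fun v : D => f v = i) = cnt (fun v => v ∈ D ∧ f v = i) := by
    intro i
    rw [cnt_eq, cnt_eq]
    refine Finset.card_bij (fun (a : D) _ => (a : V)) ?_ ?_ ?_
    · intro a ha
      rw [Finset.mem_filter] at ha ⊢
      exact ⟨Finset.mem_univ _, a.2, ha.2⟩
    · intro a _ b _ hab
      exact Subtype.ext hab
    · intro b hb
      rw [Finset.mem_filter] at hb
      exact ⟨⟨b, hb.2.1⟩, by rw [Finset.mem_filter]; exact ⟨Finset.mem_univ _, hb.2.2⟩, rfl⟩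
  have h5 := perm_multi (fun v : D => f v)
  rw [Fintype.card_coe] at h5
  rw [h2]
  simp only [h3, h4] at h5 ⊢
  refine (Nat.mul_le_mul_right _ h5).trans ?_
  rw [mul_assoc, ← Finset.prod_mul_distrib]
  refine Nat.mul_le_mul_left _ (Finset.prod_le_prod' fun i _ => ?_)
  have h6 : cnt (fun v => f v = i) =
      cnt (fun v => v ∈ D ∧ f v = i) + cnt (fun v => v ∉ D ∧ f v = i) := by
    rw [cnt_eq, cnt_eq, cnt_eq, ← Finset.card_union_of_disjoint]
    · congr 1
      ext v
      by_cases hv : v ∈ D <;> simp [hv]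
    · rw [Finset.disjoint_filter]
      intro v _ ha hb
      exact hb.1 ha.1
  rw [h6]
  exact Nat.le_of_dvd (Nat.factorial_pos _) (Nat.factorial_mul_factorial_dvd_factorial_add _ _)

omit [Nonempty I] in
/-- permutations carrying `D` to `E` and the partition to the partition off `D` -/
theorem perm_DE (f : V → I) (τ : Equiv.Perm I) (D E : Finset V) :
    cnt (fun A : Equiv.Perm V => (∀ k, A k ∈ E ↔ k ∈ D) ∧ ∀ k ∉ D, f (A k) = τ (f k)) ≤
      Fintype.card I ^ D.card * ∏ i, (cnt (fun v => f v = i)).factorial := by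
  by_cases h : ∃ A0 : Equiv.Perm V, (∀ k, A0 k ∈ E ↔ k ∈ D) ∧ ∀ k ∉ D, f (A0 k) = τ (f k)
  · obtain ⟨A0, h1, h2⟩ := h
    refine le_trans ?_ (perm_off f D)
    refine cnt_le_of_inj (fun A => A0⁻¹ * A) (fun A B _ _ hAB => mul_left_cancel hAB) ?_
    rintro A ⟨h3, h4⟩
    have h0 : ∀ k, A0 ((A0⁻¹ * A) k) = A k := fun k => by simp
    have h5 : ∀ k, (A0⁻¹ * A) k ∈ D ↔ k ∈ D := by
      intro k
      rw [← h1, ← h3, h0]
    refine ⟨h5, fun k hk => ?_⟩
    have h6 := h2 ((A0⁻¹ * A) k) (fun h => hk ((h5 k).1 h))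
    rw [h0, h4 k hk] at h6
    exact (τ.injective h6).symm
  · rw [cnt_eq_zero.2 (fun A hA => h ⟨A, hA⟩)]
    exact Nat.zero_le _

/-- `A` is in the set iff `D = {k | f (A k) ≠ τ (f k)}` has at most `d` elements. For fixed finite sets `D`, `E` (`|D| = |E| ≤ d`) consider the
permutations `A` with `A '' D = E` and `f (A k) = τ (f k)` for `k ∉ D`. If `A0` is one of them, then `P = A0⁻¹ A` satisfies `P '' D = D` and
`f (P k) = f k` for `k ∉ D`, i.e. `g ∘ P = g` for `g k = if k ∈ D then none else some (f k)`. By `DomMulAct.stabilizer_card` the number of such `P` is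
`∏ (fibres)! = |D|! ∏_i (m_i - d_i)!` with `d_i = |D ∩ f⁻¹ i|`, `∑ d_i = |D|`, and `|D|! / ∏ d_i! ≤ |I|^|D|` (multinomial theorem),
`(m_i - d_i)! d_i! ≤ m_i!`. -/
theorem permCount (f : V → I) (τ : Equiv.Perm I) (d : ℕ) :
    cnt (fun A : Equiv.Perm V => cnt (fun k => f (A k) ≠ τ (f k)) ≤ d) ≤
      (cnt (fun S : Finset V => S.card ≤ d)) ^ 2 * Fintype.card I ^ d * ∏ i, (cnt (fun v => f v = i)).factorial := by
  have hpos : 0 < Fintype.card I := Fintype.card_pos
  set s : Finset (Finset V) := Finset.univ.filter (fun S => S.card ≤ d) with hs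
  have hsc : cnt (fun S : Finset V => S.card ≤ d) = s.card := by rw [cnt_eq]
  have h1 : cnt (fun A : Equiv.Perm V => cnt (fun k => f (A k) ≠ τ (f k)) ≤ d) ≤
      cnt (fun A : Equiv.Perm V => ∃ q ∈ s ×ˢ s,
        (∀ k, A k ∈ q.2 ↔ k ∈ q.1) ∧ ∀ k ∉ q.1, f (A k) = τ (f k)) := by
    refine cnt_mono fun A hA => ?_
    set D : Finset V := Finset.univ.filter (fun k => f (A k) ≠ τ (f k)) with hD
    rw [cnt_eq] at hA
    refine ⟨(D, D.map A.toEmbedding), ?_, ?_, ?_⟩
    · rw [Finset.mem_product, hs, Finset.mem_filter, Finset.mem_filter]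
      refine ⟨⟨Finset.mem_univ _, hA⟩, Finset.mem_univ _, ?_⟩
      simpa using hA
    · intro k
      simp
    · intro k hk
      by_contra hne
      exact hk (by rw [hD, Finset.mem_filter]; exact ⟨Finset.mem_univ _, hne⟩)
  refine h1.trans ((cnt_exists_le (s ×ˢ s) _).trans ?_)
  have h2 : ∀ q ∈ s ×ˢ s, cnt (fun A : Equiv.Perm V =>
      (∀ k, A k ∈ q.2 ↔ k ∈ q.1) ∧ ∀ k ∉ q.1, f (A k) = τ (f k)) ≤
      Fintype.card I ^ d * ∏ i, (cnt (fun v => f v = i)).factorial := by
    intro q hq
    rw [Finset.mem_product, hs, Finset.mem_filter] at hq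
    refine (perm_DE f τ q.1 q.2).trans ?_
    exact Nat.mul_le_mul_right _ (Nat.pow_le_pow_right hpos hq.1.2)
  refine (Finset.sum_le_sum h2).trans ?_
  rw [Finset.sum_const, Finset.card_product, smul_eq_mul, hsc, pow_two]
  exact (by ring_nf : _ = _).le

/-- Group the colourings `t` by the vector `m` of class sizes (`m i ≤ |V|`: at most `(|V|+1)^|I|` vectors). For a fixed `m` (realised by `t0`) the map
`g ↦ t0 ∘ g` from `Perm V` onto `{t | sizes m}` has fibres of size `∏ (m i)!` (`DomMulAct.stabilizer_card`; two colourings with the same sizes differ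
by a permutation), so `#{t | sizes m} * ∏ (m i)! ≤ |V|!`. -/
theorem typeSum : ∑ t : V → I, ∏ i, (cnt (fun v => t v = i)).factorial ≤ (Fintype.card V + 1) ^ Fintype.card I * (Fintype.card V).factorial := by
  set sz : (V → I) → (I → Fin (Fintype.card V + 1)) :=
    fun t i => ⟨cnt (fun v => t v = i), Nat.lt_succ_of_le (cnt_le_card _)⟩ with hsz
  rw [← Finset.sum_fiberwise Finset.univ sz]
  have h1 : ∀ m : I → Fin (Fintype.card V + 1), ∑ t ∈ Finset.univ.filter (fun t => sz t = m),
      ∏ i, (cnt (fun v => t v = i)).factorial ≤ (Fintype.card V).factorial := by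
    intro m
    rcases Finset.eq_empty_or_nonempty (Finset.univ.filter (fun t => sz t = m)) with h0 | ⟨t0, ht0⟩
    · rw [h0, Finset.sum_empty]
      exact Nat.zero_le _
    · rw [Finset.mem_filter] at ht0
      have h2 : ∀ t ∈ Finset.univ.filter (fun t => sz t = m),
          ∏ i, (cnt (fun v => t v = i)).factorial ≤ cnt (fun g : Equiv.Perm V => t0 ∘ g = t) := by
        intro t ht
        rw [Finset.mem_filter] at ht
        have h3 : ∀ i, cnt (fun v => t v = i) = cnt (fun v => t0 v = i) := by
          intro i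
          have h4 := congrArg Fin.val (congrFun (ht.2.trans ht0.2.symm) i)
          exact h4
        have h5 : ∀ i, Nonempty ({a // t a = i} ≃ {b // t0 b = i}) := by
          intro i
          have h6 := h3 i
          rw [cnt_eq, cnt_eq, ← Fintype.card_subtype, ← Fintype.card_subtype] at h6
          exact ⟨Fintype.equivOfCardEq h6⟩
        set g0 : Equiv.Perm V := Equiv.ofFiberEquiv (fun i => Classical.choice (h5 i)) with hg0
        have h7 : t0 ∘ g0 = t := by
          funext v
          exact Equiv.ofFiberEquiv_map _ v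
        rw [perm_fib_eq t0 t g0 h7]
        exact (Finset.prod_congr rfl fun i _ => by rw [h3 i]).le
      refine (Finset.sum_le_sum h2).trans ?_
      rw [← perm_fib_sum t0]
      exact Finset.sum_le_sum_of_subset (Finset.filter_subset _ _)
  refine (Finset.sum_le_sum fun m _ => h1 m).trans ?_
  rw [Finset.sum_const, Finset.card_univ, smul_eq_mul]
  simp

theorem perm_two (m n : ℕ) (h : m ≤ n) : m.factorial * n.factorial * 2 ^ m ≤ (m + n).factorial := by
  induction m with
  | zero => simp
  | succ m ih =>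
    have ih' := ih (by omega)
    have h1 : (m + 1 + n).factorial = (m + n + 1) * (m + n).factorial := by
      rw [show m + 1 + n = m + n + 1 by ring, Nat.factorial_succ]
    rw [h1, Nat.factorial_succ, pow_succ]
    calc (m + 1) * m.factorial * n.factorial * (2 ^ m * 2)
        = (2 * (m + 1)) * (m.factorial * n.factorial * 2 ^ m) := by ring
      _ ≤ (m + n + 1) * (m + n).factorial := Nat.mul_le_mul (by omega) ih'

theorem perm_two' (m n : ℕ) :
    m.factorial * n.factorial * 2 ^ (min m n) ≤ (m + n).factorial := by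
  rcases le_total m n with h | h
  · rw [min_eq_left h]
    exact perm_two m n h
  · rw [min_eq_right h, mul_comm m.factorial, add_comm m n]
    exact perm_two n m h

omit [DecidableEq V] [Nonempty I] in
theorem perm_sum_cnt (f : V → I) : ∑ l, cnt (fun v => f v = l) = Fintype.card V := by
  classical
  rw [← cnt_comm (fun (v : V) (l : I) => f v = l)]
  have h : ∀ v : V, cnt (fun l : I => f v = l) = 1 := by
    intro v
    rw [cnt_eq, Finset.filter_eq]
    simp
  simp only [h]
  simp

/-- `m! n! 2^(min m n) ≤ (m+n)!` and `Nat.prod_factorial_dvd_factorial_sum` for the other classes -/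
theorem prodFact (f : V → I) {i j : I} (hij : i ≠ j) :
    (∏ l, (cnt (fun v => f v = l)).factorial) * 2 ^ (min (cnt (fun v => f v = i)) (cnt (fun v => f v = j))) ≤ (Fintype.card V).factorial := by
  rw [← perm_sum_cnt f]
  set m : I → ℕ := fun l => cnt (fun v => f v = l) with hm
  change (∏ l, (m l).factorial) * 2 ^ (min (m i) (m j)) ≤ (∑ l, m l).factorial
  have hj : j ∈ Finset.univ.erase i := Finset.mem_erase.2 ⟨hij.symm, Finset.mem_univ _⟩
  have h1 : ∏ l, (m l).factorial =
      (m i).factorial * ((m j).factorial * ∏ l ∈ (Finset.univ.erase i).erase j, (m l).factorial) := by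
    rw [Finset.mul_prod_erase _ (fun l => (m l).factorial) hj,
      Finset.mul_prod_erase _ (fun l => (m l).factorial) (Finset.mem_univ i)]
  have h2 : ∑ l, m l = m i + (m j + ∑ l ∈ (Finset.univ.erase i).erase j, m l) := by
    rw [Finset.add_sum_erase _ m hj, Finset.add_sum_erase _ m (Finset.mem_univ i)]
  rw [h1, h2]
  set P := ∏ l ∈ (Finset.univ.erase i).erase j, (m l).factorial
  set Q := ∑ l ∈ (Finset.univ.erase i).erase j, m l with hQ
  have h3 : P ≤ Q.factorial :=
    Nat.le_of_dvd (Nat.factorial_pos _) (Nat.prod_factorial_dvd_factorial_sum _ _)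
  have h4 : (m i + m j).factorial * Q.factorial ≤ (m i + m j + Q).factorial :=
    Nat.le_of_dvd (Nat.factorial_pos _) (Nat.factorial_mul_factorial_dvd_factorial_add _ _)
  calc (m i).factorial * ((m j).factorial * P) * 2 ^ (min (m i) (m j))
      = ((m i).factorial * (m j).factorial * 2 ^ (min (m i) (m j))) * P := by ring
    _ ≤ (m i + m j).factorial * Q.factorial := Nat.mul_le_mul (perm_two' _ _) h3
    _ ≤ (m i + m j + Q).factorial := h4
    _ = (m i + (m j + Q)).factorial := by rw [add_assoc]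

end SofE
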