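import Pool.Agent.helper41.SE.Ham
import Pool.Agent.helper41.SE.Perm

/-! SE-03: most pairs of permutations are good. -/

set_option autoImplicit false

namespace SofE

/-- weighted count of the configurations -/
theorem nc_aux (x θ : ℝ) (hx : 0 < x) (hx1 : x ≤ 1) (V : Type) [Fintype V] [DecidableEq V] :
    (cnt (fun c : V → Al => (cnt (fun v => tt (c v) ≠ none) : ℝ) ≤ θ * Fintype.card V) : ℝ) *
      x ^ (θ * Fintype.card V) ≤ (2 + 6 * x) ^ Fintype.card V := by
  classical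
  set w : Al → ℝ := fun a => if tt a ≠ none then x else 1 with hw
  have hw0 : ∀ a, 0 ≤ w a := by
    intro a
    simp only [hw]
    split_ifs
    · exact hx.le
    · exact zero_le_one
  have hsum : ∑ a : Al, w a = 2 + 6 * x := by
    rw [Fintype.sum_sum_type]
    have h1 : ∀ a : Bool, w (Sum.inl a) = 1 := fun a => by simp [hw, tt]
    have h2 : ∀ a : ZMod 2 × Fin 3, w (Sum.inr a) = x := fun a => by simp [hw, tt]
    simp only [h1, h2, Finset.sum_const, Finset.card_univ, Fintype.card_bool, Fintype.card_prod,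
      ZMod.card, Fintype.card_fin, nsmul_eq_mul]
    norm_num
  have hprod : ∀ c : V → Al, ∏ v, w (c v) = x ^ (cnt (fun v => tt (c v) ≠ none)) := by
    intro c
    rw [cnt_eq]
    simp only [hw]
    rw [Finset.prod_ite, Finset.prod_const, Finset.prod_const_one, mul_one]
  rw [cnt_eq, ← nsmul_eq_mul, ← Finset.sum_const]
  calc ∑ _c ∈ Finset.univ.filter (fun c : V → Al => (cnt (fun v => tt (c v) ≠ none) : ℝ) ≤ θ * Fintype.card V),
        x ^ (θ * Fintype.card V)
      ≤ ∑ c ∈ Finset.univ.filter (fun c : V → Al => (cnt (fun v => tt (c v) ≠ none) : ℝ) ≤ θ * Fintype.card V),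
        ∏ v, w (c v) := by
        apply Finset.sum_le_sum
        intro c hc
        rw [hprod, ← Real.rpow_natCast]
        exact Real.rpow_le_rpow_of_exponent_ge hx hx1 (Finset.mem_filter.mp hc).2
    _ ≤ ∑ c : V → Al, ∏ v, w (c v) :=
        Finset.sum_le_sum_of_subset_of_nonneg (Finset.filter_subset _ _)
          (fun c _ _ => Finset.prod_nonneg (fun v _ => hw0 _))
    _ = ∏ v : V, ∑ a, w a := by
        rw [Finset.prod_univ_sum, Fintype.piFinset_univ]
    _ = (2 + 6 * x) ^ Fintype.card V := by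
        rw [Finset.prod_const, hsum, Finset.card_univ]

/-- the number of configurations with few symbols of type `some`: `∑_{S small} 2^(M-|S|) 6^|S| ≤ 2^M 3^(θM) #{S}` (map `c` to the set `S` of points
with type `some` and to the pair of functions `V → Bool`, `S → Fin 6`; or bound by `#{S} * 2^M * 3^(θ M)` via `∑_c ∏ ..`) -/
theorem fewSome {η : ℝ} (hη : 0 < η) : ∃ θ : ℝ, 0 < θ ∧ ∀ (V : Type) [Fintype V] [DecidableEq V],
    (cnt (fun c : V → Al => (cnt (fun v => tt (c v) ≠ none) : ℝ) ≤ θ * Fintype.card V) : ℝ) ≤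
      Real.exp ((Real.log 2 + η) * Fintype.card V) := by
  set x : ℝ := min (1 / 2) (η / 6) with hxdef
  have hx : 0 < x := lt_min (by norm_num) (by positivity)
  have hx2 : x ≤ 1 / 2 := min_le_left _ _
  have hx3 : x ≤ η / 6 := min_le_right _ _
  have hL : 0 < -Real.log x := by
    have := Real.log_neg hx (by linarith)
    linarith
  refine ⟨η / (2 * (-Real.log x)), by positivity, fun V _ _ => ?_⟩
  set θ : ℝ := η / (2 * (-Real.log x)) with hθ
  have h1 := nc_aux x θ hx (by linarith) V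
  set M : ℝ := (Fintype.card V : ℝ) with hM
  have hM0 : 0 ≤ M := Nat.cast_nonneg _
  have h2 : (2 + 6 * x) ^ Fintype.card V ≤ Real.exp ((Real.log 2 + 3 * x) * M) := by
    have h3 : 2 + 6 * x ≤ Real.exp (Real.log 2 + 3 * x) := by
      rw [Real.exp_add, Real.exp_log (by norm_num : (0 : ℝ) < 2)]
      have := Real.add_one_le_exp (3 * x)
      linarith
    calc (2 + 6 * x) ^ Fintype.card V ≤ (Real.exp (Real.log 2 + 3 * x)) ^ Fintype.card V := by
          gcongr
      _ = Real.exp ((Real.log 2 + 3 * x) * M) := by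
          rw [← Real.exp_nat_mul, hM]
          ring_nf
  have h4 : x ^ (θ * M) = Real.exp (Real.log x * (θ * M)) := Real.rpow_def_of_pos hx _
  rw [h4] at h1
  have h5 := h1.trans h2
  have h6 : (cnt (fun c : V → Al => (cnt (fun v => tt (c v) ≠ none) : ℝ) ≤ θ * M) : ℝ) ≤
      Real.exp ((Real.log 2 + 3 * x) * M) * Real.exp (-(Real.log x * (θ * M))) := by
    rw [Real.exp_neg, ← div_eq_mul_inv, le_div_iff₀ (Real.exp_pos _)]
    exact h5
  refine h6.trans ?_
  rw [← Real.exp_add]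
  apply Real.exp_le_exp.mpr
  have h7 : -(Real.log x * (θ * M)) = η / 2 * M := by
    have hL' : Real.log x ≠ 0 := by
      intro h0
      rw [h0] at hL
      simp at hL
    rw [hθ]
    field_simp
  rw [h7]
  nlinarith [mul_le_mul_of_nonneg_right hx3 hM0]

/-- the type shift as a permutation -/
def nc_shp (z : ZMod 2) : Equiv.Perm (Option (ZMod 2)) := Equiv.optionCongr (Equiv.addRight z)

theorem nc_shp_apply (z : ZMod 2) (o : Option (ZMod 2)) : nc_shp z o = sh z o := by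
  unfold nc_shp sh
  rw [Equiv.optionCongr_apply]
  rfl

/-- class sizes -/
noncomputable def ncm {M : ℕ} (t : Fin M → Option (ZMod 2)) (i : Option (ZMod 2)) : ℕ := cnt (fun v => t v = i)

/-- `A` is nearly constrained for `t` and the shift `z` -/
def ncA {M : ℕ} (d : ℕ) (z : ZMod 2) (t : Fin M → Option (ZMod 2)) (A : Equiv.Perm (Fin M)) : Prop :=
  cnt (fun v => t (A v) ≠ nc_shp z (t v)) ≤ d

theorem nc_card_bound {M d : ℕ} (t : Fin M → Option (ZMod 2)) (A : Equiv.Perm (Fin M)) (z : ZMod 2)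
    (h : ncA d z t A) (i : Option (ZMod 2)) : ncm t i ≤ ncm t (nc_shp z i) + d := by
  have h1 : ncm t i ≤ cnt (fun v => t (A v) = nc_shp z i) + cnt (fun v => t (A v) ≠ nc_shp z (t v)) := by
    apply cnt_le_add
    intro v hv
    by_cases h2 : t (A v) = nc_shp z (t v)
    · left
      rw [h2, hv]
    · right
      exact h2
  have h3 : cnt (fun v => t (A v) = nc_shp z i) = ncm t (nc_shp z i) :=
    cnt_equiv A (fun v => t v = nc_shp z i)
  rw [h3] at h1
  exact h1.trans (Nat.add_le_add_left h _)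

theorem nc_some_card {M : ℕ} (t : Fin M → Option (ZMod 2)) :
    cnt (fun v => t v ≠ none) ≤ ncm t (some 0) + ncm t (some 1) := by
  apply cnt_le_add
  intro v hv
  obtain ⟨z, hz⟩ := Option.ne_none_iff_exists'.mp hv
  have hz2 : ∀ z : ZMod 2, z = 0 ∨ z = 1 := by decide
  have hz2 := hz2 z
  rcases hz2 with h | h
  · left
    rw [hz, h]
  · right
    rw [hz, h]

/-- the main estimate for one type function -/
theorem nc_one {M d : ℕ} {θ : ℝ} (q : ZMod 2) (t : Fin M → Option (ZMod 2)) :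
    (cnt (fun P : Equiv.Perm (Fin M) × Equiv.Perm (Fin M) =>
      (θ * M < (cnt (fun v => t v ≠ none) : ℝ)) ∧ (ncA d 1 t P.1 ∧ ncA d q t P.2)) : ℝ) ≤
    ((cnt (fun S : Finset (Fin M) => S.card ≤ d) : ℝ) ^ 4 * 3 ^ (2 * d) * M.factorial *
      (2 : ℝ) ^ (-((θ * M - d) / 2))) * ((∏ i, (cnt (fun v => t v = i)).factorial : ℕ) : ℝ) := by
  classical
  set H : ℝ := (cnt (fun S : Finset (Fin M) => S.card ≤ d) : ℝ) with hH
  have hH0 : 0 ≤ H := Nat.cast_nonneg _
  set F : ℕ := ∏ i, (cnt (fun v => t v = i)).factorial with hF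
  by_cases hz : cnt (fun P : Equiv.Perm (Fin M) × Equiv.Perm (Fin M) =>
      (θ * M < (cnt (fun v => t v ≠ none) : ℝ)) ∧ (ncA d 1 t P.1 ∧ ncA d q t P.2)) = 0
  · rw [hz, Nat.cast_zero]
    positivity
  obtain ⟨P, hbig, hP1, hP2⟩ := cnt_pos.mp (Nat.pos_of_ne_zero hz)
  -- class sizes
  have e1 : nc_shp 1 (some 0) = some 1 := by
    rw [nc_shp_apply]; rfl
  have e2 : nc_shp 1 (some 1) = some 0 := by
    rw [nc_shp_apply]; rfl
  have c1 := nc_card_bound t P.1 1 hP1 (some 0)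
  have c2 := nc_card_bound t P.1 1 hP1 (some 1)
  rw [e1] at c1
  rw [e2] at c2
  have c3 := nc_some_card t
  have hmin : (θ * M - d) / 2 ≤ ((min (ncm t (some 0)) (ncm t (some 1)) : ℕ) : ℝ) := by
    have c1' : (ncm t (some 0) : ℝ) ≤ ncm t (some 1) + d := by exact_mod_cast c1
    have c2' : (ncm t (some 1) : ℝ) ≤ ncm t (some 0) + d := by exact_mod_cast c2
    have c3' : (cnt (fun v => t v ≠ none) : ℝ) ≤ ncm t (some 0) + ncm t (some 1) := by exact_mod_cast c3
    rw [Nat.cast_min]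
    apply le_min <;> linarith
  have hpf := prodFact t (i := some 0) (j := some 1) (by decide)
  have hpf' : (F : ℝ) * (2 : ℝ) ^ ((θ * M - d) / 2) ≤ (M.factorial : ℝ) := by
    have h1 : ((F * 2 ^ (min (ncm t (some 0)) (ncm t (some 1))) : ℕ) : ℝ) ≤ ((Fintype.card (Fin M)).factorial : ℝ) :=
      by exact_mod_cast hpf
    rw [Fintype.card_fin, Nat.cast_mul, Nat.cast_pow, Nat.cast_ofNat] at h1
    refine le_trans ?_ h1
    have h2 : (2 : ℝ) ^ ((θ * M - d) / 2) ≤ (2 : ℝ) ^ (min (ncm t (some 0)) (ncm t (some 1))) := by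
      rw [← Real.rpow_natCast]
      exact Real.rpow_le_rpow_of_exponent_le (by norm_num) hmin
    exact mul_le_mul_of_nonneg_left h2 (Nat.cast_nonneg _)
  have hF2 : (F : ℝ) ≤ (M.factorial : ℝ) * (2 : ℝ) ^ (-((θ * M - d) / 2)) := by
    rw [Real.rpow_neg (by norm_num), ← div_eq_mul_inv, le_div_iff₀ (by positivity)]
    exact hpf'
  -- permutation counts
  have hX : ∀ z : ZMod 2, (cnt (fun A : Equiv.Perm (Fin M) => ncA d z t A) : ℝ) ≤ H ^ 2 * 3 ^ d * F := by
    intro z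
    have h := permCount t (nc_shp z) d
    have hc : Fintype.card (Option (ZMod 2)) = 3 := by
      rw [Fintype.card_option, ZMod.card]
    rw [hc] at h
    have h' : ((cnt (fun A : Equiv.Perm (Fin M) => ncA d z t A) : ℕ) : ℝ) ≤
        (((cnt (fun S : Finset (Fin M) => S.card ≤ d)) ^ 2 * 3 ^ d *
          ∏ i, (cnt (fun v => t v = i)).factorial : ℕ) : ℝ) := by exact_mod_cast h
    rw [Nat.cast_mul, Nat.cast_mul, Nat.cast_pow, Nat.cast_pow, Nat.cast_ofNat] at h'
    exact h'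
  have hcnt : (cnt (fun P : Equiv.Perm (Fin M) × Equiv.Perm (Fin M) =>
      (θ * M < (cnt (fun v => t v ≠ none) : ℝ)) ∧ (ncA d 1 t P.1 ∧ ncA d q t P.2)) : ℝ) ≤
      (cnt (fun A : Equiv.Perm (Fin M) => ncA d 1 t A) : ℝ) * (cnt (fun A : Equiv.Perm (Fin M) => ncA d q t A) : ℝ) := by
    rw [← Nat.cast_mul, ← cnt_prod]
    have hm : cnt (fun P : Equiv.Perm (Fin M) × Equiv.Perm (Fin M) =>
      (θ * M < (cnt (fun v => t v ≠ none) : ℝ)) ∧ (ncA d 1 t P.1 ∧ ncA d q t P.2)) ≤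
      cnt (fun P : Equiv.Perm (Fin M) × Equiv.Perm (Fin M) => ncA d 1 t P.1 ∧ ncA d q t P.2) :=
      cnt_mono (fun P h => h.2)
    exact_mod_cast hm
  calc (cnt (fun P : Equiv.Perm (Fin M) × Equiv.Perm (Fin M) =>
      (θ * M < (cnt (fun v => t v ≠ none) : ℝ)) ∧ (ncA d 1 t P.1 ∧ ncA d q t P.2)) : ℝ)
      ≤ (cnt (fun A : Equiv.Perm (Fin M) => ncA d 1 t A) : ℝ) * (cnt (fun A : Equiv.Perm (Fin M) => ncA d q t A) : ℝ) := hcnt
    _ ≤ (H ^ 2 * 3 ^ d * F) * (H ^ 2 * 3 ^ d * F) :=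
        mul_le_mul (hX 1) (hX q) (Nat.cast_nonneg _) (by positivity)
    _ = (H ^ 4 * 3 ^ (2 * d) * F) * F := by ring
    _ ≤ (H ^ 4 * 3 ^ (2 * d) * ((M.factorial : ℝ) * (2 : ℝ) ^ (-((θ * M - d) / 2)))) * F := by
        gcongr
    _ = _ := by ring

/-- sum over all type functions -/
theorem nc_sum {M d : ℕ} {θ : ℝ} (q : ZMod 2) :
    (cnt (fun P : Equiv.Perm (Fin M) × Equiv.Perm (Fin M) => ∃ t : Fin M → Option (ZMod 2),
      (θ * M < (cnt (fun v => t v ≠ none) : ℝ)) ∧ (ncA d 1 t P.1 ∧ ncA d q t P.2)) : ℝ) ≤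
    ((cnt (fun S : Finset (Fin M) => S.card ≤ d) : ℝ) ^ 4 * 3 ^ (2 * d) *
      (2 : ℝ) ^ (-((θ * M - d) / 2))) * (M + 1) ^ 3 * (M.factorial : ℝ) ^ 2 := by
  classical
  have h1 := cnt_exists_le' (fun (t : Fin M → Option (ZMod 2)) (P : Equiv.Perm (Fin M) × Equiv.Perm (Fin M)) =>
      (θ * M < (cnt (fun v => t v ≠ none) : ℝ)) ∧ (ncA d 1 t P.1 ∧ ncA d q t P.2))
  have h2 : (cnt (fun P : Equiv.Perm (Fin M) × Equiv.Perm (Fin M) => ∃ t : Fin M → Option (ZMod 2),
      (θ * M < (cnt (fun v => t v ≠ none) : ℝ)) ∧ (ncA d 1 t P.1 ∧ ncA d q t P.2)) : ℝ) ≤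
      ∑ t : Fin M → Option (ZMod 2), (cnt (fun P : Equiv.Perm (Fin M) × Equiv.Perm (Fin M) =>
      (θ * M < (cnt (fun v => t v ≠ none) : ℝ)) ∧ (ncA d 1 t P.1 ∧ ncA d q t P.2)) : ℝ) := by
    exact_mod_cast h1
  refine h2.trans ((Finset.sum_le_sum fun t _ => nc_one (θ := θ) (d := d) q t).trans ?_)
  rw [← Finset.mul_sum]
  have h3 : ((∑ t : Fin M → Option (ZMod 2), ∏ i, (cnt (fun v => t v = i)).factorial : ℕ) : ℝ) ≤
      (((Fintype.card (Fin M) + 1) ^ Fintype.card (Option (ZMod 2)) * (Fintype.card (Fin M)).factorial : ℕ) : ℝ) := by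
    exact_mod_cast typeSum (V := Fin M) (I := Option (ZMod 2))
  have hc : Fintype.card (Option (ZMod 2)) = 3 := by
    rw [Fintype.card_option, ZMod.card]
  rw [hc, Fintype.card_fin, Nat.cast_mul, Nat.cast_pow, Nat.cast_add, Nat.cast_one, Nat.cast_sum] at h3
  calc ((cnt (fun S : Finset (Fin M) => S.card ≤ d) : ℝ) ^ 4 * 3 ^ (2 * d) * M.factorial *
      (2 : ℝ) ^ (-((θ * M - d) / 2))) * ∑ t : Fin M → Option (ZMod 2), ((∏ i, (cnt (fun v => t v = i)).factorial : ℕ) : ℝ)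
      ≤ ((cnt (fun S : Finset (Fin M) => S.card ≤ d) : ℝ) ^ 4 * 3 ^ (2 * d) * M.factorial *
      (2 : ℝ) ^ (-((θ * M - d) / 2))) * (((M : ℝ) + 1) ^ 3 * (M.factorial : ℝ)) := by
        apply mul_le_mul_of_nonneg_left h3
        positivity
    _ = _ := by ring

/-- `(M+1)^3 exp (-c M)` tends to zero -/
theorem nc_tend {c : ℝ} (hc : 0 < c) {κ : ℝ} (hκ : 0 < κ) :
    ∃ M0 : ℕ, ∀ M : ℕ, M0 ≤ M → ((M : ℝ) + 1) ^ 3 * Real.exp (-(c * M)) ≤ κ := by
  have h1 := Real.tendsto_pow_mul_exp_neg_atTop_nhds_zero 3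
  have h2 : Filter.Tendsto (fun M : ℕ => c * ((M : ℝ) + 1)) Filter.atTop Filter.atTop := by
    apply Filter.Tendsto.const_mul_atTop hc
    exact Filter.tendsto_atTop_add_const_right _ _ tendsto_natCast_atTop_atTop
  have h3 := h1.comp h2
  have h4 : 0 < κ * c ^ 3 * Real.exp (-c) := by positivity
  have h5 := (h3.eventually_le_const h4)
  obtain ⟨M0, hM0⟩ := Filter.eventually_atTop.mp h5
  refine ⟨M0, fun M hM => ?_⟩
  have h6 : (c * ((M : ℝ) + 1)) ^ 3 * Real.exp (-(c * ((M : ℝ) + 1))) ≤ κ * c ^ 3 * Real.exp (-c) := hM0 M hM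
  have h7 : Real.exp (-(c * ((M : ℝ) + 1))) = Real.exp (-(c * M)) * Real.exp (-c) := by
    rw [← Real.exp_add]
    ring_nf
  rw [h7, mul_pow] at h6
  have h8 : c ^ 3 * Real.exp (-c) * (((M : ℝ) + 1) ^ 3 * Real.exp (-(c * M))) ≤ c ^ 3 * Real.exp (-c) * κ := by
    calc c ^ 3 * Real.exp (-c) * (((M : ℝ) + 1) ^ 3 * Real.exp (-(c * M)))
        = c ^ 3 * ((M : ℝ) + 1) ^ 3 * (Real.exp (-(c * M)) * Real.exp (-c)) := by ring
      _ ≤ κ * c ^ 3 * Real.exp (-c) := h6
      _ = _ := by ring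
  exact le_of_mul_le_mul_left h8 (by positivity)

/-- Let `θ` be as in `fewSome`. If `GoodPair η δ q A B` fails, then (by `fewSome`) there is a configuration `c` which is nearly constrained for `A` and `B`
and has more than `θ M` points of type `some`; let `t = tt ∘ c : V → Option (ZMod 2)`, `m_i` its class sizes, `d = ⌊δ M⌋`. The map `A` sends the class
`some 0` up to `d` errors into the class `some 1` and conversely, so `|m_0 - m_1| ≤ d` and `min (m_0, m_1) ≥ (θ - δ) M / 2`. So the number of bad pairs is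
at most `∑_t` (such `t`) `#{A nearly constrained} * #{B nearly constrained}`. Each factor is `≤ H^2 3^d ∏ m_i!` by `permCount` (with
`τ = sh 1`, `τ = sh q` as permutations of `Option (ZMod 2)`), `H = #{S | |S| ≤ d} ≤ exp (η2 M)` (`ham_set`, `δ` small). By `prodFact`
`∏ m_i! ≤ M! 2^{-(θ-δ)M/2}` and by `typeSum` `∑_t ∏ m_i! ≤ (M+1)^3 M!`. Total: `(M!)^2 (M+1)^3 exp (M (4 η2 + 2 δ log 3 - (θ-δ)(log 2)/2))`; choose
`δ`, `η2` so small that the exponent is `≤ - θ (log 2) M / 8`; for `M ≥ M0(κ)` this is `≤ κ (M!)^2`. -/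
theorem goodPairs {η : ℝ} (hη : 0 < η) : ∃ δ : ℝ, 0 < δ ∧ ∀ κ : ℝ, 0 < κ → ∃ M0 : ℕ, ∀ M : ℕ, M0 ≤ M → ∀ q : ZMod 2,
    (cnt (fun P : Equiv.Perm (Fin M) × Equiv.Perm (Fin M) => ¬ GoodPair η δ q P.1 P.2) : ℝ) ≤ κ * (M.factorial : ℝ) ^ 2 := by
  classical
  obtain ⟨θ, hθ, hfew⟩ := fewSome hη
  have hlog2 : 0 < Real.log 2 := Real.log_pos (by norm_num)
  have hη2 : 0 < θ * Real.log 2 / 32 := by positivity
  obtain ⟨θ2, hθ2, -, hham⟩ := ham_set hη2
  set δ : ℝ := min θ2 (θ / 36) with hδdef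
  have hδ : 0 < δ := lt_min hθ2 (by positivity)
  have hδ1 : δ ≤ θ2 := min_le_left _ _
  have hδ2 : δ ≤ θ / 36 := min_le_right _ _
  refine ⟨δ, hδ, fun κ hκ => ?_⟩
  have hc : 0 < θ * Real.log 2 / 4 := by positivity
  obtain ⟨M0, hM0⟩ := nc_tend hc hκ
  refine ⟨M0, fun M hM q => ?_⟩
  set d : ℕ := ⌊δ * M⌋₊ with hd
  have hdM : 0 ≤ δ * M := by positivity
  have hdle : (d : ℝ) ≤ δ * M := Nat.floor_le hdM
  have hMr : (0 : ℝ) ≤ M := Nat.cast_nonneg _
  -- reduction to type functions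
  have hred : (cnt (fun P : Equiv.Perm (Fin M) × Equiv.Perm (Fin M) => ¬ GoodPair η δ q P.1 P.2) : ℝ) ≤
      (cnt (fun P : Equiv.Perm (Fin M) × Equiv.Perm (Fin M) => ∃ t : Fin M → Option (ZMod 2),
      (θ * M < (cnt (fun v => t v ≠ none) : ℝ)) ∧ (ncA d 1 t P.1 ∧ ncA d q t P.2)) : ℝ) := by
    have h : cnt (fun P : Equiv.Perm (Fin M) × Equiv.Perm (Fin M) => ¬ GoodPair η δ q P.1 P.2) ≤
      cnt (fun P : Equiv.Perm (Fin M) × Equiv.Perm (Fin M) => ∃ t : Fin M → Option (ZMod 2),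
      (θ * M < (cnt (fun v => t v ≠ none) : ℝ)) ∧ (ncA d 1 t P.1 ∧ ncA d q t P.2)) := by
      apply cnt_mono
      rintro ⟨A, B⟩ hP
      by_contra hcon
      push Not at hcon
      apply hP
      unfold GoodPair
      refine le_trans ?_ (hfew (Fin M))
      have h2 : cnt (fun c : Fin M → Al => near δ A 1 c ∧ near δ B q c) ≤
          cnt (fun c : Fin M → Al => (cnt (fun v => tt (c v) ≠ none) : ℝ) ≤ θ * Fintype.card (Fin M)) := by
        apply cnt_mono
        rintro c ⟨hA, hB⟩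
        by_contra hbig
        rw [not_le, Fintype.card_fin] at hbig
        have hnear : ∀ (z : ZMod 2) (A : Equiv.Perm (Fin M)), near δ A z c → ncA d z (fun v => tt (c v)) A := by
          intro z A hA
          unfold near at hA
          unfold ncA
          rw [Fintype.card_fin] at hA
          apply Nat.le_floor
          have e : cnt (fun v => tt (c (A v)) ≠ nc_shp z (tt (c v))) =
              cnt (fun v => tt (c (A v)) ≠ sh z (tt (c v))) :=
            cnt_congr fun v => by rw [nc_shp_apply]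
          rw [e]
          exact hA
        exact hcon (fun v => tt (c v)) hbig (hnear 1 A hA) (hnear q B hB)
      exact_mod_cast h2
    exact_mod_cast h
  refine hred.trans ((nc_sum (θ := θ) (d := d) q).trans ?_)
  have hfac : (0 : ℝ) ≤ (M.factorial : ℝ) ^ 2 := by positivity
  apply mul_le_mul_of_nonneg_right _ hfac
  -- the exponential estimate
  have hH : (cnt (fun S : Finset (Fin M) => S.card ≤ d) : ℝ) ≤ Real.exp (θ * Real.log 2 / 32 * M) := by
    have h1 := hham (Fin M)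
    rw [Fintype.card_fin] at h1
    refine le_trans ?_ h1
    have h2 : cnt (fun S : Finset (Fin M) => S.card ≤ d) ≤
        cnt (fun S : Finset (Fin M) => (S.card : ℝ) ≤ θ2 * M) := by
      apply cnt_mono
      intro S hS
      have h3 : (S.card : ℝ) ≤ d := by exact_mod_cast hS
      exact h3.trans (hdle.trans (mul_le_mul_of_nonneg_right hδ1 hMr))
    exact_mod_cast h2
  have h3d : (3 : ℝ) ^ (2 * d) ≤ Real.exp (4 * Real.log 2 * (δ * M)) := by
    have h1 : (3 : ℝ) ^ (2 * d) ≤ (4 : ℝ) ^ (2 * d) := by gcongr; norm_num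
    have h2 : (4 : ℝ) ^ (2 * d) = Real.exp (4 * Real.log 2 * d) := by
      have h4 : (4 : ℝ) = Real.exp (2 * Real.log 2) := by
        rw [two_mul, Real.exp_add, Real.exp_log (by norm_num : (0 : ℝ) < 2)]
        norm_num
      rw [h4, ← Real.exp_nat_mul]
      congr 1
      push_cast
      rw [← h4]
      ring
    rw [h2] at h1
    refine h1.trans (Real.exp_le_exp.mpr ?_)
    exact mul_le_mul_of_nonneg_left hdle (by positivity)
  have h2e : (2 : ℝ) ^ (-((θ * M - d) / 2)) ≤ Real.exp (-(Real.log 2 * ((θ * M - δ * M) / 2))) := by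
    rw [Real.rpow_def_of_pos (by norm_num : (0 : ℝ) < 2)]
    apply Real.exp_le_exp.mpr
    rw [mul_neg]
    apply neg_le_neg
    apply mul_le_mul_of_nonneg_left _ hlog2.le
    linarith
  calc (cnt (fun S : Finset (Fin M) => S.card ≤ d) : ℝ) ^ 4 * 3 ^ (2 * d) *
      (2 : ℝ) ^ (-((θ * M - d) / 2)) * ((M : ℝ) + 1) ^ 3
      ≤ (Real.exp (θ * Real.log 2 / 32 * M)) ^ 4 * Real.exp (4 * Real.log 2 * (δ * M)) *
        Real.exp (-(Real.log 2 * ((θ * M - δ * M) / 2))) * ((M : ℝ) + 1) ^ 3 := by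
        gcongr
    _ = ((M : ℝ) + 1) ^ 3 * Real.exp (4 * (θ * Real.log 2 / 32 * M) + 4 * Real.log 2 * (δ * M) +
        -(Real.log 2 * ((θ * M - δ * M) / 2))) := by
        rw [Real.exp_add, Real.exp_add, ← Real.exp_nat_mul]
        push_cast
        ring
    _ ≤ ((M : ℝ) + 1) ^ 3 * Real.exp (-(θ * Real.log 2 / 4 * M)) := by
        apply mul_le_mul_of_nonneg_left _ (by positivity)
        apply Real.exp_le_exp.mpr
        have h1 : δ * (Real.log 2 * M) ≤ θ / 36 * (Real.log 2 * M) :=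
          mul_le_mul_of_nonneg_right hδ2 (by positivity)
        nlinarith [h1]
    _ ≤ κ := hM0 M hM

theorem exists_DL : ∃ dl : ℝ → ℝ, DL dl := by
  classical
  refine ⟨fun η => if h : 0 < η then (goodPairs h).choose else 1, fun η hη => ?_⟩
  simp only [hη, dif_pos]
  exact (goodPairs hη).choose_spec

end SofE
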