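import Pool.Agent.helper41.SE.Ham

/-! SE-07: upper bound for the entropy by counting nearly constrained configurations. -/

set_option autoImplicit false

open Filter Topology

namespace SofE

variable {Γ : Type} [Group Γ]

/-- interface: it suffices to bound the separated sets for every `η`, `ε` and one choice of `F`, `δ` -/
theorem ent_le_of {X : Type} [MetricSpace X] [MulAction Γ X] {k : ℕ → ℕ} {π : ∀ n, Γ → Equiv.Perm (Fin (k n))} (hk : ∀ n, 0 < k n) (h : ℝ) (h0 : 0 ≤ h)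
    (H : ∀ η : ℝ, 0 < η → ∀ ε : ℝ, 0 < ε → ∃ (F : Finset Γ) (δ : ℝ), 0 < δ ∧ ∀ᶠ n in atTop, ∀ S : Finset (Fin (k n) → X),
      (∀ φ ∈ S, ∀ s ∈ F, Real.sqrt ((∑ i, dist (φ (π n s i)) (s • φ i) ^ 2) / (k n : ℝ)) < δ) →
      (∀ φ ∈ S, ∀ ψ ∈ S, φ ≠ ψ → ∃ i, ε ≤ dist (φ i) (ψ i)) → (S.card : ℝ) ≤ Real.exp ((h + η) * k n)) :
    ent X k π ≤ ((h : ℝ) : EReal) := by
  unfold ent
  refine iSup₂_le fun ε hε => ?_
  refine EReal.le_of_forall_lt_iff_le.1 fun z hz => ?_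
  have hz' : h < z := EReal.coe_lt_coe_iff.1 hz
  obtain ⟨F, δ, hδ, hev⟩ := H (z - h) (by linarith) ε hε
  refine iInf_le_of_le F (iInf₂_le_of_le δ hδ ?_)
  refine Filter.limsup_le_of_le (h := ?_)
  filter_upwards [hev] with n hn
  have hkn : (0 : ℝ) < k n := by exact_mod_cast hk n
  have h1 : (⨆ (S : Finset (Fin (k n) → X))
          (_ : ∀ φ ∈ S, ∀ s ∈ F,
            Real.sqrt ((∑ i, dist (φ (π n s i)) (s • φ i) ^ 2) / (k n : ℝ)) < δ)
          (_ : ∀ φ ∈ S, ∀ ψ ∈ S, φ ≠ ψ → ∃ i, ε ≤ dist (φ i) (ψ i)),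
          (S.card : ENNReal)) ≤ ENNReal.ofReal (Real.exp (z * k n)) := by
    refine iSup_le fun S => iSup_le fun h1 => iSup_le fun h2 => ?_
    have h3 := hn S h1 h2
    rw [add_sub_cancel] at h3
    rw [← ENNReal.ofReal_natCast]
    exact ENNReal.ofReal_le_ofReal h3
  have h2 := ENNReal.log_monotone h1
  rw [ENNReal.log_ofReal_of_pos (Real.exp_pos _), Real.log_exp] at h2
  have h3 : (0 : EReal) ≤ (((k n : ℝ)⁻¹ : ℝ) : EReal) := by
    exact_mod_cast (inv_pos.2 hkn).le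
  refine (mul_le_mul_of_nonneg_left h2 h3).trans ?_
  rw [← EReal.coe_mul, EReal.coe_le_coe_iff]
  apply le_of_eq
  field_simp

/-- few points where `φ` is far from equivariant -/
theorem Upper_bad {X : Type} [MetricSpace X] [MulAction Γ X] {k : ℕ} (hk : 0 < k) {A : Equiv.Perm (Fin k)} {s : Γ} {φ : Fin k → X} {δ e t : ℝ}
    (he : 0 < e) (hδ : δ ^ 2 ≤ t * e ^ 2) (h : Real.sqrt ((∑ i, dist (φ (A i)) (s • φ i) ^ 2) / (k : ℝ)) < δ) :
    (cnt (fun v => e ≤ dist (φ (A v)) (s • φ v)) : ℝ) ≤ t * k := by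
  have hkn : (0 : ℝ) < k := by exact_mod_cast hk
  have hδ0 : 0 < δ := (Real.sqrt_nonneg _).trans_lt h
  have h1 : (∑ i, dist (φ (A i)) (s • φ i) ^ 2) / (k : ℝ) < δ ^ 2 := (Real.sqrt_lt' hδ0).1 h
  rw [div_lt_iff₀ hkn] at h1
  have h2 := cnt_markov (fun i => dist (φ (A i)) (s • φ i) ^ 2) (fun i => sq_nonneg _) (e ^ 2)
  have h3 : cnt (fun v => e ≤ dist (φ (A v)) (s • φ v)) ≤ cnt (fun v => e ^ 2 ≤ dist (φ (A v)) (s • φ v) ^ 2) :=
    cnt_mono fun v hv => pow_le_pow_left₀ he.le hv 2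
  have h3' : (cnt (fun v => e ≤ dist (φ (A v)) (s • φ v)) : ℝ) ≤ cnt (fun v => e ^ 2 ≤ dist (φ (A v)) (s • φ v) ^ 2) := by
    exact_mod_cast h3
  have he2 : 0 < e ^ 2 := by positivity
  have h4 : (cnt (fun v => e ≤ dist (φ (A v)) (s • φ v)) : ℝ) * e ^ 2 ≤ t * k * e ^ 2 := by
    calc (cnt (fun v => e ≤ dist (φ (A v)) (s • φ v)) : ℝ) * e ^ 2
        ≤ cnt (fun v => e ^ 2 ≤ dist (φ (A v)) (s • φ v) ^ 2) * e ^ 2 := mul_le_mul_of_nonneg_right h3' he2.le
      _ ≤ ∑ i, dist (φ (A i)) (s • φ i) ^ 2 := h2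
      _ ≤ δ ^ 2 * k := h1.le
      _ ≤ t * e ^ 2 * k := mul_le_mul_of_nonneg_right hδ hkn.le
      _ = t * k * e ^ 2 := by ring
  exact le_of_mul_le_mul_right h4 he2

/-- Given `η`, `ε`: let `W` be the window for `ε` (`hM.near`), `e1` the separation constant of the coordinate `1` (`hM.sep 1`), `T`, `δ1` from `hc (η/2)`;
`F = T ∪ W⁻¹`. For `φ` with `ρ_2 (φ ∘ π s, s φ) < δ`, `s ∈ F`, the number of `v` with `e1 ≤ dist (φ (π s v)) (s • φ v)` is `≤ (δ/e1)^2 k`; for the other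
`v`: `(φ (π s v)) 1 = (s • φ v) 1 = (φ v) s⁻¹`. So for `c v = (φ v) 1`: for `s ∈ T` `tt (c (π s v)) = tt ((φ v) s⁻¹) = sh (p s⁻¹) (tt (c v)) = sh (p s) (tt (c v))`
(`p s⁻¹ = - p s = p s`), i.e. `near δ1 (π n s) (p s) c` if `(δ/e1)^2 ≤ δ1`; and for `w ∈ W`: `(φ v) w = c (π w⁻¹ v)` for all `v` outside a set `B` of at
most `|W| (δ/e1)^2 k ≤ θ k` points. A separated family injects into the triples (`c`, `f : Fin k → Option (W → Al)`), `f v = none` off `B` and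
`f v = some ((φ v)|_W)` on `B`: if the data of `φ`, `ψ` agree then `φ v`, `ψ v` agree on `W` for all `v`, so `dist < ε`. Use `ham` with
`Y = Option (W → Al)`, `η/2`. -/
theorem ent_le {N : Subgroup Γ} {p : Γ → ZMod 2} [MetricSpace (XX N p)] (hM : MOK N p) (hp : ∀ m ∈ N, ∀ n ∈ N, p (m * n) = p m + p n)
    {k : ℕ → ℕ} {π : ∀ n, Γ → Equiv.Perm (Fin (k n))} (hS : IsSofic k π) (h : ℝ) (h0 : 0 ≤ h)
    (hc : ∀ η : ℝ, 0 < η → ∃ T : Finset Γ, (∀ s ∈ T, s ∈ N) ∧ ∃ δ : ℝ, 0 < δ ∧ ∀ᶠ n in atTop,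
      (cnt (fun c : Fin (k n) → Al => ∀ s ∈ T, near δ (π n s) (p s) c) : ℝ) ≤ Real.exp ((h + η) * k n)) :
    ent (XX N p) k π ≤ ((h : ℝ) : EReal) := by
  classical
  refine ent_le_of hS.pos h h0 fun η hη ε hε => ?_
  obtain ⟨W, hW⟩ := hM.near ε hε
  obtain ⟨e1, he1, hsep⟩ := hM.sep 1
  obtain ⟨T, hTN, δ1, hδ1, hev⟩ := hc (η / 2) (by positivity)
  obtain ⟨θ, hθ, -, hham⟩ := ham (Fintype.card (Option (W → Al))) (η := η / 2) (by positivity)
  set t : ℝ := min δ1 (θ / (W.card + 1)) with ht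
  have ht0 : 0 < t := lt_min hδ1 (by positivity)
  have htW : (W.card : ℝ) * t ≤ θ := by
    have h1 : t ≤ θ / (W.card + 1) := min_le_right _ _
    rw [le_div_iff₀ (by positivity)] at h1
    nlinarith
  refine ⟨T ∪ W.image (fun w => w⁻¹), e1 * Real.sqrt t, by positivity, ?_⟩
  filter_upwards [hev] with n hn S hS1 hS2
  have hkn : (0 : ℝ) < k n := by exact_mod_cast hS.pos n
  have hδ : (e1 * Real.sqrt t) ^ 2 ≤ t * e1 ^ 2 := by
    rw [mul_pow, Real.sq_sqrt ht0.le, mul_comm]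
  -- nearly equivariant
  have hbad : ∀ φ ∈ S, ∀ s ∈ T ∪ W.image (fun w => w⁻¹),
      (cnt (fun v => (φ (π n s v)).val 1 ≠ (φ v).val s⁻¹) : ℝ) ≤ t * k n := by
    intro φ hφ s hs
    have h1 := Upper_bad (hS.pos n) he1 hδ (hS1 φ hφ s hs)
    refine le_trans ?_ h1
    have h2 : cnt (fun v => (φ (π n s v)).val 1 ≠ (φ v).val s⁻¹) ≤ cnt (fun v => e1 ≤ dist (φ (π n s v)) (s • φ v)) := by
      refine cnt_mono fun v hv => hsep _ _ ?_
      rw [XX_smul, mul_one]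
      exact hv
    exact_mod_cast h2
  have hp1 : p 1 = 0 := by
    have := hp 1 N.one_mem 1 N.one_mem
    rw [mul_one] at this
    exact left_eq_add.1 this
  have hpinv : ∀ s ∈ N, p s⁻¹ = p s := by
    intro s hs
    have h1 := hp s hs s⁻¹ (N.inv_mem hs)
    rw [mul_inv_cancel, hp1] at h1
    have h2 : p s⁻¹ = - p s := by
      rw [eq_neg_iff_add_eq_zero, add_comm]
      exact h1.symm
    rw [h2, CharTwo.neg_eq]
  -- data
  let c : (Fin (k n) → XX N p) → Fin (k n) → Al := fun φ v => (φ v).val 1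
  let f : (Fin (k n) → XX N p) → Fin (k n) → Option (W → Al) := fun φ v =>
    if ∀ w ∈ W, (φ v).val w = c φ (π n w⁻¹ v) then none else some (fun w => (φ v).val w)
  have hcgood : ∀ φ ∈ S, ∀ s ∈ T, near δ1 (π n s) (p s) (c φ) := by
    intro φ hφ s hs
    unfold near
    rw [Fintype.card_fin]
    have h1 := hbad φ hφ s (Finset.mem_union_left _ hs)
    have h2 : t * (k n : ℝ) ≤ δ1 * k n := mul_le_mul_of_nonneg_right (min_le_left _ _) hkn.le
    refine le_trans ?_ (h1.trans h2)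
    have h3 : cnt (fun v => tt (c φ (π n s v)) ≠ sh (p s) (tt (c φ v))) ≤ cnt (fun v => (φ (π n s v)).val 1 ≠ (φ v).val s⁻¹) := by
      refine cnt_mono fun v hv hcon => hv ?_
      have h4 := (φ v).prop 1 s⁻¹ (N.inv_mem (hTN s hs))
      rw [one_mul, hpinv s (hTN s hs)] at h4
      show tt ((φ (π n s v)).val 1) = _
      rw [hcon, h4]
    exact_mod_cast h3
  have hfgood : ∀ φ ∈ S, (cnt (fun v => f φ v ≠ none) : ℝ) ≤ θ * Fintype.card (Fin (k n)) := by
    intro φ hφ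
    rw [Fintype.card_fin]
    have h1 : cnt (fun v => f φ v ≠ none) ≤ cnt (fun v => ∃ w ∈ W, (φ v).val w ≠ c φ (π n w⁻¹ v)) := by
      refine cnt_mono fun v hv => ?_
      by_contra hcon
      push Not at hcon
      exact hv (if_pos hcon)
    have h2 := h1.trans (cnt_exists_le W (fun w v => (φ v).val w ≠ c φ (π n w⁻¹ v)))
    have h3 : (cnt (fun v => f φ v ≠ none) : ℝ) ≤ ∑ w ∈ W, (cnt (fun v => (φ v).val w ≠ c φ (π n w⁻¹ v)) : ℝ) := by
      exact_mod_cast h2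
    refine h3.trans ?_
    have h4 : ∀ w ∈ W, (cnt (fun v => (φ v).val w ≠ c φ (π n w⁻¹ v)) : ℝ) ≤ t * k n := by
      intro w hw
      have h5 := hbad φ hφ w⁻¹ (Finset.mem_union_right _ (Finset.mem_image_of_mem _ hw))
      rw [inv_inv] at h5
      refine le_trans (le_of_eq ?_) h5
      congr 1
      exact cnt_congr fun v => ne_comm
    refine (Finset.sum_le_card_nsmul W _ _ h4).trans ?_
    rw [nsmul_eq_mul, ← mul_assoc]
    exact mul_le_mul_of_nonneg_right htW hkn.le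
  have hinj : ∀ φ ∈ S, ∀ ψ ∈ S, c φ = c ψ → f φ = f ψ → φ = ψ := by
    intro φ hφ ψ hψ h1 h2
    by_contra hne
    obtain ⟨v, hv⟩ := hS2 φ hφ ψ hψ hne
    refine absurd (hW (φ v) (ψ v) fun w hw => ?_) (not_lt.2 hv)
    have h3 : f φ v = f ψ v := congrFun h2 v
    by_cases hA : ∀ w ∈ W, (φ v).val w = c φ (π n w⁻¹ v)
    · by_cases hB : ∀ w ∈ W, (ψ v).val w = c ψ (π n w⁻¹ v)
      · rw [hA w hw, hB w hw, h1]
      · exfalso
        have e1 : f φ v = none := if_pos hA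
        have e2 : f ψ v = some (fun w : W => (ψ v).val w) := if_neg hB
        rw [e1, e2] at h3
        exact Option.some_ne_none _ h3.symm
    · by_cases hB : ∀ w ∈ W, (ψ v).val w = c ψ (π n w⁻¹ v)
      · exfalso
        have e1 : f φ v = some (fun w : W => (φ v).val w) := if_neg hA
        have e2 : f ψ v = none := if_pos hB
        rw [e1, e2] at h3
        exact Option.some_ne_none _ h3
      · have e1 : f φ v = some (fun w : W => (φ v).val w) := if_neg hA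
        have e2 : f ψ v = some (fun w : W => (ψ v).val w) := if_neg hB
        rw [e1, e2] at h3
        exact congrFun (Option.some_injective _ h3) ⟨w, hw⟩
  -- counting
  have hcard : S.card ≤ cnt (fun q : (Fin (k n) → Al) × (Fin (k n) → Option (W → Al)) =>
      (∀ s ∈ T, near δ1 (π n s) (p s) q.1) ∧ (cnt (fun v => q.2 v ≠ none) : ℝ) ≤ θ * Fintype.card (Fin (k n))) := by
    rw [cnt_eq]
    refine Finset.card_le_card_of_injOn (fun φ => (c φ, f φ)) ?_ ?_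
    · intro φ hφ
      rw [Finset.mem_coe] at hφ
      rw [Finset.mem_coe, Finset.mem_filter]
      exact ⟨Finset.mem_univ _, hcgood φ hφ, hfgood φ hφ⟩
    · intro φ hφ ψ hψ heq
      rw [Finset.mem_coe] at hφ hψ
      exact hinj φ hφ ψ hψ (congrArg Prod.fst heq) (congrArg Prod.snd heq)
  have hprod := cnt_prod (fun c : Fin (k n) → Al => ∀ s ∈ T, near δ1 (π n s) (p s) c)
    (fun f : Fin (k n) → Option (W → Al) => (cnt (fun v => f v ≠ none) : ℝ) ≤ θ * Fintype.card (Fin (k n)))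
  rw [hprod] at hcard
  have hcard' : (S.card : ℝ) ≤ cnt (fun c : Fin (k n) → Al => ∀ s ∈ T, near δ1 (π n s) (p s) c) *
      cnt (fun f : Fin (k n) → Option (W → Al) => (cnt (fun v => f v ≠ none) : ℝ) ≤ θ * Fintype.card (Fin (k n))) := by
    exact_mod_cast hcard
  have hh := hham (Fin (k n)) (Option (W → Al)) none le_rfl
  refine hcard'.trans ((mul_le_mul hn hh (Nat.cast_nonneg _) (Real.exp_pos _).le).trans (le_of_eq ?_))
  rw [← Real.exp_add, Fintype.card_fin]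
  congr 1
  ring

end SofE
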