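import Pool.Agent.helper41.SE.ThmA
import Pool.Agent.helper41.SE.NC
import Pool.Agent.helper41.SE.Space
import Pool.Agent.helper41.SE.Upper
import Pool.Agent.helper41.SE.Lower

/-! SE-21: the main theorem for groups with labelled approximations. -/

set_option autoImplicit false

open Filter Topology

namespace SofE

/-- two sofic approximations and an action with different positive finite entropies -/
def Concl (G : Type) [Group G] : Prop :=
  ∃ (k : ℕ → ℕ) (π : ∀ n, G → Equiv.Perm (Fin (k n))) (k' : ℕ → ℕ) (π' : ∀ n, G → Equiv.Perm (Fin (k' n))), IsSofic k π ∧ IsSofic k' π' ∧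
    ∃ (X : Type) (_ : MetricSpace X) (_ : CompactSpace X) (_ : MulAction G X), (∀ s : G, Continuous (fun x : X => s • x)) ∧
      ent X k π = ((Real.log 2 : ℝ) : EReal) ∧ ((Real.log 3 : ℝ) : EReal) ≤ ent X k' π' ∧ ent X k' π' ≤ ((Real.log 8 : ℝ) : EReal)

variable {Γ Δ : Type} [Group Γ] [Group Δ] [Countable Γ] [Countable Δ]

theorem main_near_mono {δ δ' : ℝ} (h : δ ≤ δ') {V : Type} [Fintype V] {A : Equiv.Perm V} {z : ZMod 2} {c : V → Al} (hc : near δ A z c) :
    near δ' A z c :=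
  hc.trans (mul_le_mul_of_nonneg_right h (Nat.cast_nonneg _))

/-- `X = XX (N.prod ⊤) (p ∘ fst)`, `exists_MOK`. `Σ`: `thmA1` and `seq_of_fin` with `Q F ε j k π` = the bounds for `η = 1/(i+1)`, `i ≤ j`; `ent_le` with
`T = {(a,1), (b,1)}` gives `≤ log 2`, `lower2` gives `≥`. `Σ'`: `thmA2`, `seq_of_fin` with `Q F ε j k π` = existence of `c0`; `lower3`, and `ent_le` with `T = ∅`
(all `8^k` configurations). -/
theorem main (N : Subgroup Γ) (p : Γ → ZMod 2) (hp : ∀ m ∈ N, ∀ n ∈ N, p (m * n) = p m + p n) {a b : Γ} (ha : a ∈ N) (hb : b ∈ N) (pa : p a = 1)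
    (hLab : HasLab N p a b) (hΔ : ∃ (k : ℕ → ℕ) (π : ∀ n, Δ → Equiv.Perm (Fin (k n))), IsSofic k π) : Concl (Γ × Δ) := by
  classical
  obtain ⟨dl, hdl⟩ := exists_DL
  obtain ⟨del, hdel, hA⟩ := thmA1 (Δ := Δ) hdl ha hb hLab hΔ
  -- the first approximation
  obtain ⟨k, π, F, hF, hS, hQ⟩ := seq_of_fin (Γ := Γ × Δ)
    (fun _ _ j k π => ∀ i : ℕ, i ≤ j → (cnt (fun c : Fin k → Al => near (del (1 / ((i : ℝ) + 1))) (π (a, 1)) 1 c ∧
      near (del (1 / ((i : ℝ) + 1))) (π (b, 1)) (p b) c) : ℝ) ≤ Real.exp ((Real.log 2 + 3 * (1 / ((i : ℝ) + 1))) * k)) (by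
    intro F ε j hε
    obtain ⟨k, π, h1, h2⟩ := hA F ε ((Finset.range (j + 1)).image (fun i : ℕ => 1 / ((i : ℝ) + 1))) hε (by
      intro η hη
      rw [Finset.mem_image] at hη
      obtain ⟨i, -, rfl⟩ := hη
      positivity)
    refine ⟨k, π, h1, fun i hi => h2 _ ?_⟩
    exact Finset.mem_image_of_mem _ (Finset.mem_range.2 (by omega)))
  -- the second approximation
  obtain ⟨k', π', F', hF', hS', hQ'⟩ := seq_of_fin (Γ := Γ × Δ)
    (fun F ε _ k π => ∃ c0 : Fin k → ZMod 2, ∀ g ∈ F, g.1 ∈ N → (cnt (fun v => c0 (π g v) ≠ c0 v + p g.1) : ℝ) ≤ ε * k) (by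
    intro F ε j hε
    obtain ⟨k, π, c0, h1, h2⟩ := thmA2 (Δ := Δ) hdl hLab hΔ F ε hε
    exact ⟨k, π, h1, c0, h2⟩)
  choose c0 hc0 using hQ'
  set N1 : Subgroup (Γ × Δ) := N.prod ⊤ with hN1
  set p1 : Γ × Δ → ZMod 2 := fun g => p g.1 with hp1def
  have hmem : ∀ g : Γ × Δ, g ∈ N1 ↔ g.1 ∈ N := by
    intro g
    rw [hN1, Subgroup.mem_prod]
    simp
  have hp1 : ∀ m ∈ N1, ∀ n ∈ N1, p1 (m * n) = p1 m + p1 n := fun m hm n hn =>
    hp m.1 ((hmem m).1 hm) n.1 ((hmem n).1 hn)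
  obtain ⟨mm, hM⟩ := exists_MOK N1 p1
  refine ⟨k, π, k', π', hS, hS', XX N1 p1, mm, hM.comp, inferInstance, hM.cont, ?_, ?_, ?_⟩
  · refine le_antisymm ?_ (lower2 hM hS)
    refine ent_le hM hp1 hS (Real.log 2) (Real.log_nonneg (by norm_num)) ?_
    intro η hη
    obtain ⟨i, hi⟩ := exists_nat_gt (3 / η)
    have hi0 : (0:ℝ) < (i:ℝ) + 1 := by positivity
    have hi1 : 3 * (1 / ((i:ℝ) + 1)) ≤ η := by
      rw [mul_one_div, div_le_iff₀ hi0]
      rw [div_lt_iff₀ hη] at hi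
      nlinarith
    refine ⟨{(a, 1), (b, 1)}, ?_, del (1 / ((i:ℝ) + 1)), hdel _ (by positivity), ?_⟩
    · intro s hs
      rw [Finset.mem_insert, Finset.mem_singleton] at hs
      rcases hs with rfl | rfl
      · exact (hmem _).2 ha
      · exact (hmem _).2 hb
    · filter_upwards [eventually_ge_atTop i] with n hn
      have h1 := hQ n i hn
      have h2 : cnt (fun c : Fin (k n) → Al => ∀ s ∈ ({(a, 1), (b, 1)} : Finset (Γ × Δ)), near (del (1 / ((i:ℝ) + 1))) (π n s) (p1 s) c) ≤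
          cnt (fun c : Fin (k n) → Al => near (del (1 / ((i : ℝ) + 1))) (π n (a, 1)) 1 c ∧ near (del (1 / ((i : ℝ) + 1))) (π n (b, 1)) (p b) c) := by
        refine cnt_mono fun c hc => ⟨?_, ?_⟩
        · have := hc (a, 1) (by simp)
          rw [hp1def] at this
          simp only [pa] at this
          exact this
        · exact hc (b, 1) (by simp)
      have h3 : (cnt (fun c : Fin (k n) → Al => ∀ s ∈ ({(a, 1), (b, 1)} : Finset (Γ × Δ)), near (del (1 / ((i:ℝ) + 1))) (π n s) (p1 s) c) : ℝ) ≤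
          cnt (fun c : Fin (k n) → Al => near (del (1 / ((i : ℝ) + 1))) (π n (a, 1)) 1 c ∧ near (del (1 / ((i : ℝ) + 1))) (π n (b, 1)) (p b) c) := by
        exact_mod_cast h2
      refine (h3.trans h1).trans (Real.exp_le_exp.2 ?_)
      exact mul_le_mul_of_nonneg_right (by linarith) (Nat.cast_nonneg _)
  · refine lower3 hp1 hM hS' c0 ?_
    intro s hs
    have h1 : ∀ᶠ n in atTop, (cnt (fun v => c0 n (π' n s v) ≠ c0 n v + p1 s) : ℝ) / (k' n : ℝ) ≤ 1 / ((n:ℝ) + 1) := by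
      filter_upwards [hF' s] with n hn
      have h2 := hc0 n s hn ((hmem s).1 hs)
      have h3 : (0:ℝ) < k' n := by exact_mod_cast hS'.pos n
      rw [div_le_iff₀ h3]
      exact h2
    refine tendsto_of_tendsto_of_tendsto_of_le_of_le' tendsto_const_nhds tendsto_one_div_add_atTop_nhds_zero_nat
      (Eventually.of_forall fun n => by positivity) h1
  · refine ent_le hM hp1 hS' (Real.log 8) (Real.log_nonneg (by norm_num)) ?_
    intro η hη
    refine ⟨∅, fun s hs => absurd hs (Finset.notMem_empty _), 1, one_pos, Eventually.of_forall fun n => ?_⟩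
    have h1 : (cnt (fun c : Fin (k' n) → Al => ∀ s ∈ (∅ : Finset (Γ × Δ)), near 1 (π' n s) (p1 s) c) : ℝ) ≤ (8:ℝ) ^ (k' n) := by
      have h2 := cnt_le_card (fun c : Fin (k' n) → Al => ∀ s ∈ (∅ : Finset (Γ × Δ)), near 1 (π' n s) (p1 s) c)
      have h3 : Fintype.card (Fin (k' n) → Al) = 8 ^ (k' n) := by
        rw [Fintype.card_fun, Fintype.card_fin]
        congr 1
      rw [h3] at h2
      exact_mod_cast h2
    refine h1.trans ?_
    have h4 : (8:ℝ) ^ (k' n) = Real.exp (Real.log 8 * k' n) := by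
      rw [← Real.rpow_natCast, Real.rpow_def_of_pos (by norm_num)]
    rw [h4]
    refine Real.exp_le_exp.2 (mul_le_mul_of_nonneg_right (by linarith) (Nat.cast_nonneg _))

end SofE
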