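import Pool.Agent.helper41.SE.Comp

/-! SE-12: counting nearly constrained configurations on the skew product. -/

set_option autoImplicit false

namespace SofE

/-- Markov: few components carry many violations -/
theorem prCount_markov {I Y : Type} [Fintype I] [Fintype Y] [Nonempty Y] {δ' dη : ℝ} (hd : 0 < dη)
    (viol : Y × I → Prop) (h : (cnt viol : ℝ) ≤ δ' * Fintype.card (Y × I)) (bad : I → Prop)
    (hbad : ∀ f, bad f → dη * Fintype.card Y < cnt (fun y => viol (y, f))) :
    (cnt bad : ℝ) ≤ δ' / dη * Fintype.card I := by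
  have hY : (0 : ℝ) < Fintype.card Y := by exact_mod_cast Fintype.card_pos
  have h1 := cnt_markov (fun f : I => (cnt (fun y => viol (y, f)) : ℝ)) (fun f => by positivity)
    (dη * Fintype.card Y)
  have h2 : (∑ f : I, (cnt (fun y => viol (y, f)) : ℝ)) = cnt viol := by
    rw [cnt_prod_right viol]
    push_cast
    rfl
  rw [h2] at h1
  have h3 : (cnt bad : ℝ) ≤ cnt (fun f : I => dη * Fintype.card Y ≤ (cnt (fun y => viol (y, f)) : ℝ)) := by
    exact_mod_cast cnt_mono fun f hf => (hbad f hf).le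
  have h4 : (cnt bad : ℝ) * (dη * Fintype.card Y) ≤ δ' * (Fintype.card Y * Fintype.card I) := by
    rw [Fintype.card_prod] at h
    push_cast at h
    exact (mul_le_mul_of_nonneg_right h3 (by positivity)).trans (h1.trans h)
  rw [div_mul_eq_mul_div, le_div_iff₀ hd]
  have h5 : (cnt bad : ℝ) * dη * Fintype.card Y ≤ δ' * Fintype.card I * Fintype.card Y := by
    nlinarith
  exact le_of_mul_le_mul_right h5 hY

variable {Γ Δ : Type} [Group Γ] [Group Δ]

/-- `compCount` with `I = E × D`, `Y = Fin M`, `G f = {c | near (dl η) (R (L a i)) 1 c ∧ near (dl η) (R (L b i)) q c}` for `f = (i, x)` good, i.e.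
`σ a i = i`, `σ b i = i`, `πD 1 x = x`, `GoodPair ..`; `G f = ∅` for the other `f` (at most `4 ζ |I|`). If `c` is nearly constrained on `V` with `δ'`, then the
good components `f` on which the restriction violates `near (dl η)` for `a` carry more than `dl η * M` violations each (on a good component
`pr (a, 1) (y, f) = (R (L a i) y, f)`), so there are at most `δ' |V| / (dl η M) = (δ'/dl η) |I|` of them; same for `b`. So
`#{f | ¬ G f} ≤ (4 ζ + 2 δ'/dl η) |I| ≤ θ |I|` for `ζ = θ/8`, `δ' = θ dl η / 4`. -/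
theorem prCount {η : ℝ} (hη : 0 < η) (q : ZMod 2) {dη : ℝ} (hd : 0 < dη) : ∃ ζ δ' : ℝ, 0 < ζ ∧ 0 < δ' ∧
    ∀ (E D A : Type) [Fintype E] [DecidableEq E] [Fintype D] [DecidableEq D] (M : ℕ), 0 < M → ∀ (σ : Γ → Equiv.Perm E) (L : Γ → E → FreeGroup A)
      (πD : Δ → Equiv.Perm D) (R : FreeGroup A →* Equiv.Perm (Fin M)) (a b : Γ),
      (cnt (fun i => σ a i ≠ i) : ℝ) ≤ ζ * Fintype.card E → (cnt (fun i => σ b i ≠ i) : ℝ) ≤ ζ * Fintype.card E →
      (cnt (fun x => πD 1 x ≠ x) : ℝ) ≤ ζ * Fintype.card D →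
      (cnt (fun i : E => ¬ GoodPair η dη q (R (L a i)) (R (L b i))) : ℝ) ≤ ζ * Fintype.card E →
      (cnt (fun c : Fin M × (E × D) → Al => near δ' (pr R σ L πD (a, 1)) 1 c ∧ near δ' (pr R σ L πD (b, 1)) q c) : ℝ) ≤
        Real.exp ((Real.log 2 + 3 * η) * Fintype.card (Fin M × (E × D))) := by
  obtain ⟨θ, hθ, hcomp⟩ := compCount hη
  refine ⟨θ / 8, θ * dη / 4, by positivity, by positivity, ?_⟩
  intro E D A _ _ _ _ M hM σ L πD R a b ha hb h1 hgood
  haveI : Nonempty (Fin M) := ⟨⟨0, hM⟩⟩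
  have hcard : (Fintype.card (Fin M × (E × D)) : ℝ) =
      Fintype.card (Fin M) * Fintype.card (E × D) := by
    rw [Fintype.card_prod]
    push_cast
    rfl
  have hED : (Fintype.card (E × D) : ℝ) = Fintype.card E * Fintype.card D := by
    rw [Fintype.card_prod]
    push_cast
    rfl
  rw [hcard]
  refine hcomp (E × D) (Fin M) _ (fun f c =>
    (σ a f.1 = f.1 ∧ σ b f.1 = f.1 ∧ πD 1 f.2 = f.2 ∧ GoodPair η dη q (R (L a f.1)) (R (L b f.1))) ∧
      (near dη (R (L a f.1)) 1 c ∧ near dη (R (L b f.1)) q c)) ?_ ?_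
  · rintro c ⟨hca, hcb⟩
    -- the number of bad components
    have e1 : (cnt (fun f : E × D => σ a f.1 ≠ f.1) : ℝ) ≤ θ / 8 * Fintype.card (E × D) := by
      rw [cnt_fst (fun i : E => σ a i ≠ i), hED]
      push_cast
      nlinarith [mul_le_mul_of_nonneg_right ha (Nat.cast_nonneg (α := ℝ) (Fintype.card D))]
    have e2 : (cnt (fun f : E × D => σ b f.1 ≠ f.1) : ℝ) ≤ θ / 8 * Fintype.card (E × D) := by
      rw [cnt_fst (fun i : E => σ b i ≠ i), hED]
      push_cast
      nlinarith [mul_le_mul_of_nonneg_right hb (Nat.cast_nonneg (α := ℝ) (Fintype.card D))]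
    have e3 : (cnt (fun f : E × D => πD 1 f.2 ≠ f.2) : ℝ) ≤ θ / 8 * Fintype.card (E × D) := by
      rw [cnt_snd (fun x : D => πD 1 x ≠ x), hED]
      push_cast
      nlinarith [mul_le_mul_of_nonneg_left h1 (Nat.cast_nonneg (α := ℝ) (Fintype.card E))]
    have e4 : (cnt (fun f : E × D => ¬ GoodPair η dη q (R (L a f.1)) (R (L b f.1))) : ℝ) ≤
        θ / 8 * Fintype.card (E × D) := by
      rw [cnt_fst (fun i : E => ¬ GoodPair η dη q (R (L a i)) (R (L b i))), hED]
      push_cast
      nlinarith [mul_le_mul_of_nonneg_right hgood (Nat.cast_nonneg (α := ℝ) (Fintype.card D))]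
    have e5 : (cnt (fun f : E × D => (σ a f.1 = f.1 ∧ πD 1 f.2 = f.2) ∧
        ¬ near dη (R (L a f.1)) 1 (fun y => c (y, f))) : ℝ) ≤ θ / 4 * Fintype.card (E × D) := by
      have := prCount_markov (I := E × D) (Y := Fin M) (δ' := θ * dη / 4) hd _ hca
        (fun f => (σ a f.1 = f.1 ∧ πD 1 f.2 = f.2) ∧
          ¬ near dη (R (L a f.1)) 1 (fun y => c (y, f))) ?_
      · have h5 : θ * dη / 4 / dη = θ / 4 := by
          field_simp
        rwa [h5] at this
      · rintro ⟨i, x⟩ ⟨⟨h2, h3⟩, h4⟩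
        simp only [near, not_le] at h4
        simp only at h2 h3
        refine h4.trans_le (le_of_eq ?_)
        congr 1
        apply cnt_congr
        intro y
        have : (pr R σ L πD (a, 1)) (y, (i, x)) = (R (L a i) y, (i, x)) := by
          show (R (L a i) y, (σ a i, πD 1 x)) = _
          rw [h2, h3]
        rw [this]
    have e6 : (cnt (fun f : E × D => (σ b f.1 = f.1 ∧ πD 1 f.2 = f.2) ∧
        ¬ near dη (R (L b f.1)) q (fun y => c (y, f))) : ℝ) ≤ θ / 4 * Fintype.card (E × D) := by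
      have := prCount_markov (I := E × D) (Y := Fin M) (δ' := θ * dη / 4) hd _ hcb
        (fun f => (σ b f.1 = f.1 ∧ πD 1 f.2 = f.2) ∧
          ¬ near dη (R (L b f.1)) q (fun y => c (y, f))) ?_
      · have h5 : θ * dη / 4 / dη = θ / 4 := by
          field_simp
        rwa [h5] at this
      · rintro ⟨i, x⟩ ⟨⟨h2, h3⟩, h4⟩
        simp only [near, not_le] at h4
        simp only at h2 h3
        refine h4.trans_le (le_of_eq ?_)
        congr 1
        apply cnt_congr
        intro y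
        have : (pr R σ L πD (b, 1)) (y, (i, x)) = (R (L b i) y, (i, x)) := by
          show (R (L b i) y, (σ b i, πD 1 x)) = _
          rw [h2, h3]
        rw [this]
    have tot : cnt (fun f : E × D => ¬ ((σ a f.1 = f.1 ∧ σ b f.1 = f.1 ∧ πD 1 f.2 = f.2 ∧
        GoodPair η dη q (R (L a f.1)) (R (L b f.1))) ∧
        (near dη (R (L a f.1)) 1 (fun y => c (y, f)) ∧ near dη (R (L b f.1)) q (fun y => c (y, f))))) ≤
        cnt (fun f : E × D => σ a f.1 ≠ f.1) + (cnt (fun f : E × D => σ b f.1 ≠ f.1) +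
        (cnt (fun f : E × D => πD 1 f.2 ≠ f.2) +
        (cnt (fun f : E × D => ¬ GoodPair η dη q (R (L a f.1)) (R (L b f.1))) +
        (cnt (fun f : E × D => (σ a f.1 = f.1 ∧ πD 1 f.2 = f.2) ∧
          ¬ near dη (R (L a f.1)) 1 (fun y => c (y, f))) +
        cnt (fun f : E × D => (σ b f.1 = f.1 ∧ πD 1 f.2 = f.2) ∧
          ¬ near dη (R (L b f.1)) q (fun y => c (y, f))))))) := by
      refine le_trans ?_ ((cnt_or_le _ _).trans (Nat.add_le_add_left ((cnt_or_le _ _).trans
        (Nat.add_le_add_left ((cnt_or_le _ _).trans (Nat.add_le_add_left ((cnt_or_le _ _).trans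
        (Nat.add_le_add_left (cnt_or_le _ _) _)) _)) _)) _))
      apply cnt_mono
      intro f hf
      tauto
    have tot' := (Nat.cast_le (α := ℝ)).2 tot
    push_cast at tot'
    linarith
  · intro f
    by_cases hf : σ a f.1 = f.1 ∧ σ b f.1 = f.1 ∧ πD 1 f.2 = f.2 ∧
        GoodPair η dη q (R (L a f.1)) (R (L b f.1))
    · have h2 : (cnt (fun c : Fin M → Al => near dη (R (L a f.1)) 1 c ∧ near dη (R (L b f.1)) q c) : ℝ) ≤ _ :=
        hf.2.2.2
      refine le_trans ?_ h2
      exact (Nat.cast_le (α := ℝ)).2 (cnt_mono fun c hc => hc.2)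
    · have h0 : cnt (fun c : Fin M → Al => (σ a f.1 = f.1 ∧ σ b f.1 = f.1 ∧ πD 1 f.2 = f.2 ∧
        GoodPair η dη q (R (L a f.1)) (R (L b f.1))) ∧
        (near dη (R (L a f.1)) 1 c ∧ near dη (R (L b f.1)) q c)) = 0 :=
        cnt_eq_zero.2 fun c hc => hf hc.1
      rw [h0, Nat.cast_zero]
      positivity

end SofE
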