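import Pool.Agent.helper41.SE.Cnt

/-! SE-10: the skew product is an approximation of the product group. -/

set_option autoImplicit false

namespace SofE

variable {Γ Δ : Type} [Group Γ] [Group Δ]

section
variable {Y E D : Type} [Fintype Y] [Fintype E] [Fintype D]

theorem prod_card : (Fintype.card (Y × (E × D)) : ℝ) = Fintype.card Y * (Fintype.card E * Fintype.card D) := by
  rw [Fintype.card_prod, Fintype.card_prod]
  push_cast
  ring

theorem prod_leE {P : E → Prop} {ε : ℝ} (h : (cnt P : ℝ) ≤ ε * Fintype.card E) :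
    (cnt (fun v : Y × (E × D) => P v.2.1) : ℝ) ≤ ε * Fintype.card (Y × (E × D)) := by
  have h1 : cnt (fun v : Y × (E × D) => P v.2.1) = Fintype.card Y * (cnt P * Fintype.card D) := by
    rw [← cnt_fst (β := D) P]
    exact cnt_snd (α := Y) (fun q : E × D => P q.1)
  rw [h1, prod_card]
  push_cast
  have h2 : (0 : ℝ) ≤ (Fintype.card Y : ℝ) * Fintype.card D := by positivity
  nlinarith [mul_le_mul_of_nonneg_left h h2]

theorem prod_leD {Q : D → Prop} {ε : ℝ} (h : (cnt Q : ℝ) ≤ ε * Fintype.card D) :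
    (cnt (fun v : Y × (E × D) => Q v.2.2) : ℝ) ≤ ε * Fintype.card (Y × (E × D)) := by
  have h1 : cnt (fun v : Y × (E × D) => Q v.2.2) = Fintype.card Y * (Fintype.card E * cnt Q) := by
    rw [← cnt_snd (α := E) Q]
    exact cnt_snd (α := Y) (fun q : E × D => Q q.2)
  rw [h1, prod_card]
  push_cast
  have h2 : (0 : ℝ) ≤ (Fintype.card Y : ℝ) * Fintype.card E := by positivity
  nlinarith [mul_le_mul_of_nonneg_left h h2]

theorem prod_leYE {P : Y × E → Prop} {ε : ℝ} (h : (cnt P : ℝ) ≤ ε * (Fintype.card Y * Fintype.card E)) :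
    (cnt (fun v : Y × (E × D) => P (v.1, v.2.1)) : ℝ) ≤ ε * Fintype.card (Y × (E × D)) := by
  have h1 : cnt (fun v : Y × (E × D) => P (v.1, v.2.1)) = cnt P * Fintype.card D := by
    rw [← cnt_fst (β := D) P]
    exact cnt_equiv (Equiv.prodAssoc Y E D).symm (fun q : (Y × E) × D => P q.1)
  rw [h1, prod_card]
  push_cast
  have h2 : (0 : ℝ) ≤ (Fintype.card D : ℝ) := by positivity
  nlinarith [mul_le_mul_of_nonneg_left h h2]

theorem prod_add {P Q R : Y × (E × D) → Prop} {ε : ℝ} (h : ∀ v, P v → Q v ∨ R v)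
    (hQ : (cnt Q : ℝ) ≤ ε * Fintype.card (Y × (E × D))) (hR : (cnt R : ℝ) ≤ ε * Fintype.card (Y × (E × D))) :
    (cnt P : ℝ) ≤ 2 * ε * Fintype.card (Y × (E × D)) := by
  have h1 : (cnt P : ℝ) ≤ cnt Q + cnt R := by exact_mod_cast cnt_le_add h
  linarith

end

/-- `mul`: a bad point `(y, (i, x))` has `i` bad for `(s, t)` (`Lab.mul`) or `x` bad for `(s', t')`. `free`, `g = (s, s')`: if `s' ≠ 1` a fixed point has `πD s' x = x`;
if `s' = 1`, `s ≠ 1`: `σ s i = i` and `R (L s i) y = y`; either `L s i = 1` (`Lab.free`) or it is counted in `hR`. (Also `πD 1 x` need not be `x`; not needed.) -/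
theorem pr_appr {N : Subgroup Γ} {p : Γ → ZMod 2} {a b : Γ} {F0 : Finset Γ} {F1 : Finset Δ} {ε : ℝ} (hε : 0 ≤ ε) {E A Y D : Type} [Fintype E] [Fintype A]
    [DecidableEq A] [Fintype Y] [Fintype D] [Nonempty Y] {σ : Γ → Equiv.Perm E} {L : Γ → E → FreeGroup A} {lam : E → FreeGroup A →* Multiplicative (ZMod 2)}
    (hL : Lab N p a b F0 ε E A σ L lam) {πD : Δ → Equiv.Perm D} (hD : Appr F1 ε πD) (R : FreeGroup A →* Equiv.Perm Y)
    (hR : ∀ s ∈ F0, (cnt (fun q : Y × E => L s q.2 ≠ 1 ∧ R (L s q.2) q.1 = q.1) : ℝ) ≤ ε * (Fintype.card Y * Fintype.card E))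
    (F : Finset (Γ × Δ)) (hF : ∀ g ∈ F, g.1 ∈ F0 ∧ g.2 ∈ F1) : Appr F (2 * ε) (pr R σ L πD) where
  ne := by
    haveI := hL.ne
    haveI := hD.ne
    infer_instance
  mul := by
    rintro ⟨s, s'⟩ hs ⟨t, t'⟩ ht
    refine prod_add (Q := fun v : Y × (E × D) => ¬ (σ (s * t) v.2.1 = σ s (σ t v.2.1) ∧ L (s * t) v.2.1 = L s (σ t v.2.1) * L t v.2.1))
      (R := fun v : Y × (E × D) => πD (s' * t') v.2.2 ≠ πD s' (πD t' v.2.2)) ?_
      (prod_leE (hL.mul s (hF _ hs).1 t (hF _ ht).1)) (prod_leD (hD.mul s' (hF _ hs).2 t' (hF _ ht).2))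
    rintro ⟨y, i, x⟩ hv
    by_contra hcon
    push Not at hcon
    obtain ⟨⟨h1, h2⟩, h3⟩ := hcon
    apply hv
    change ((R (L (s * t) i)) y, (σ (s * t) i, πD (s' * t') x)) =
      ((R (L s (σ t i))) ((R (L t i)) y), (σ s (σ t i), πD s' (πD t' x)))
    simp only at h1 h2 h3
    rw [h1, h2, h3, map_mul]
    rfl
  free := by
    rintro ⟨s, s'⟩ hs hne
    by_cases hs' : s' = 1
    · have hs1 : s ≠ 1 := by
        intro h
        apply hne
        rw [h, hs']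
        rfl
      refine prod_add (Q := fun v : Y × (E × D) => σ s v.2.1 = v.2.1 ∧ L s v.2.1 = 1)
        (R := fun v : Y × (E × D) => L s v.2.1 ≠ 1 ∧ R (L s v.2.1) v.1 = v.1) ?_
        (prod_leE (hL.free s (hF _ hs).1 hs1))
        (prod_leYE (P := fun q : Y × E => L s q.2 ≠ 1 ∧ R (L s q.2) q.1 = q.1) (hR s (hF _ hs).1))
      rintro ⟨y, i, x⟩ hv
      change ((R (L s i)) y, (σ s i, πD s' x)) = (y, (i, x)) at hv
      rw [Prod.mk.injEq, Prod.mk.injEq] at hv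
      by_cases h1 : L s i = 1
      · exact Or.inl ⟨hv.2.1, h1⟩
      · exact Or.inr ⟨h1, hv.1⟩
    · have h1 : (cnt (fun v : Y × (E × D) => πD s' v.2.2 = v.2.2) : ℝ) ≤ ε * Fintype.card (Y × (E × D)) :=
        prod_leD (Q := fun x : D => πD s' x = x) (hD.free s' (hF _ hs).2 hs')
      have h2 : (cnt (fun v : Y × (E × D) => pr R σ L πD (s, s') v = v) : ℝ) ≤
          cnt (fun v : Y × (E × D) => πD s' v.2.2 = v.2.2) := by
        norm_cast
        apply cnt_mono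
        rintro ⟨y, i, x⟩ hv
        change ((R (L s i)) y, (σ s i, πD s' x)) = (y, (i, x)) at hv
        rw [Prod.mk.injEq, Prod.mk.injEq] at hv
        exact hv.2.2
      have h3 : 0 ≤ ε * Fintype.card (Y × (E × D)) := by positivity
      linarith

/-- fixed points of the product with the translation action -/
theorem hR_transl {F0 : Finset Γ} {ε : ℝ} {E A Y : Type} [Fintype E] [DecidableEq E] [Fintype Y] {L : Γ → E → FreeGroup A}
    (lam : E → FreeGroup A →* Multiplicative (ZMod 2)) (R : FreeGroup A →* Equiv.Perm Y)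
    (hR : ∀ s ∈ F0, (cnt (fun q : Y × E => L s q.2 ≠ 1 ∧ R (L s q.2) q.1 = q.1) : ℝ) ≤ ε * (Fintype.card Y * Fintype.card E)) :
    ∀ s ∈ F0, (cnt (fun q : (Y × (E → ZMod 2)) × E => L s q.2 ≠ 1 ∧ homProd R (transl lam) (L s q.2) q.1 = q.1) : ℝ) ≤
      ε * (Fintype.card (Y × (E → ZMod 2)) * Fintype.card E) := by
  intro s hs
  have h1 : cnt (fun q : (Y × (E → ZMod 2)) × E => L s q.2 ≠ 1 ∧ homProd R (transl lam) (L s q.2) q.1 = q.1) ≤
      cnt (fun q : (Y × (E → ZMod 2)) × E => L s q.2 ≠ 1 ∧ R (L s q.2) q.1.1 = q.1.1) := by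
    apply cnt_mono
    rintro ⟨⟨y, z⟩, i⟩ ⟨h2, h3⟩
    refine ⟨h2, ?_⟩
    exact congrArg Prod.fst h3
  let e : (Y × (E → ZMod 2)) × E ≃ (Y × E) × (E → ZMod 2) :=
    { toFun := fun q => ((q.1.1, q.2), q.1.2)
      invFun := fun q => ((q.1.1, q.2), q.1.2)
      left_inv := fun _ => rfl
      right_inv := fun _ => rfl }
  have h2 : cnt (fun q : (Y × (E → ZMod 2)) × E => L s q.2 ≠ 1 ∧ R (L s q.2) q.1.1 = q.1.1) =
      cnt (fun q : Y × E => L s q.2 ≠ 1 ∧ R (L s q.2) q.1 = q.1) * Fintype.card (E → ZMod 2) := by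
    rw [← cnt_fst (β := E → ZMod 2)]
    exact cnt_equiv e (fun q : (Y × E) × (E → ZMod 2) => L s q.1.2 ≠ 1 ∧ R (L s q.1.2) q.1.1 = q.1.1)
  rw [h2] at h1
  have h3 : (cnt (fun q : (Y × (E → ZMod 2)) × E => L s q.2 ≠ 1 ∧ homProd R (transl lam) (L s q.2) q.1 = q.1) : ℝ) ≤
      cnt (fun q : Y × E => L s q.2 ≠ 1 ∧ R (L s q.2) q.1 = q.1) * (Fintype.card (E → ZMod 2) : ℝ) := by
    exact_mod_cast h1
  have h4 := mul_le_mul_of_nonneg_right (hR s hs) (Nat.cast_nonneg (α := ℝ) (Fintype.card (E → ZMod 2)))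
  rw [Fintype.card_prod]
  push_cast at h3 h4 ⊢
  linarith

/-- the function `c0 ((y, z), (i, x)) = z i` nearly satisfies `c0 (π s v) = c0 v + p s` for `s ∈ N`: a bad point has `σ s i ≠ i` or
`lam i (L s i) ≠ p s` -/
theorem pr_c0 {N : Subgroup Γ} {p : Γ → ZMod 2} {a b : Γ} {F0 : Finset Γ} {ε : ℝ} {E A Y D : Type} [Fintype E] [DecidableEq E] [Fintype A]
    [DecidableEq A] [Fintype Y] [Fintype D] {σ : Γ → Equiv.Perm E} {L : Γ → E → FreeGroup A} {lam : E → FreeGroup A →* Multiplicative (ZMod 2)}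
    (hL : Lab N p a b F0 ε E A σ L lam) (πD : Δ → Equiv.Perm D) (R : FreeGroup A →* Equiv.Perm Y) (s : Γ) (hs : s ∈ F0) (hsN : s ∈ N) (s' : Δ) :
    (cnt (fun v : (Y × (E → ZMod 2)) × (E × D) =>
      (pr (homProd R (transl lam)) σ L πD (s, s') v).1.2 (pr (homProd R (transl lam)) σ L πD (s, s') v).2.1 ≠ v.1.2 v.2.1 + p s) : ℝ) ≤
      2 * ε * Fintype.card ((Y × (E → ZMod 2)) × (E × D)) := by
  refine prod_add (Q := fun v : (Y × (E → ZMod 2)) × (E × D) => σ s v.2.1 ≠ v.2.1)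
    (R := fun v : (Y × (E → ZMod 2)) × (E × D) => lam v.2.1 (L s v.2.1) ≠ Multiplicative.ofAdd (p s)) ?_
    (prod_leE (P := fun i : E => σ s i ≠ i) (hL.fix s hs hsN))
    (prod_leE (P := fun i : E => lam i (L s i) ≠ Multiplicative.ofAdd (p s)) (hL.lam s hs hsN))
  rintro ⟨⟨y, z⟩, i, x⟩ hv
  by_contra hcon
  push Not at hcon
  obtain ⟨h1, h2⟩ := hcon
  apply hv
  change z (σ s i) + Multiplicative.toAdd (lam (σ s i) (L s i)) = z i + p s
  simp only at h1 h2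
  rw [h1, h2]
  rfl

end SofE
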