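import Pool.Agent.helper41.SE.Fix

/-! SE-11: random choice of the homomorphism. -/

set_option autoImplicit false

namespace SofE

variable {Γ : Type} [Group Γ]

/-- average number of fixed points over the labels -/
theorem rand_fix {E A : Type} [Fintype E] [Fintype A] [DecidableEq A] (l : E → FreeGroup A) {κ : ℝ} (hκ : 0 < κ) :
    ∃ M0 : ℕ, ∀ M : ℕ, M0 ≤ M →
      (∑ ρ : A → Equiv.Perm (Fin M), (cnt (fun w : Fin M × E => l w.2 ≠ 1 ∧ FreeGroup.lift ρ (l w.2) w.1 = w.1) : ℝ)) ≤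
        κ * (M * Fintype.card E) * Fintype.card (A → Equiv.Perm (Fin M)) := by
  classical
  have h1 : ∀ i : E, ∃ M0 : ℕ, ∀ M : ℕ, M0 ≤ M →
      (∑ ρ : A → Equiv.Perm (Fin M), (cnt (fun k : Fin M => l i ≠ 1 ∧ FreeGroup.lift ρ (l i) k = k) : ℝ)) ≤
        κ * M * Fintype.card (A → Equiv.Perm (Fin M)) := by
    intro i
    by_cases hi : l i = 1
    · refine ⟨0, fun M _ => ?_⟩
      have h0 : ∀ ρ : A → Equiv.Perm (Fin M), (cnt (fun k : Fin M => l i ≠ 1 ∧ FreeGroup.lift ρ (l i) k = k) : ℝ) = 0 := by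
        intro ρ
        rw [Nat.cast_eq_zero, cnt_eq_zero]
        intro k hk
        exact hk.1 hi
      rw [Finset.sum_congr rfl fun ρ _ => h0 ρ, Finset.sum_const_zero]
      positivity
    · obtain ⟨M0, hM0⟩ := fixWord (l i) hi hκ
      refine ⟨M0, fun M hM => le_trans (Finset.sum_le_sum fun ρ _ => ?_) (hM0 M hM)⟩
      have h3 : cnt (fun k : Fin M => l i ≠ 1 ∧ FreeGroup.lift ρ (l i) k = k) ≤
          cnt (fun k : Fin M => FreeGroup.lift ρ (l i) k = k) := cnt_mono fun k hk => hk.2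
      exact_mod_cast h3
  choose f hf using h1
  refine ⟨Finset.univ.sup f, fun M hM => ?_⟩
  have h2 : ∀ ρ : A → Equiv.Perm (Fin M),
      (cnt (fun w : Fin M × E => l w.2 ≠ 1 ∧ FreeGroup.lift ρ (l w.2) w.1 = w.1) : ℝ) =
        ∑ i : E, (cnt (fun k : Fin M => l i ≠ 1 ∧ FreeGroup.lift ρ (l i) k = k) : ℝ) := by
    intro ρ
    rw [cnt_prod_right]
    push_cast
    rfl
  rw [Finset.sum_congr rfl fun ρ _ => h2 ρ, Finset.sum_comm]
  calc (∑ i : E, ∑ ρ : A → Equiv.Perm (Fin M), (cnt (fun k : Fin M => l i ≠ 1 ∧ FreeGroup.lift ρ (l i) k = k) : ℝ))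
      ≤ ∑ i : E, κ * M * Fintype.card (A → Equiv.Perm (Fin M)) :=
        Finset.sum_le_sum fun i _ => hf i M (le_trans (Finset.le_sup (Finset.mem_univ i)) hM)
    _ = κ * (M * Fintype.card E) * Fintype.card (A → Equiv.Perm (Fin M)) := by
        rw [Finset.sum_const, Finset.card_univ, nsmul_eq_mul]
        ring

/-- average number of bad labels -/
theorem rand_bad {dl : ℝ → ℝ} (hdl : DL dl) (q : ZMod 2) {E A : Type} [Fintype E] [Fintype A] [DecidableEq A]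
    (x y : E → FreeGroup A) {η κ : ℝ} (hη : 0 < η) (hκ : 0 < κ) :
    ∃ M0 : ℕ, ∀ M : ℕ, M0 ≤ M →
      (∑ ρ : A → Equiv.Perm (Fin M),
        (cnt (fun i : E => Equi (x i) (y i) ∧ ¬ GoodPair η (dl η) q (FreeGroup.lift ρ (x i)) (FreeGroup.lift ρ (y i))) : ℝ)) ≤
        κ * Fintype.card E * Fintype.card (A → Equiv.Perm (Fin M)) := by
  classical
  obtain ⟨M0, hM0⟩ := (hdl η hη).2 κ hκ
  refine ⟨M0, fun M hM => ?_⟩
  have h1 : (∑ ρ : A → Equiv.Perm (Fin M),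
        (cnt (fun i : E => Equi (x i) (y i) ∧ ¬ GoodPair η (dl η) q (FreeGroup.lift ρ (x i)) (FreeGroup.lift ρ (y i))) : ℝ)) =
      ∑ i : E, (cnt (fun ρ : A → Equiv.Perm (Fin M) =>
        Equi (x i) (y i) ∧ ¬ GoodPair η (dl η) q (FreeGroup.lift ρ (x i)) (FreeGroup.lift ρ (y i))) : ℝ) := by
    exact_mod_cast cnt_comm (fun (ρ : A → Equiv.Perm (Fin M)) (i : E) =>
      Equi (x i) (y i) ∧ ¬ GoodPair η (dl η) q (FreeGroup.lift ρ (x i)) (FreeGroup.lift ρ (y i)))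
  rw [h1]
  have h2 : ∀ i : E, (cnt (fun ρ : A → Equiv.Perm (Fin M) =>
        Equi (x i) (y i) ∧ ¬ GoodPair η (dl η) q (FreeGroup.lift ρ (x i)) (FreeGroup.lift ρ (y i))) : ℝ) ≤
      κ * Fintype.card (A → Equiv.Perm (Fin M)) := by
    intro i
    by_cases hi : Equi (x i) (y i)
    · have h3 := hi M (fun P => ¬ GoodPair η (dl η) q P.1 P.2)
      have h4 := hM0 M hM q
      have h5 : (0 : ℝ) < (M.factorial : ℝ) ^ 2 := by positivity
      have h6 : (cnt (fun ρ : A → Equiv.Perm (Fin M) =>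
          ¬ GoodPair η (dl η) q (FreeGroup.lift ρ (x i)) (FreeGroup.lift ρ (y i))) : ℝ) * (M.factorial : ℝ) ^ 2 =
          (cnt (fun P : Equiv.Perm (Fin M) × Equiv.Perm (Fin M) => ¬ GoodPair η (dl η) q P.1 P.2) : ℝ) *
            Fintype.card (A → Equiv.Perm (Fin M)) := by
        exact_mod_cast h3
      have h7 : (cnt (fun ρ : A → Equiv.Perm (Fin M) =>
          Equi (x i) (y i) ∧ ¬ GoodPair η (dl η) q (FreeGroup.lift ρ (x i)) (FreeGroup.lift ρ (y i))) : ℝ) ≤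
          (cnt (fun ρ : A → Equiv.Perm (Fin M) =>
          ¬ GoodPair η (dl η) q (FreeGroup.lift ρ (x i)) (FreeGroup.lift ρ (y i))) : ℝ) := by
        have h9 : cnt (fun ρ : A → Equiv.Perm (Fin M) =>
            Equi (x i) (y i) ∧ ¬ GoodPair η (dl η) q (FreeGroup.lift ρ (x i)) (FreeGroup.lift ρ (y i))) ≤
            cnt (fun ρ : A → Equiv.Perm (Fin M) =>
            ¬ GoodPair η (dl η) q (FreeGroup.lift ρ (x i)) (FreeGroup.lift ρ (y i))) := cnt_mono fun ρ hρ => hρ.2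
        exact_mod_cast h9
      refine h7.trans (le_of_mul_le_mul_right ?_ h5)
      rw [h6]
      calc (cnt (fun P : Equiv.Perm (Fin M) × Equiv.Perm (Fin M) => ¬ GoodPair η (dl η) q P.1 P.2) : ℝ) *
            Fintype.card (A → Equiv.Perm (Fin M))
          ≤ (κ * (M.factorial : ℝ) ^ 2) * Fintype.card (A → Equiv.Perm (Fin M)) :=
            mul_le_mul_of_nonneg_right h4 (Nat.cast_nonneg _)
        _ = κ * Fintype.card (A → Equiv.Perm (Fin M)) * (M.factorial : ℝ) ^ 2 := by ring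
    · have h8 : (cnt (fun ρ : A → Equiv.Perm (Fin M) =>
        Equi (x i) (y i) ∧ ¬ GoodPair η (dl η) q (FreeGroup.lift ρ (x i)) (FreeGroup.lift ρ (y i))) : ℝ) = 0 := by
        rw [Nat.cast_eq_zero, cnt_eq_zero]
        intro ρ hρ
        exact hi hρ.1
      rw [h8]
      positivity
  calc (∑ i : E, (cnt (fun ρ : A → Equiv.Perm (Fin M) =>
        Equi (x i) (y i) ∧ ¬ GoodPair η (dl η) q (FreeGroup.lift ρ (x i)) (FreeGroup.lift ρ (y i))) : ℝ))
      ≤ ∑ i : E, κ * Fintype.card (A → Equiv.Perm (Fin M)) := Finset.sum_le_sum fun i _ => h2 i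
    _ = κ * Fintype.card E * Fintype.card (A → Equiv.Perm (Fin M)) := by
        rw [Finset.sum_const, Finset.card_univ, nsmul_eq_mul]
        ring

/-- Let `Ω = A → Perm (Fin M)`. By `fixWord` (finitely many words `L s i ≠ 1`, `s ∈ F0`, `i ∈ E`) for `M ≥ M0`:
`∑_ρ cnt {(k,i) | L s i ≠ 1, ρ(L s i) k = k} ≤ κ |E| M |Ω|`; and for `η ∈ J`, `i` with `Equi (L a i) (L b i)`: the number of `ρ` with
`¬ GoodPair η (dl η) q (ρ (L a i)) (ρ (L b i))` is `cnt (bad pairs) |Ω| / (M!)^2 ≤ κ |Ω|`. So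
`∑_ρ [∑_{s ∈ F0} X_s(ρ) / (ζ |E| M) + ∑_{η ∈ J} Y_η(ρ) / (ζ |E|)] ≤ (|F0| + |J|) κ/ζ |Ω| < |Ω|` for `κ = ζ / (|F0| + |J| + 1)`, so some `ρ` has all terms `≤ 1`. -/
theorem randRho {dl : ℝ → ℝ} (hdl : DL dl) (q : ZMod 2) (a b : Γ) (F0 : Finset Γ) (J : Finset ℝ) (hJ : ∀ η ∈ J, 0 < η) {ζ : ℝ} (hζ : 0 < ζ)
    {E A : Type} [Fintype E] [Fintype A] [DecidableEq A] [Nonempty E] (L : Γ → E → FreeGroup A) :
    ∃ (M : ℕ) (ρ : A → Equiv.Perm (Fin M)), 0 < M ∧
      (∀ s ∈ F0, (cnt (fun w : Fin M × E => L s w.2 ≠ 1 ∧ FreeGroup.lift ρ (L s w.2) w.1 = w.1) : ℝ) ≤ ζ * (Fintype.card (Fin M) * Fintype.card E)) ∧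
      ∀ η ∈ J, (cnt (fun i : E => Equi (L a i) (L b i) ∧ ¬ GoodPair η (dl η) q (FreeGroup.lift ρ (L a i)) (FreeGroup.lift ρ (L b i))) : ℝ) ≤
        ζ * Fintype.card E := by
  classical
  set κ : ℝ := ζ / ((F0.card : ℝ) + J.card + 1) with hκdef
  have hden : (0 : ℝ) < (F0.card : ℝ) + J.card + 1 := by positivity
  have hκ : 0 < κ := div_pos hζ hden
  choose f hf using fun s : Γ => rand_fix (L s) hκ
  have hg' : ∀ η : ℝ, ∃ M0 : ℕ, η ∈ J → ∀ M : ℕ, M0 ≤ M →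
      (∑ ρ : A → Equiv.Perm (Fin M),
        (cnt (fun i : E => Equi (L a i) (L b i) ∧ ¬ GoodPair η (dl η) q (FreeGroup.lift ρ (L a i)) (FreeGroup.lift ρ (L b i))) : ℝ)) ≤
        κ * Fintype.card E * Fintype.card (A → Equiv.Perm (Fin M)) := by
    intro η
    by_cases h : η ∈ J
    · obtain ⟨M0, hM0⟩ := rand_bad hdl q (L a) (L b) (hJ η h) hκ
      exact ⟨M0, fun _ => hM0⟩
    · exact ⟨0, fun h' => absurd h' h⟩
  choose g hg using hg'
  set M : ℕ := max 1 (max (F0.sup f) (J.sup g)) with hM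
  have hM1 : 1 ≤ M := le_max_left _ _
  have hMf : ∀ s ∈ F0, f s ≤ M := fun s hs =>
    (Finset.le_sup hs).trans ((le_max_left _ _).trans (le_max_right _ _))
  have hMg : ∀ η ∈ J, g η ≤ M := fun η hη =>
    (Finset.le_sup hη).trans ((le_max_right _ _).trans (le_max_right _ _))
  have hMpos : (0 : ℝ) < M := by exact_mod_cast hM1
  have hE : (0 : ℝ) < Fintype.card E := by exact_mod_cast Fintype.card_pos
  have hΩ : (0 : ℝ) < Fintype.card (A → Equiv.Perm (Fin M)) := by exact_mod_cast Fintype.card_pos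
  set X : Γ → (A → Equiv.Perm (Fin M)) → ℝ := fun s ρ =>
    (cnt (fun w : Fin M × E => L s w.2 ≠ 1 ∧ FreeGroup.lift ρ (L s w.2) w.1 = w.1) : ℝ) with hX
  set Y : ℝ → (A → Equiv.Perm (Fin M)) → ℝ := fun η ρ =>
    (cnt (fun i : E => Equi (L a i) (L b i) ∧ ¬ GoodPair η (dl η) q (FreeGroup.lift ρ (L a i)) (FreeGroup.lift ρ (L b i))) : ℝ) with hY
  have hX0 : ∀ s ρ, 0 ≤ X s ρ := fun s ρ => Nat.cast_nonneg _
  have hY0 : ∀ η ρ, 0 ≤ Y η ρ := fun η ρ => Nat.cast_nonneg _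
  have hXs : ∀ s ∈ F0, ∑ ρ, X s ρ ≤ κ * (M * Fintype.card E) * Fintype.card (A → Equiv.Perm (Fin M)) :=
    fun s hs => hf s M (hMf s hs)
  have hYs : ∀ η ∈ J, ∑ ρ, Y η ρ ≤ κ * Fintype.card E * Fintype.card (A → Equiv.Perm (Fin M)) :=
    fun η hη => hg η hη M (hMg η hη)
  set T : (A → Equiv.Perm (Fin M)) → ℝ := fun ρ =>
    ∑ s ∈ F0, X s ρ / (M * Fintype.card E) + ∑ η ∈ J, Y η ρ / Fintype.card E with hT
  have hTs : ∑ ρ, T ρ ≤ ((F0.card : ℝ) + J.card) * κ * Fintype.card (A → Equiv.Perm (Fin M)) := by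
    have h1 : ∑ ρ, T ρ = ∑ s ∈ F0, (∑ ρ, X s ρ) / (M * Fintype.card E) + ∑ η ∈ J, (∑ ρ, Y η ρ) / Fintype.card E := by
      rw [hT, Finset.sum_add_distrib, Finset.sum_comm, Finset.sum_comm (t := J)]
      congr 1
      · exact Finset.sum_congr rfl fun s _ => (Finset.sum_div _ _ _).symm
      · exact Finset.sum_congr rfl fun s _ => (Finset.sum_div _ _ _).symm
    rw [h1]
    have h2 : ∑ s ∈ F0, (∑ ρ, X s ρ) / (M * Fintype.card E) ≤
        ∑ s ∈ F0, κ * Fintype.card (A → Equiv.Perm (Fin M)) := by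
      refine Finset.sum_le_sum fun s hs => ?_
      rw [div_le_iff₀ (by positivity)]
      refine (hXs s hs).trans (le_of_eq (by ring))
    have h3 : ∑ η ∈ J, (∑ ρ, Y η ρ) / Fintype.card E ≤
        ∑ η ∈ J, κ * Fintype.card (A → Equiv.Perm (Fin M)) := by
      refine Finset.sum_le_sum fun s hs => ?_
      rw [div_le_iff₀ (by positivity)]
      refine (hYs s hs).trans (le_of_eq (by ring))
    rw [Finset.sum_const, nsmul_eq_mul] at h2 h3
    refine (add_le_add h2 h3).trans (le_of_eq (by ring))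
  have hlt : ∑ ρ, T ρ < ∑ ρ : A → Equiv.Perm (Fin M), ζ := by
    rw [Finset.sum_const, Finset.card_univ, nsmul_eq_mul]
    refine hTs.trans_lt ?_
    rw [mul_comm]
    refine mul_lt_mul_of_pos_left ?_ hΩ
    rw [hκdef, mul_div_assoc', div_lt_iff₀ hden]
    nlinarith
  obtain ⟨ρ, -, hρ⟩ := Finset.exists_lt_of_sum_lt hlt
  refine ⟨M, ρ, hM1, fun s hs => ?_, fun η hη => ?_⟩
  · have h1 : X s ρ / (M * Fintype.card E) ≤ T ρ := by
      have h2 : X s ρ / (M * Fintype.card E) ≤ ∑ s ∈ F0, X s ρ / (M * Fintype.card E) :=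
        Finset.single_le_sum (f := fun s => X s ρ / (M * Fintype.card E))
          (fun s _ => div_nonneg (hX0 s ρ) (by positivity)) hs
      have h3 : 0 ≤ ∑ η ∈ J, Y η ρ / Fintype.card E :=
        Finset.sum_nonneg fun η _ => div_nonneg (hY0 η ρ) (by positivity)
      linarith
    have h4 := (h1.trans_lt hρ).le
    rw [div_le_iff₀ (by positivity)] at h4
    rw [Fintype.card_fin]
    exact h4
  · have h1 : Y η ρ / Fintype.card E ≤ T ρ := by
      have h2 : Y η ρ / Fintype.card E ≤ ∑ η ∈ J, Y η ρ / Fintype.card E :=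
        Finset.single_le_sum (f := fun η => Y η ρ / Fintype.card E)
          (fun s _ => div_nonneg (hY0 s ρ) (by positivity)) hη
      have h3 : 0 ≤ ∑ s ∈ F0, X s ρ / (M * Fintype.card E) :=
        Finset.sum_nonneg fun s _ => div_nonneg (hX0 s ρ) (by positivity)
      linarith
    have h4 := (h1.trans_lt hρ).le
    rw [div_le_iff₀ hE] at h4
    exact h4

end SofE
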