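import Pool.Agent.helper41.SE.Seq
import Pool.Agent.helper41.SE.Prod
import Pool.Agent.helper41.SE.Rand
import Pool.Agent.helper41.SE.PrCount

/-! SE-20: the two finite approximations of `Γ × Δ`. -/

set_option autoImplicit false

namespace SofE

/-- transport of `cnt` -/
theorem thmA_near {V W : Type} [Fintype V] [Fintype W] (e : V ≃ W) (δ : ℝ) (A : Equiv.Perm V) (z : ZMod 2) (c : W → Al) :
    near δ (e.permCongr A) z c ↔ near δ A z (fun v => c (e v)) := by
  unfold near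
  rw [Fintype.card_congr e]
  have h : cnt (fun w => tt (c (e.permCongr A w)) ≠ sh z (tt (c w))) = cnt (fun v => tt (c (e (A v))) ≠ sh z (tt (c (e v)))) := by
    rw [← cnt_equiv e]
    refine cnt_congr fun v => ?_
    simp [Equiv.permCongr_apply]
  rw [h]

variable {Γ Δ : Type} [Group Γ] [Group Δ]

theorem thmA_mono {F : Finset Γ} {ε ε' : ℝ} (h : ε ≤ ε') {V : Type} [Fintype V] {π : Γ → Equiv.Perm V} (hA : Appr F ε π) : Appr F ε' π := by
  have hc : (0:ℝ) ≤ Fintype.card V := Nat.cast_nonneg _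
  exact ⟨hA.ne, fun s hs t ht => (hA.mul s hs t ht).trans (mul_le_mul_of_nonneg_right h hc),
    fun s hs h1 => (hA.free s hs h1).trans (mul_le_mul_of_nonneg_right h hc)⟩

/-- `del η` = `δ'` of `prCount` for `dη = dl η`. Given `F`, `ε`, `J`: `F0` = first components, `a`, `b`, `1`; `F1` = second components and `1`; `ζ` = minimum of the
`ζ` of `prCount` (`η ∈ J`), `ε`; `Lab` for `F0`, `ζ/4`, `Appr` of `Δ` for `F1`, `ζ/4` (`πD 1 x ≠ x` implies `πD (1*1) x ≠ πD 1 (πD 1 x)`), `randRho` with `ζ/4`.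
The space is `Fin M × (E × D)`, transported to `Fin k` (`Fintype.equivFin`); `near` and `cnt` are invariant under transport. -/
theorem thmA1 {dl : ℝ → ℝ} (hdl : DL dl) {N : Subgroup Γ} {p : Γ → ZMod 2} {a b : Γ} (ha : a ∈ N) (hb : b ∈ N) (hLab : HasLab N p a b)
    (hΔ : ∃ (k : ℕ → ℕ) (π : ∀ n, Δ → Equiv.Perm (Fin (k n))), IsSofic k π) :
    ∃ del : ℝ → ℝ, (∀ η : ℝ, 0 < η → 0 < del η) ∧ ∀ (F : Finset (Γ × Δ)) (ε : ℝ) (J : Finset ℝ), 0 < ε → (∀ η ∈ J, 0 < η) →
      ∃ (k : ℕ) (π : Γ × Δ → Equiv.Perm (Fin k)), Appr F ε π ∧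
        ∀ η ∈ J, (cnt (fun c : Fin k → Al => near (del η) (π (a, 1)) 1 c ∧ near (del η) (π (b, 1)) (p b) c) : ℝ) ≤
          Real.exp ((Real.log 2 + 3 * η) * k) := by
  classical
  choose ζ δ' h1 h2 h3 using (fun (η : {η : ℝ // 0 < η}) => prCount (Γ := Γ) (Δ := Δ) η.2 (p b) (hdl η.1 η.2).1)
  refine ⟨fun η => if h : 0 < η then δ' ⟨η, h⟩ else 1, fun η hη => by simp only [hη, dif_pos]; exact h2 _, ?_⟩
  intro F ε J hε hJ
  obtain ⟨z, hz0, hzε, hzJ⟩ : ∃ z : ℝ, 0 < z ∧ z ≤ ε ∧ ∀ η (h : 0 < η), η ∈ J → z ≤ ζ ⟨η, h⟩ := by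
    clear hJ
    induction J using Finset.induction with
    | empty => exact ⟨ε, hε, le_rfl, fun η _ h => absurd h (Finset.notMem_empty _)⟩
    | insert η0 J _ ih =>
      obtain ⟨z, hz0, hzε, hzJ⟩ := ih
      by_cases hη0 : 0 < η0
      · refine ⟨min z (ζ ⟨η0, hη0⟩), lt_min hz0 (h1 _), (min_le_left _ _).trans hzε, ?_⟩
        intro η h hη
        rcases Finset.mem_insert.1 hη with rfl | hη'
        · exact min_le_right _ _
        · exact (min_le_left _ _).trans (hzJ η h hη')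
      · refine ⟨z, hz0, hzε, ?_⟩
        intro η h hη
        rcases Finset.mem_insert.1 hη with rfl | hη'
        · exact absurd h hη0
        · exact hzJ η h hη'
  obtain ⟨E, A, iE, iA, dA, σ, L, lam, hL⟩ := hLab (insert a (insert b (insert 1 (F.image Prod.fst)))) (z / 4) (by positivity)
  obtain ⟨kΔ, πΔ, hS⟩ := hΔ
  obtain ⟨n, hD⟩ := hS.appr (insert 1 (F.image Prod.snd)) (show 0 < z / 4 by positivity)
  have hEne : Nonempty E := hL.ne
  obtain ⟨M, ρ, hM, hR, hG⟩ := randRho hdl (p b) a b (insert a (insert b (insert 1 (F.image Prod.fst)))) J hJ (show 0 < z / 4 by positivity) L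
  have hMne : Nonempty (Fin M) := ⟨⟨0, hM⟩⟩
  set R : FreeGroup A →* Equiv.Perm (Fin M) := FreeGroup.lift ρ with hRdef
  set π0 : Γ × Δ → Equiv.Perm (Fin M × (E × Fin (kΔ n))) := pr R σ L (πΔ n) with hπ0
  have hA0 : Appr F (2 * (z / 4)) π0 := by
    refine pr_appr (by positivity) hL hD R hR F ?_
    intro g hg
    refine ⟨?_, ?_⟩
    · exact Finset.mem_insert_of_mem (Finset.mem_insert_of_mem (Finset.mem_insert_of_mem (Finset.mem_image_of_mem _ hg)))
    · exact Finset.mem_insert_of_mem (Finset.mem_image_of_mem _ hg)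
  set e := Fintype.equivFin (Fin M × (E × Fin (kΔ n))) with he
  refine ⟨Fintype.card (Fin M × (E × Fin (kΔ n))), fun g => e.permCongr (π0 g), (thmA_mono (by linarith) hA0).transport e, ?_⟩
  intro η hη
  have hη0 := hJ η hη
  simp only [hη0, dif_pos]
  have hzη := hzJ η hη0 hη
  have hEc : (0:ℝ) ≤ Fintype.card E := Nat.cast_nonneg _
  have hDc : (0:ℝ) ≤ Fintype.card (Fin (kΔ n)) := Nat.cast_nonneg _
  have hcount := h3 ⟨η, hη0⟩ E (Fin (kΔ n)) A M hM σ L (πΔ n) R a b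
    ((hL.fix a (Finset.mem_insert_self _ _) ha).trans (mul_le_mul_of_nonneg_right (by linarith) hEc))
    ((hL.fix b (Finset.mem_insert_of_mem (Finset.mem_insert_self _ _)) hb).trans (mul_le_mul_of_nonneg_right (by linarith) hEc))
    (by
      have h4 := hD.mul 1 (Finset.mem_insert_self _ _) 1 (Finset.mem_insert_self _ _)
      have h5 : cnt (fun x => πΔ n 1 x ≠ x) ≤ cnt (fun x => πΔ n (1 * 1) x ≠ πΔ n 1 (πΔ n 1 x)) := by
        refine cnt_mono fun x hx h => hx ?_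
        rw [one_mul] at h
        exact ((πΔ n 1).injective h).symm
      have h6 : (cnt (fun x => πΔ n 1 x ≠ x) : ℝ) ≤ cnt (fun x => πΔ n (1 * 1) x ≠ πΔ n 1 (πΔ n 1 x)) := by exact_mod_cast h5
      exact (h6.trans h4).trans (mul_le_mul_of_nonneg_right (by linarith) hDc))
    (by
      have h4 : cnt (fun i : E => ¬ GoodPair η (dl η) (p b) (R (L a i)) (R (L b i))) ≤ cnt (fun i => ¬ Equi (L a i) (L b i)) +
          cnt (fun i : E => Equi (L a i) (L b i) ∧ ¬ GoodPair η (dl η) (p b) (R (L a i)) (R (L b i))) := by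
        refine cnt_le_add fun i hi => ?_
        by_cases hEq : Equi (L a i) (L b i)
        · exact Or.inr ⟨hEq, hi⟩
        · exact Or.inl hEq
      have h5 : (cnt (fun i : E => ¬ GoodPair η (dl η) (p b) (R (L a i)) (R (L b i))) : ℝ) ≤ cnt (fun i => ¬ Equi (L a i) (L b i)) +
          cnt (fun i : E => Equi (L a i) (L b i) ∧ ¬ GoodPair η (dl η) (p b) (R (L a i)) (R (L b i))) := by exact_mod_cast h4
      have h6 := hL.equi
      have h7 := hG η hη
      have h8 : z / 4 * (Fintype.card E : ℝ) + z / 4 * Fintype.card E ≤ ζ ⟨η, hη0⟩ * Fintype.card E := by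
        have : z / 4 * (Fintype.card E : ℝ) + z / 4 * Fintype.card E = (z / 2) * Fintype.card E := by ring
        rw [this]
        exact mul_le_mul_of_nonneg_right (by linarith) hEc
      linarith)
  refine le_trans (le_of_eq ?_) hcount
  congr 1
  rw [← cnt_equiv (Equiv.arrowCongr e (Equiv.refl Al))]
  refine cnt_congr fun c => ?_
  rw [thmA_near, thmA_near]
  have h4 : (fun v => (Equiv.arrowCongr e (Equiv.refl Al)) c (e v)) = c := by
    funext v
    simp
  rw [h4]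

/-- the same with the space `(Fin M × (E → ZMod 2)) × (E × D)` and the homomorphism `homProd (lift ρ) (transl lam)`; `c0 v = v.1.2 v.2.1` -/
theorem thmA2 {dl : ℝ → ℝ} (hdl : DL dl) {N : Subgroup Γ} {p : Γ → ZMod 2} {a b : Γ} (hLab : HasLab N p a b)
    (hΔ : ∃ (k : ℕ → ℕ) (π : ∀ n, Δ → Equiv.Perm (Fin (k n))), IsSofic k π) (F : Finset (Γ × Δ)) (ε : ℝ) (hε : 0 < ε) :
    ∃ (k : ℕ) (π : Γ × Δ → Equiv.Perm (Fin k)) (c0 : Fin k → ZMod 2), Appr F ε π ∧
      ∀ g ∈ F, g.1 ∈ N → (cnt (fun v => c0 (π g v) ≠ c0 v + p g.1) : ℝ) ≤ ε * k := by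
  classical
  obtain ⟨E, A, iE, iA, dA, σ, L, lam, hL⟩ := hLab (F.image Prod.fst) (ε / 2) (by positivity)
  obtain ⟨kΔ, πΔ, hS⟩ := hΔ
  obtain ⟨n, hD⟩ := hS.appr (F.image Prod.snd) (show 0 < ε / 2 by positivity)
  have hEne : Nonempty E := hL.ne
  obtain ⟨M, ρ, hM, hR, hG⟩ := randRho hdl (p b) a b (F.image Prod.fst) ∅ (fun η h => absurd h (Finset.notMem_empty _))
    (show 0 < ε / 2 by positivity) L
  have hMne : Nonempty (Fin M) := ⟨⟨0, hM⟩⟩
  set R : FreeGroup A →* Equiv.Perm (Fin M) := FreeGroup.lift ρ with hRdef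
  set π0 : Γ × Δ → Equiv.Perm ((Fin M × (E → ZMod 2)) × (E × Fin (kΔ n))) := pr (homProd R (transl lam)) σ L (πΔ n) with hπ0
  have hA0 : Appr F (2 * (ε / 2)) π0 := by
    refine pr_appr (by positivity) hL hD _ (hR_transl lam R hR) F ?_
    intro g hg
    exact ⟨Finset.mem_image_of_mem _ hg, Finset.mem_image_of_mem _ hg⟩
  set e := Fintype.equivFin ((Fin M × (E → ZMod 2)) × (E × Fin (kΔ n))) with he
  refine ⟨Fintype.card ((Fin M × (E → ZMod 2)) × (E × Fin (kΔ n))), fun g => e.permCongr (π0 g), fun w => (e.symm w).1.2 (e.symm w).2.1,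
    (thmA_mono (by linarith) hA0).transport e, ?_⟩
  intro g hg hgN
  have h1 := pr_c0 hL (πΔ n) R g.1 (Finset.mem_image_of_mem _ hg) hgN g.2
  rw [show 2 * (ε / 2) = ε by ring] at h1
  refine le_trans (le_of_eq ?_) h1
  congr 1
  rw [← cnt_equiv e]
  refine cnt_congr fun v => ?_
  simp only [Equiv.permCongr_apply, Equiv.symm_apply_apply]
  rfl

end SofE
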